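import Pool.Agent.Lib.MX.Stm

/-!
MP_00e23e_nt, directory Lib/MX, module Abi (helper65; the model is Lib/MS/Abi): the bilinear part.
-/

namespace Pool.Agent.Lib.MX

open Finset Pool.Agent.Lib.EH3 Pool.Agent.Lib.TB Pool.Agent.Results.MP_00e23e_nt Pool.Agent.Lib.MI

/-- exchanging the sum over q with the sum over the cells -/
private lemma Abi_swap (F : Finset ℕ) (I : ℕ) (P : ℕ → ℕ → Prop) [∀ i j, Decidable (P i j)]
    (v : ℕ → ℕ → ℕ → ℝ) (B : ℝ) (hB : 0 ≤ B) (h : ∀ i j, P i j → ∑ q ∈ F, v q i j ≤ B) :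
    ∑ q ∈ F, ∑ i ∈ range I, ∑ j ∈ range I, (if P i j then v q i j else 0) ≤ (I : ℝ) ^ 2 * B := by
  have h1 : ∑ q ∈ F, ∑ i ∈ range I, ∑ j ∈ range I, (if P i j then v q i j else 0) =
      ∑ i ∈ range I, ∑ j ∈ range I, ∑ q ∈ F, (if P i j then v q i j else 0) := by
    rw [Finset.sum_comm]
    apply Finset.sum_congr rfl
    intro i _
    rw [Finset.sum_comm]
  rw [h1]
  have h2 : ∀ i ∈ range I, ∑ j ∈ range I, ∑ q ∈ F, (if P i j then v q i j else 0) ≤ (I : ℝ) * B := by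
    intro i _
    have h3 : ∀ j ∈ range I, ∑ q ∈ F, (if P i j then v q i j else 0) ≤ B := by
      intro j _
      by_cases hP : P i j
      · simp only [if_pos hP]
        exact h i j hP
      · simp only [if_neg hP, Finset.sum_const_zero]
        exact hB
    have h4 := Finset.sum_le_sum h3
    rw [Finset.sum_const, Finset.card_range, nsmul_eq_mul] at h4
    exact h4
  have h5 := Finset.sum_le_sum h2
  rw [Finset.sum_const, Finset.card_range, nsmul_eq_mul] at h5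
  have h6 : (I : ℝ) ^ 2 * B = (I : ℝ) * ((I : ℝ) * B) := by ring
  rw [h6]
  exact h5

theorem tAbi (hAcl : MI.AclStmt) (hAtr : MK.AtrStmt) (hAcb : AcbStmt) : AbiStmt := by
  intro α τ κ σ ω ε hα hε hε1 hBl
  obtain ⟨η1, C1, x1, A1, hη1, hC1, hx13, hmain⟩ := hAcb α τ κ σ ω ε hε hε1 hBl
  obtain ⟨η, hηdef⟩ : ∃ η, η = min (η1 / 4) (min (ε / 8) (1 / 100)) := ⟨_, rfl⟩
  have hη : 0 < η := by
    rw [hηdef]
    exact lt_min (by linarith) (lt_min (by linarith) (by norm_num))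
  have hηa : 4 * η ≤ η1 := by
    have : η ≤ η1 / 4 := by rw [hηdef]; exact min_le_left _ _
    linarith
  have hηb : 8 * η ≤ ε := by
    have : η ≤ ε / 8 := by rw [hηdef]; exact (min_le_right _ _).trans (min_le_left _ _)
    linarith
  have hηc : η ≤ 1 / 100 := by
    rw [hηdef]; exact (min_le_right _ _).trans (min_le_right _ _)
  refine ⟨η, 36 * C1 + 44, x1, A1 + 3, hη, by positivity, hx13, ?_⟩
  intro x T z a Y f g F t v hx1 hTx hz hzx hYx hf hg hfs hF hN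
  have hx3 : 3 ≤ x := hx13.trans hx1
  have hxpos : 0 < x := by linarith
  have hx1' : 1 ≤ x := by linarith
  have hT : Tau x T := Tau_x hx1' hTx
  have hT1 : 1 ≤ T := hT.1
  have hlogT : Real.log x ≤ T - 1 := by
    have := log_le_T hx1' hTx
    linarith
  rcases Nat.eq_zero_or_pos Y with hY0 | hY0
  · subst hY0
    have : ∑ q ∈ F, ‖∑ m ∈ Icc 1 0, ∑ n ∈ Icc 1 (0 / m), f m * g n * Ek (a q) (t q) q (m * n)‖ = 0 := by
      apply Finset.sum_eq_zero
      intro q _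
      simp
    rw [this]
    exact Bd_nonneg (by positivity) hT1 hxpos.le hz
  have hY1 : (1 : ℝ) ≤ Y := by exact_mod_cast hY0
  have hlogY : Real.log Y ≤ Real.log x := Real.log_le_log (by linarith) hYx
  have hlogx : 0 ≤ Real.log x := Real.log_nonneg hx1'
  -- W
  obtain ⟨W, hW⟩ : ∃ W, W = z ^ η := ⟨_, rfl⟩
  have hW1 : 1 ≤ W := by rw [hW]; exact Real.one_le_rpow hz hη.le
  have hWpos : 0 < W := by linarith
  have hzpos : 0 < z := by linarith
  have hWx : W ≤ x := by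
    rw [hW]
    calc z ^ η ≤ z ^ (1 : ℝ) := Real.rpow_le_rpow_of_exponent_le hz (by linarith)
      _ = z := Real.rpow_one z
      _ ≤ x := hzx
  have hpow : ∀ μ : ℝ, η ≤ μ → x ^ (1 - μ) ≤ x / W := by
    intro μ hμ
    refine (rp_le hz hzx (hη.le.trans hμ)).trans ?_
    rw [hW]
    exact div_le_div_of_nonneg_left hxpos.le (Real.rpow_pos_of_pos hzpos _)
      (Real.rpow_le_rpow_of_exponent_le hz hμ)
  -- K
  obtain ⟨K, hKdef⟩ : ∃ K, K = ⌈W⌉₊ + 3 := ⟨_, rfl⟩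
  have hKlow : W ≤ K := by
    rw [hKdef]
    push_cast
    have := Nat.le_ceil W
    linarith
  have hKup : (K : ℝ) < W + 4 := by
    rw [hKdef]
    push_cast
    have := Nat.ceil_lt_add_one hWpos.le
    linarith
  have hK4 : 4 ≤ K := by
    have : 0 < ⌈W⌉₊ := Nat.ceil_pos.2 hWpos
    omega
  have hK4' : (4 : ℝ) ≤ K := by exact_mod_cast hK4
  have hKpos : (0 : ℝ) < K := by linarith
  -- G
  obtain ⟨G, hGdef⟩ : ∃ G, G = ⌈(K : ℝ) * (Real.log 4 + (1 - ε / 2) * Real.log x)⌉₊ := ⟨_, rfl⟩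
  have hlog4 : 0 ≤ Real.log 4 := Real.log_nonneg (by norm_num)
  have hGarg : 0 ≤ (K : ℝ) * (Real.log 4 + (1 - ε / 2) * Real.log x) := by
    apply mul_nonneg hKpos.le
    exact add_nonneg hlog4 (mul_nonneg (by linarith) hlogx)
  have hGlow : (K : ℝ) * (Real.log 4 + (1 - ε / 2) * Real.log x) ≤ G := by rw [hGdef]; exact Nat.le_ceil _
  have hGup : (G : ℝ) < (K : ℝ) * (Real.log 4 + (1 - ε / 2) * Real.log x) + 1 := by
    rw [hGdef]
    exact Nat.ceil_lt_add_one hGarg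
  -- I
  obtain ⟨I, hIdef⟩ : ∃ I, I = ⌊(K : ℝ) * Real.log x⌋₊ + 1 := ⟨_, rfl⟩
  have hIlow : (K : ℝ) * Real.log Y < I := by
    have h1 : (K : ℝ) * Real.log x < I := by
      rw [hIdef]
      push_cast
      exact Nat.lt_floor_add_one _
    have h2 : (K : ℝ) * Real.log Y ≤ K * Real.log x := mul_le_mul_of_nonneg_left hlogY hKpos.le
    linarith
  have hIup : (I : ℝ) ≤ K * Real.log x + 1 := by
    rw [hIdef]
    push_cast
    have := Nat.floor_le (mul_nonneg hKpos.le hlogx)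
    linarith
  -- D
  obtain ⟨D, hDdef⟩ : ∃ D, D = ⌊x ^ ((3 : ℝ) / 5)⌋₊ := ⟨_, rfl⟩
  have hx35 : 1 ≤ x ^ ((3 : ℝ) / 5) := Real.one_le_rpow hx1' (by norm_num)
  have hD1 : 1 ≤ D := by
    rw [hDdef]
    exact Nat.le_floor (by exact_mod_cast hx35)
  have hDup : (D : ℝ) ≤ x ^ ((3 : ℝ) / 5) := by
    rw [hDdef]
    exact Nat.floor_le (by linarith)
  have hDx : (D : ℝ) ≤ x := by
    refine hDup.trans ?_
    have := Real.rpow_le_rpow_of_exponent_le hx1' (show (3 : ℝ) / 5 ≤ 1 by norm_num)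
    rwa [Real.rpow_one] at this
  have hFD : ∀ q ∈ F, Squarefree q ∧ t q ∣ q ∧ q ≤ D := by
    intro q hq
    obtain ⟨hM, _⟩ := hF q hq
    refine ⟨hM.1, hM.2.1, ?_⟩
    rw [hDdef]
    apply Nat.le_floor
    exact hM.2.2.1.trans (Real.rpow_le_rpow_of_exponent_le hx1' hα)
  have hA := hAtr x T D K G Y a F t hT hD1 hDx hYx hY0 (by omega) hFD
  have hB : ∀ q, ‖∑ m ∈ Icc 1 Y, ∑ n ∈ Icc 1 (Y / m), f m * g n * Ek (a q) (t q) q (m * n)‖ ≤
      (∑ i ∈ range I, ∑ j ∈ range I, if G ≤ i + j ∧ ((i : ℝ) + j + 2) ≤ K * Real.log Y then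
        ‖∑ m ∈ Icc 1 Y, ∑ n ∈ Icc 1 Y, cl K i f m * cl K j g n * Ek (a q) (t q) q (m * n)‖ else 0) +
      ∑ k ∈ (Icc 1 Y).filter (fun k : ℕ => (K : ℝ) * Real.log k < G + 1 ∨ (K : ℝ) * Real.log Y - 2 < K * Real.log k),
        (k.divisors.card : ℝ) * ‖Ek (a q) (t q) q k‖ := fun q =>
    hAcl K G Y I f g (Ek (a q) (t q) q) (by omega) hIlow hf hg
  refine (Finset.sum_le_sum (fun q _ => hB q)).trans ?_
  rw [Finset.sum_add_distrib]
  -- the bound
  obtain ⟨p, hp⟩ : ∃ p, p = x / W := ⟨_, rfl⟩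
  have hppos : 0 < p := by rw [hp]; positivity
  have hBd1 : 0 ≤ Bd C1 A1 η1 x T z := Bd_nonneg hC1 hT1 hxpos.le hz
  have hgood : ∑ q ∈ F, ∑ i ∈ range I, ∑ j ∈ range I, (if G ≤ i + j ∧ ((i : ℝ) + j + 2) ≤ K * Real.log Y then
        ‖∑ m ∈ Icc 1 Y, ∑ n ∈ Icc 1 Y, cl K i f m * cl K j g n * Ek (a q) (t q) q (m * n)‖ else 0) ≤
      (I : ℝ) ^ 2 * Bd C1 A1 η1 x T z := by
    apply Abi_swap F I (fun i j => G ≤ i + j ∧ ((i : ℝ) + j + 2) ≤ K * Real.log Y)
      (fun q i j => ‖∑ m ∈ Icc 1 Y, ∑ n ∈ Icc 1 Y, cl K i f m * cl K j g n * Ek (a q) (t q) q (m * n)‖)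
    · exact hBd1
    · intro i j hij
      apply hmain x T z a Y K i j f g F t v hx1 hTx hz hzx hYx hK4 hf hg hfs _ hij.2 hF hN
      have : (G : ℝ) ≤ (i : ℝ) + j := by exact_mod_cast hij.1
      linarith
  have hI2 : (I : ℝ) ≤ 6 * W * T := by
    have h1 : (K : ℝ) * Real.log x ≤ (5 * W) * (T - 1) :=
      mul_le_mul (by linarith) hlogT hlogx (by positivity)
    have h2 : (5 * W) * (T - 1) = 5 * (W * T) - 5 * W := by ring
    have h3 : 0 ≤ W * T := by positivity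
    have h4 : 6 * W * T = 6 * (W * T) := by ring
    rw [h4]
    linarith
  have hTA1 : 0 < T ^ (A1 + 3) := by positivity
  have hgood2 : (I : ℝ) ^ 2 * Bd C1 A1 η1 x T z ≤ 36 * C1 * (T ^ (A1 + 3) * p) := by
    have h1 : (I : ℝ) ^ 2 ≤ (6 * W * T) ^ 2 := pow_le_pow_left₀ (by positivity) hI2 2
    have hW3 : W ^ 3 ≤ z ^ η1 := by
      have : W ^ 3 = z ^ (3 * η) := by
        rw [hW, ← Real.rpow_natCast, ← Real.rpow_mul hzpos.le]
        congr 1
        push_cast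
        ring
      rw [this]
      exact Real.rpow_le_rpow_of_exponent_le hz (by linarith)
    have h2 : x / z ^ η1 ≤ x / W ^ 3 := div_le_div_of_nonneg_left hxpos.le (by positivity) hW3
    have h3 : Bd C1 A1 η1 x T z ≤ C1 * T ^ A1 * (x / W ^ 3) := by
      unfold Bd
      exact mul_le_mul_of_nonneg_left h2 (by positivity)
    have h4 : (I : ℝ) ^ 2 * Bd C1 A1 η1 x T z ≤ (6 * W * T) ^ 2 * (C1 * T ^ A1 * (x / W ^ 3)) :=
      mul_le_mul h1 h3 hBd1 (by positivity)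
    have h5 : (6 * W * T) ^ 2 * (C1 * T ^ A1 * (x / W ^ 3)) = 36 * C1 * (T ^ (A1 + 2) * p) := by
      rw [hp]
      field_simp
      ring
    have h6 : T ^ (A1 + 2) ≤ T ^ (A1 + 3) := pow_le_pow_right₀ hT1 (by omega)
    rw [h5] at h4
    exact h4.trans (mul_le_mul_of_nonneg_left (mul_le_mul_of_nonneg_right h6 hppos.le) (by positivity))
  have hrest : 4 * T ^ 3 * (Real.exp (((G : ℝ) + 1) / K) + (Y : ℝ) / K + 1 + D) ≤ 44 * (T ^ (A1 + 3) * p) := by
    have e1 : Real.exp (((G : ℝ) + 1) / K) ≤ 8 * p := by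
      have h1 : ((G : ℝ) + 1) / K ≤ Real.log 4 + (1 - ε / 2) * Real.log x + 1 / 2 := by
        rw [div_le_iff₀ hKpos]
        have : (Real.log 4 + (1 - ε / 2) * Real.log x + 1 / 2) * K =
          (K : ℝ) * (Real.log 4 + (1 - ε / 2) * Real.log x) + K / 2 := by ring
        rw [this]
        linarith
      have h2 : Real.exp (Real.log 4 + (1 - ε / 2) * Real.log x + 1 / 2) = 4 * x ^ (1 - ε / 2) * Real.exp (1 / 2) := by
        rw [Real.exp_add, Real.exp_add, Real.exp_log (by norm_num), Real.rpow_def_of_pos hxpos,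
          mul_comm (Real.log x)]
      have h3 : Real.exp (1 / 2) ≤ 2 := by
        have h4 : Real.exp (1 / 2) ^ 2 ≤ (2 : ℝ) ^ 2 := by
          rw [← Real.exp_nat_mul]
          have : ((2 : ℕ) : ℝ) * (1 / 2) = 1 := by norm_num
          rw [this]
          have := Real.exp_one_lt_d9
          norm_num
          linarith
        exact le_of_pow_le_pow_left₀ (by norm_num) (by norm_num) h4
      have h4 : x ^ (1 - ε / 2) ≤ p := by
        rw [hp]
        exact hpow _ (by linarith)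
      have h5 : 4 * x ^ (1 - ε / 2) * Real.exp (1 / 2) ≤ 4 * p * 2 := by
        apply mul_le_mul (by linarith) h3 (Real.exp_pos _).le (by positivity)
      have h6 := Real.exp_le_exp.2 h1
      rw [h2] at h6
      linarith
    have e2 : (Y : ℝ) / K ≤ p := by
      rw [hp, div_le_div_iff₀ hKpos hWpos]
      exact mul_le_mul hYx hKlow hWpos.le hxpos.le
    have e3 : 1 ≤ p := by
      rw [hp, le_div_iff₀ hWpos, one_mul]
      exact hWx
    have e4 : (D : ℝ) ≤ p := by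
      refine hDup.trans ?_
      rw [hp]
      have h := hpow (2 / 5) (by linarith)
      have : (1 : ℝ) - 2 / 5 = 3 / 5 := by norm_num
      rwa [this] at h
    have hTpos : 0 < T ^ 3 := by positivity
    have h6 : T ^ 3 ≤ T ^ (A1 + 3) := pow_le_pow_right₀ hT1 (by omega)
    calc 4 * T ^ 3 * (Real.exp (((G : ℝ) + 1) / K) + (Y : ℝ) / K + 1 + D)
        ≤ 4 * T ^ 3 * (11 * p) := mul_le_mul_of_nonneg_left (by linarith) (by positivity)
      _ = 44 * (T ^ 3 * p) := by ring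
      _ ≤ 44 * (T ^ (A1 + 3) * p) := by
        apply mul_le_mul_of_nonneg_left (mul_le_mul_of_nonneg_right h6 hppos.le) (by norm_num)
  have hfin : Bd (36 * C1 + 44) (A1 + 3) η x T z = 36 * C1 * (T ^ (A1 + 3) * p) + 44 * (T ^ (A1 + 3) * p) := by
    unfold Bd
    rw [hp, hW]
    ring
  rw [hfin]
  exact add_le_add (hgood.trans hgood2) (hA.trans hrest)

end Pool.Agent.Lib.MX
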