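import Pool.Agent.Lib.MX.StmF

/-! MP_00e23e_nt, THEOREM MI, version 12, module Faf: large x, the moduli d = m n with a small En A' x-smooth part of n, bounded number of scales. -/

namespace Pool.Agent.Lib.MX

open Finset Pool.Agent.Lib.EH3 Pool.Agent.Lib.TB Pool.Agent.Results.MP_00e23e_nt Pool.Agent.Lib.MI

private lemma Faf_tot {u : ℕ} (hu : 1 ≤ u) : (1 : ℝ) ≤ (u.totient : ℝ) := by
  have : 1 ≤ u.totient := Nat.totient_pos.2 hu
  exact_mod_cast this

private lemma Faf_split (y : ℝ) (d t : ℕ) (s : ℤ) (hd : Squarefree d) (ht : t ∣ d) :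
    resErr y d s = df y d t s + resErr y t s / ((d / t).totient : ℝ) := by
  have hd0 : d ≠ 0 := hd.ne_zero
  have ht0 : 0 < t := Nat.pos_of_dvd_of_pos ht (Nat.pos_of_ne_zero hd0)
  have hu : 1 ≤ d / t := Nat.div_pos (Nat.le_of_dvd (Nat.pos_of_ne_zero hd0) ht) ht0
  have hmul : t * (d / t) = d := Nat.mul_div_cancel' ht
  have hcop : t.Coprime (d / t) := by
    rw [← hmul] at hd
    exact Nat.coprime_of_squarefree_mul hd
  have htot : (d.totient : ℝ) = (t.totient : ℝ) * ((d / t).totient : ℝ) := by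
    conv_lhs => rw [← hmul]
    rw [Nat.totient_mul hcop]
    push_cast
    rfl
  have h1 := Faf_tot hu
  have h2 := Faf_tot ht0
  unfold resErr df
  rw [htot]
  have h1' : ((d / t).totient : ℝ) ≠ 0 := by positivity
  have h2' : (t.totient : ℝ) ≠ 0 := by positivity
  field_simp
  ring

private lemma Faf_dvd (w : ℝ) {d : ℕ} (hd : Squarefree d) : Sp w d ∣ d := by
  conv_rhs => rw [← Nat.prod_primeFactors_of_squarefree hd]
  exact prod_dvd_prod_of_subset _ _ _ (filter_subset _ _)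

private lemma Faf_big {w : ℝ} {d p : ℕ} (hd : Squarefree d) (hp : p.Prime) (hpd : p ∣ d / Sp w d) : w < p := by
  by_contra hcon
  push Not at hcon
  have h1 := Faf_dvd w hd
  have h2 : p ∣ d := hpd.trans (Nat.div_dvd_of_dvd h1)
  have h3 : p ∣ Sp w d := by
    unfold Sp
    refine dvd_prod_of_mem _ ?_
    rw [mem_filter]
    exact ⟨Nat.mem_primeFactors.2 ⟨hp, h2, hd.ne_zero⟩, hcon⟩
  have h4 : p * p ∣ d := by
    have h5 := mul_dvd_mul h3 hpd
    rwa [Nat.mul_div_cancel' h1] at h5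
  exact hp.not_isUnit (hd p h4)

private lemma Faf_En_mul (a b x : ℝ) : En a x * En b x = En (a + b) x := by
  unfold En
  rw [← Real.exp_add]
  congr 1
  ring

private lemma Faf_En_pow (a x : ℝ) (n : ℕ) : (En a x) ^ n = En (a * n) x := by
  unfold En
  rw [← Real.exp_nat_mul]
  congr 1
  ring

private lemma Faf_En_rpow (a η x : ℝ) : (En a x) ^ η = En (a * η) x := by
  unfold En
  rw [← Real.exp_mul]
  congr 1
  ring

private lemma Faf_En_inv (a x : ℝ) : 1 / En a x = En (-a) x := by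
  unfold En
  rw [one_div, ← Real.exp_neg]
  congr 1
  ring

private lemma Faf_En_pos (a x : ℝ) : 0 < En a x := Real.exp_pos _

/-- U (log L)^2 ≤ L -/
private lemma Faf_log {U L : ℝ} (hU : 0 < U) (hL1 : 1 ≤ L) (hL : (16 * U) ^ 2 ≤ L) : U * (Real.log L) ^ 2 ≤ L := by
  have h0 : 0 < L := by linarith
  have h1 : Real.log L ≤ L ^ ((1 : ℝ) / 4) / (1 / 4) := Real.log_le_rpow_div h0.le (by norm_num)
  have h2 : 0 ≤ Real.log L := Real.log_nonneg hL1
  have h3 : (Real.log L) ^ 2 ≤ (L ^ ((1 : ℝ) / 4) / (1 / 4)) ^ 2 := pow_le_pow_left₀ h2 h1 2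
  have h4 : (L ^ ((1 : ℝ) / 4) / (1 / 4)) ^ 2 = 16 * L ^ ((1 : ℝ) / 2) := by
    have : (L ^ ((1 : ℝ) / 4)) ^ 2 = L ^ ((1 : ℝ) / 2) := by
      rw [← Real.rpow_natCast, ← Real.rpow_mul h0.le]
      norm_num
    rw [div_pow, this]
    ring
  rw [h4] at h3
  have h5 : L ^ ((1 : ℝ) / 2) = Real.sqrt L := (Real.sqrt_eq_rpow L).symm
  rw [h5] at h3
  have h6 : 16 * U ≤ Real.sqrt L := Real.le_sqrt_of_sq_le hL
  have h7 : Real.sqrt L * Real.sqrt L = L := Real.mul_self_sqrt h0.le
  have h8 : 0 ≤ Real.sqrt L := Real.sqrt_nonneg _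
  nlinarith [mul_le_mul_of_nonneg_left h3 hU.le, mul_le_mul_of_nonneg_right h6 h8]

/-- the numbers t d = m d * Sp z (d / m d) -/
private lemma Faf_t {z : ℝ} {d m : ℕ} (hd : Squarefree d) (hm : m ∣ d) :
    m * Sp z (d / m) ∣ d ∧ Squarefree (d / m) ∧ m * (d / m) = d ∧ d / (m * Sp z (d / m)) = (d / m) / Sp z (d / m) := by
  have h1 : m * (d / m) = d := Nat.mul_div_cancel' hm
  have h2 : Squarefree (d / m) := hd.squarefree_of_dvd (Nat.div_dvd_of_dvd hm)
  have h3 := Faf_dvd z h2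
  refine ⟨?_, h2, h1, (Nat.div_div_eq_div_mul d m _).symm⟩
  conv_rhs => rw [← h1]
  exact Nat.mul_dvd_mul_left m h3

/-- the number of the scale -/
private lemma Faf_fl {x σ l Z : ℝ} (hx : 1 < x) (hl : 0 < l) (hZ : x ^ σ ≤ Z) :
    x ^ σ ≤ x ^ (σ + (⌊(Real.log Z / Real.log x - σ) / l⌋₊ : ℝ) * l) ∧
    x ^ (σ + (⌊(Real.log Z / Real.log x - σ) / l⌋₊ : ℝ) * l) ≤ Z ∧
    Z < x ^ (σ + (⌊(Real.log Z / Real.log x - σ) / l⌋₊ : ℝ) * l) * x ^ l ∧
    (Z ≤ x ^ ((1 : ℝ) / 2) → σ + (⌊(Real.log Z / Real.log x - σ) / l⌋₊ : ℝ) * l ≤ 1 / 2) := by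
  have hx0 : 0 < x := by linarith
  have hL : 0 < Real.log x := Real.log_pos hx
  have hZ0 : 0 < Z := (Real.rpow_pos_of_pos hx0 σ).trans_le hZ
  have h1 : σ * Real.log x ≤ Real.log Z := by
    rw [← Real.log_rpow hx0]
    exact Real.log_le_log (Real.rpow_pos_of_pos hx0 σ) hZ
  have h2 : σ ≤ Real.log Z / Real.log x := by
    rw [le_div_iff₀ hL]
    exact h1
  have h3 : Z = x ^ (Real.log Z / Real.log x) := by
    rw [Real.rpow_def_of_pos hx0, mul_div_cancel₀ _ hL.ne', Real.exp_log hZ0]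
  have h4 : 0 ≤ (Real.log Z / Real.log x - σ) / l := div_nonneg (by linarith) hl.le
  have h5 := Nat.floor_le h4
  have h6 := Nat.lt_floor_add_one ((Real.log Z / Real.log x - σ) / l)
  rw [le_div_iff₀ hl] at h5
  rw [div_lt_iff₀ hl] at h6
  have h7 : (0 : ℝ) ≤ (⌊(Real.log Z / Real.log x - σ) / l⌋₊ : ℝ) * l := by positivity
  refine ⟨Real.rpow_le_rpow_of_exponent_le hx.le (by linarith), ?_, ?_, ?_⟩
  · conv_rhs => rw [h3]
    exact Real.rpow_le_rpow_of_exponent_le hx.le (by linarith)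
  · rw [← Real.rpow_add hx0]
    conv_lhs => rw [h3]
    exact Real.rpow_lt_rpow_of_exponent_lt hx (by linarith)
  · intro h8
    have h9 : Real.log Z ≤ 1 / 2 * Real.log x := by
      rw [← Real.log_rpow hx0]
      exact Real.log_le_log hZ0 h8
    have h10 : Real.log Z / Real.log x ≤ 1 / 2 := by
      rw [div_le_iff₀ hL]
      exact h9
    linarith

theorem tFaf (h1 : FpsStmt) (h2 : WigStmt) (h3 : GrfStmt) (h4 : MI.FbvStmt) (h5 : MK.FspStmt) : FafStmt := by
  intro δ τ κ κ' σ ω hδ hτ hκ' hκκ hδκ hσ hω hτω hcore b U hb hU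
  have hκ : 0 < κ := hκ'.trans hκκ
  have hl0 : 0 < κ - κ' := by linarith
  have hα : 1 / 2 + δ ≤ (3 : ℝ) / 5 := by linarith
  have hσ0 : 0 ≤ σ := by linarith
  obtain ⟨η, C1, x1, A0, hη, hη1, hC1, hx1, H1⟩ := h1 (1 / 2 + δ) σ κ σ ω hα hσ0 hσ hcore
  obtain ⟨xW, hxW, H2⟩ := h2
  obtain ⟨C2, hC2, H4⟩ := h4 U hU
  set A' : ℝ := (b + 60 * (A0 + 1) + 1) / η with hA'
  have hA'0 : 0 < A' := by positivity
  have hA'η : A' * η = b + 60 * (A0 + 1) + 1 := by
    rw [hA']
    field_simp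
  refine ⟨A', C1 + C2, max (max x1 xW) (max 16 (Real.exp (max (Real.exp (max A' 1)) ((16 * U) ^ 2)))), hA'0,
    by positivity, ?_, ?_⟩
  · exact hx1.trans ((le_max_left _ _).trans (le_max_left _ _))
  intro x s m i y M hx hcard hy hM hnst
  have hxx1 : x1 ≤ x := ((le_max_left _ _).trans (le_max_left _ _)).trans hx
  have hxxW : xW ≤ x := ((le_max_right _ _).trans (le_max_left _ _)).trans hx
  have hx16 : 16 ≤ x := ((le_max_left _ _).trans (le_max_right _ _)).trans hx
  have hxe : Real.exp (max (Real.exp (max A' 1)) ((16 * U) ^ 2)) ≤ x :=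
    ((le_max_right _ _).trans (le_max_right _ _)).trans hx
  have hx0 : 0 < x := by linarith
  have hx1' : 1 < x := by linarith
  have hL : max (Real.exp (max A' 1)) ((16 * U) ^ 2) ≤ Real.log x := (Real.le_log_iff_exp_le hx0).2 hxe
  have hL1 : Real.exp (max A' 1) ≤ Real.log x := (le_max_left _ _).trans hL
  have hL2 : (16 * U) ^ 2 ≤ Real.log x := (le_max_right _ _).trans hL
  have hL0 : 0 < Real.log x := (Real.exp_pos _).trans_le hL1
  have hl : max A' 1 ≤ Real.log (Real.log x) := (Real.le_log_iff_exp_le hL0).2 hL1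
  have hlA : A' ≤ Real.log (Real.log x) := (le_max_left _ _).trans hl
  have hl1 : 1 ≤ Real.log (Real.log x) := (le_max_right _ _).trans hl
  have hLge : 1 ≤ Real.log x := by
    have : 1 ≤ Real.exp (max A' 1) := Real.one_le_exp (by positivity)
    linarith
  -- z and T
  have hz1 : 1 ≤ En A' x := by
    unfold En
    exact Real.one_le_exp (by positivity)
  have hzx : En A' x ≤ x := by
    unfold En
    calc Real.exp (A' * Real.log x / Real.log (Real.log x)) ≤ Real.exp (Real.log x) := by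
          apply Real.exp_le_exp.2
          rw [div_le_iff₀ (by linarith)]
          nlinarith
      _ = x := Real.exp_log hx0
  have hT := H2 x hxxW
  have hTx := Tau_x hx1'.le hT
  set z : ℝ := En A' x with hz
  set t : ℕ → ℕ := fun d => m d * Sp z (d / m d) with ht
  -- facts on d and t d
  have hd : ∀ d ∈ M, Squarefree d ∧ t d ∣ d ∧ 1 ≤ d ∧ (d : ℝ) ≤ x ∧ (t d : ℝ) ≤ x ^ σ ∧ 1 ≤ m d ∧
      m d * (d / m d) = d := by
    intro d hdM
    obtain ⟨⟨m1, m2, m3, m4, m5⟩, -, m6⟩ := hM d hdM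
    obtain ⟨e1, e2, e3, e4⟩ := Faf_t (z := z) m1 m2
    refine ⟨m1, e1, Nat.one_le_iff_ne_zero.2 m1.ne_zero, m3.trans ?_, ?_, ?_, e3⟩
    · calc x ^ (1 / 2 + δ) ≤ x ^ (1 : ℝ) := Real.rpow_le_rpow_of_exponent_le hx1'.le (by linarith)
        _ = x := Real.rpow_one x
    · have e5 : (t d : ℝ) = (m d : ℝ) * (Sp z (d / m d) : ℝ) := by
        rw [ht]
        push_cast
        rfl
      have e6 : x ^ σ = x ^ τ * x ^ (σ - τ) := by
        rw [← Real.rpow_add hx0]
        congr 1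
        ring
      rw [e5, e6]
      exact mul_le_mul m4 m6 (by positivity) (by positivity)
    · exact Nat.pos_of_dvd_of_pos m2 (Nat.pos_of_ne_zero m1.ne_zero)
  -- the divisors
  have hch : ∀ (Z : ℝ) (d : ℕ), ∃ (v r : ℕ), (d ∈ M → x ^ σ ≤ Z → Z < d →
      Lin (m d) (x ^ (σ + (⌊(Real.log Z / Real.log x - σ) / (κ - κ')⌋₊ : ℝ) * (κ - κ'))) r (d / m d) ∧
      t d * v = m d * r ∧ v ∣ d / t d ∧ (t d : ℝ) * v ≤ Z ∧
      Z < (t d : ℝ) * v * x ^ κ ∧ MQ.Dn (x ^ κ) (x ^ ω) (t d * v) ∧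
      MQ.Dn (x ^ κ) (x ^ ω) (d / (t d * v))) := by
    intro Z d
    by_cases hc : d ∈ M ∧ x ^ σ ≤ Z ∧ Z < d
    · obtain ⟨hc1, hc2, hc3⟩ := hc
      obtain ⟨⟨m1, m2, m3, m4, m5⟩, -, m6⟩ := hM d hc1
      obtain ⟨n1, n2, n3, n4, n5, n6, n7⟩ := hd d hc1
      have f1 : Squarefree (m d * (d / m d)) := by
        rw [n7]
        exact n1
      obtain ⟨g1, g2, g3, -⟩ := Faf_fl hx1' hl0 hc2
      have f2 : (m d : ℝ) * Sp z (d / m d) ≤
          x ^ (σ + (⌊(Real.log Z / Real.log x - σ) / (κ - κ')⌋₊ : ℝ) * (κ - κ')) := by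
        have e5 : (t d : ℝ) = (m d : ℝ) * (Sp z (d / m d) : ℝ) := by
          rw [ht]
          push_cast
          rfl
        rw [← e5]
        exact n5.trans g1
      have f3 : Z < (m d : ℝ) * ((d / m d : ℕ) : ℝ) := by
        have e5 : (m d : ℝ) * ((d / m d : ℕ) : ℝ) = d := by
          rw [← Nat.cast_mul, n7]
        rw [e5]
        exact hc3
      have f4 : (m d : ℝ) * x ^ ω ≤
          x ^ (σ + (⌊(Real.log Z / Real.log x - σ) / (κ - κ')⌋₊ : ℝ) * (κ - κ')) := by
        calc (m d : ℝ) * x ^ ω ≤ x ^ τ * x ^ ω := mul_le_mul_of_nonneg_right m4 (by positivity)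
          _ = x ^ (τ + ω) := (Real.rpow_add hx0 τ ω).symm
          _ ≤ x ^ σ := Real.rpow_le_rpow_of_exponent_le hx1'.le hτω
          _ ≤ _ := g1
      obtain ⟨v, r, hv⟩ := h3 x κ κ' ω z _ Z (m d) (d / m d) hx1' hκ' hκκ.le f1 m5 f2 g2 f3 g3 f4
      rw [n7] at hv
      exact ⟨v, r, fun _ _ _ => hv⟩
    · exact ⟨1, 1, fun e1 e2 e3 => absurd ⟨e1, e2, e3⟩ hc⟩
  choose v r hv using hch
  have hJ0 : (0 : ℝ) ≤ (M.image i).card * Bd C1 A0 η x (En 60 x) z :=
    mul_nonneg (by positivity) (Bd_nonneg hC1 hT.1 hx0.le hz1)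
  have F1 := h5 M (fun d => (m d : ℤ)) t (En 60 x) ((M.image i).card * Bd C1 A0 η x (En 60 x) z)
    (fun d => |df (y d) d (t d) (s d)|) (Faf_En_pos 60 x).le hJ0
    (fun n => by
      by_cases hn : (M.filter (fun d => t d = n)).Nonempty
      · obtain ⟨d0, hd0⟩ := hn
        rw [mem_filter] at hd0
        obtain ⟨hd0M, hd0t⟩ := hd0
        obtain ⟨n1, n2, n3, n4, n5, n6, n7⟩ := hd d0 hd0M
        rw [hd0t] at n2
        have g1 : 1 ≤ n := Nat.pos_of_dvd_of_pos n2 n3
        have g2 : n ≤ d0 := Nat.le_of_dvd n3 n2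
        have g3 : (n : ℝ) ≤ x := by
          have : (n : ℝ) ≤ d0 := by exact_mod_cast g2
          exact this.trans n4
        have g4 : ((M.filter (fun d => t d = n)).image (fun d => (m d : ℤ))).card ≤ n.divisors.card := by
          have g5 : (M.filter (fun d => t d = n)).image (fun d => (m d : ℤ)) ⊆
              n.divisors.image (fun k : ℕ => (k : ℤ)) := by
            intro u hu
            rw [mem_image] at hu
            obtain ⟨d, hd1, hd2⟩ := hu
            rw [mem_filter] at hd1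
            rw [mem_image]
            refine ⟨m d, ?_, hd2⟩
            rw [Nat.mem_divisors]
            refine ⟨?_, by omega⟩
            rw [← hd1.2]
            exact Dvd.intro _ rfl
          exact (card_le_card g5).trans card_image_le
        have g6 : (((M.filter (fun d => t d = n)).image (fun d => (m d : ℤ))).card : ℝ) ≤ (n.divisors.card : ℝ) := by
          exact_mod_cast g4
        exact g6.trans (hTx.2.2 n g1 g3)
      · rw [not_nonempty_iff_eq_empty] at hn
        rw [hn]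
        simp only [image_empty, card_empty, Nat.cast_zero]
        exact (Faf_En_pos 60 x).le)
    (fun G a hG ha => by
      have hcG : ((G.image i).card : ℝ) ≤ (M.image i).card := by
        exact_mod_cast card_le_card (image_subset_image hG)
      have K1 := H1 x (En 60 x) z s t i v y G hxx1 hT hz1 hzx hy
        (fun d hdG => by
          have hdM := hG hdG
          obtain ⟨⟨m1, m2, m3, m4, m5⟩, mg, m6⟩ := hM d hdM
          obtain ⟨n1, n2, n3, n4, n5, n6, n7⟩ := hd d hdM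
          obtain ⟨e1, e2, e3, e4⟩ := Faf_t (z := z) m1 m2
          refine ⟨⟨n1, n2, m3, n5, fun p hp hpd => ?_⟩, mg⟩
          refine Faf_big e2 hp ?_
          rw [← e4]
          exact hpd)
        (fun Z hZ1 hZ2 => by
          refine ⟨fun d hdG hZd => ?_, fun d hdG d' hdG' hZd hZd' hi htt hvv => ?_⟩
          · obtain ⟨-, -, e2, e3, e4, e5, e6⟩ := hv Z d (hG hdG) hZ1 hZd
            exact ⟨e2, e3, e4, e5, e6⟩
          · have hdM := hG hdG
            have hdM' := hG hdG'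
            obtain ⟨q1, q2, -, -, -, -, -⟩ := hv Z d hdM hZ1 hZd
            obtain ⟨q1', q2', -, -, -, -, -⟩ := hv Z d' hdM' hZ1 hZd'
            obtain ⟨-, -, -, -, -, n6, -⟩ := hd d hdM
            have k1 : m d = m d' := by
              have k2 := ha d hdG
              have k3 := ha d' hdG'
              rw [htt, ← k3] at k2
              exact_mod_cast k2
            have k4 : r Z d = r Z d' := by
              have k5 : m d * r Z d = m d * r Z d' := by
                rw [← q2, htt, hvv, q2', k1]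
              exact Nat.eq_of_mul_eq_mul_left (by omega) k5
            have k10 : σ + (⌊(Real.log Z / Real.log x - σ) / (κ - κ')⌋₊ : ℝ) * (κ - κ') ≤ 1 / 2 :=
              (Faf_fl hx1' hl0 hZ1).2.2.2 hZ2
            have k11 := hnst d hdM d' hdM' hi k1 _ k10 (r Z d) q1 (by rw [k4]; exact q1')
            rw [q2]
            exact k11)
      refine K1.trans ?_
      exact mul_le_mul_of_nonneg_right hcG (Bd_nonneg hC1 hT.1 hx0.le hz1))
  have F2 := H4 x s t y M hx16 hy (fun d hdM => by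
    obtain ⟨n1, n2, n3, n4, n5, n6, n7⟩ := hd d hdM
    exact ⟨n3, n2, n4, n5.trans (Real.rpow_le_rpow_of_exponent_le hx1'.le hσ), (hM d hdM).2.1⟩)
  -- the bound
  have hxl0 : 0 ≤ x / (Real.log x) ^ U := by positivity
  have F3 : En 60 x * (((M.image i).card : ℝ) * Bd C1 A0 η x (En 60 x) z) ≤ C1 * (x / (Real.log x) ^ U) := by
    have k1 : En 60 x * (((M.image i).card : ℝ) * Bd C1 A0 η x (En 60 x) z) ≤
        En 60 x * (En b x * Bd C1 A0 η x (En 60 x) z) :=
      mul_le_mul_of_nonneg_left (mul_le_mul_of_nonneg_right hcard (Bd_nonneg hC1 hT.1 hx0.le hz1))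
        (Faf_En_pos 60 x).le
    have k2 : En 60 x * (En b x * Bd C1 A0 η x (En 60 x) z) = C1 * (x * En (-1) x) := by
      unfold Bd
      rw [hz, Faf_En_pow, Faf_En_rpow]
      have k3 : x / En (A' * η) x = x * En (-(A' * η)) x := by
        rw [← Faf_En_inv]
        ring
      rw [k3]
      have k4 : En 60 x * (En b x * (C1 * En (60 * A0) x * (x * En (-(A' * η)) x))) =
          C1 * (x * (En 60 x * En b x * En (60 * A0) x * En (-(A' * η)) x)) := by ring
      rw [k4, Faf_En_mul, Faf_En_mul, Faf_En_mul, hA'η]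
      congr 3
      ring
    have k5 : En (-1) x ≤ 1 / (Real.log x) ^ U := by
      rw [one_div, ← Real.rpow_neg hL0.le, Real.rpow_def_of_pos hL0]
      unfold En
      apply Real.exp_le_exp.2
      have k6 := Faf_log hU hLge hL2
      rw [div_le_iff₀ (by linarith)]
      nlinarith
    rw [k2] at k1
    refine k1.trans (mul_le_mul_of_nonneg_left ?_ hC1)
    calc x * En (-1) x ≤ x * (1 / (Real.log x) ^ U) := mul_le_mul_of_nonneg_left k5 hx0.le
      _ = x / (Real.log x) ^ U := by ring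
  have F4 : ∑ d ∈ M, |resErr (y d) d (s d)| ≤ ∑ d ∈ M, (|df (y d) d (t d) (s d)| +
      |resErr (y d) (t d) (s d)| / ((d / t d).totient : ℝ)) := by
    refine sum_le_sum fun d hdM => ?_
    obtain ⟨n1, n2, -⟩ := hd d hdM
    rw [Faf_split (y d) d (t d) (s d) n1 n2]
    refine (abs_add_le _ _).trans ?_
    have e1 : |resErr (y d) (t d) (s d) / ((d / t d).totient : ℝ)| =
        |resErr (y d) (t d) (s d)| / ((d / t d).totient : ℝ) := by
      rw [abs_div, abs_of_nonneg (by positivity : (0 : ℝ) ≤ ((d / t d).totient : ℝ))]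
    rw [e1]
  rw [sum_add_distrib] at F4
  have F5 : ∑ d ∈ M, |df (y d) d (t d) (s d)| ≤ C1 * (x / (Real.log x) ^ U) := F1.trans F3
  have F7 : (C1 + C2) * (x / (Real.log x) ^ U) = C1 * (x / (Real.log x) ^ U) + C2 * (x / (Real.log x) ^ U) := by ring
  rw [F7]
  linarith

end Pool.Agent.Lib.MX
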