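import Pool.Agent.Lib.MX.StmF

/-!
MP_00e23e_nt, directory Lib/MX (THEOREM MI, version 12), module Flf (helper24): part A with a bounded number of scales.
-/

namespace Pool.Agent.Lib.MX

open Finset Pool.Agent.Lib.EH3 Pool.Agent.Lib.TB Pool.Agent.Results.MP_00e23e_nt Pool.Agent.Lib.MI

private lemma Flf_count (y : ℝ) (hy : 0 ≤ y) (d : ℕ) (s : ℤ) : (resCount y d s : ℝ) ≤ y := by
  unfold resCount
  have h1 : ((Icc 1 ⌊y⌋₊).filter (fun p : ℕ => p.Prime ∧ (d : ℤ) ∣ (p : ℤ) - s)).card ≤ ⌊y⌋₊ := by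
    refine (card_filter_le _ _).trans ?_
    simp
  have h2 : (((Icc 1 ⌊y⌋₊).filter (fun p : ℕ => p.Prime ∧ (d : ℤ) ∣ (p : ℤ) - s)).card : ℝ) ≤ (⌊y⌋₊ : ℝ) := by
    exact_mod_cast h1
  exact h2.trans (Nat.floor_le hy)

private lemma Flf_one {x y : ℝ} {d : ℕ} {s : ℤ} (hd : 1 ≤ d) (hy : 2 ≤ y) (hyx : y ≤ x) :
    |resErr y d s| ≤ 3 * x := by
  have a1 := Flf_count y (by linarith) d s
  have a2 := Pool.Agent.Lib.EH.li_le hy
  have a3 := Pool.Agent.Lib.EH.li_nonneg hy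
  have a7 : (1 : ℝ) ≤ (d.totient : ℝ) := by
    have : 1 ≤ d.totient := Nat.totient_pos.2 hd
    exact_mod_cast this
  have a4 : li y / (d.totient : ℝ) ≤ 2 * x := (div_le_self a3 a7).trans (by linarith)
  have a5 : 0 ≤ li y / (d.totient : ℝ) := by positivity
  have a6 : (0 : ℝ) ≤ (resCount y d s : ℝ) := by positivity
  unfold resErr
  rw [abs_le]
  constructor <;> linarith

/-- the trivial bound -/
private lemma Flf_triv {x x3 U : ℝ} {s : ℕ → ℤ} {y : ℕ → ℝ} {M : Finset ℕ} (hx : 3 ≤ x) (hxx : x < x3) (hU : 0 < U)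
    (hy : ∀ d, 2 ≤ y d ∧ y d ≤ x) (hM : ∀ d ∈ M, 1 ≤ d ∧ (d : ℝ) ≤ x) :
    ∑ d ∈ M, |resErr (y d) d (s d)| ≤ (3 * x3 ^ 2 * (Real.log x3) ^ U) * (x / (Real.log x) ^ U) := by
  have hx0 : 0 < x := by linarith
  have hl : 0 < Real.log x := Real.log_pos (by linarith)
  have hlU : 0 < (Real.log x) ^ U := Real.rpow_pos_of_pos hl U
  have hMc : (M.card : ℝ) ≤ x3 := by
    have hsub : M ⊆ Icc 1 ⌊x3⌋₊ := by
      intro d hdM
      obtain ⟨h3, h4⟩ := hM d hdM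
      rw [mem_Icc]
      exact ⟨h3, Nat.le_floor (h4.trans hxx.le)⟩
    have h5 : M.card ≤ ⌊x3⌋₊ := by
      have := card_le_card hsub
      simpa using this
    have h6 : (M.card : ℝ) ≤ (⌊x3⌋₊ : ℝ) := by exact_mod_cast h5
    exact h6.trans (Nat.floor_le (by linarith))
  have G1 : ∑ d ∈ M, |resErr (y d) d (s d)| ≤ 3 * x3 ^ 2 := by
    calc ∑ d ∈ M, |resErr (y d) d (s d)| ≤ ∑ _d ∈ M, 3 * x :=
          sum_le_sum (fun d hd => Flf_one (hM d hd).1 (hy d).1 (hy d).2)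
      _ = M.card * (3 * x) := by rw [sum_const, nsmul_eq_mul]
      _ ≤ x3 * (3 * x3) := mul_le_mul hMc (by linarith) (by linarith) (by linarith)
      _ = 3 * x3 ^ 2 := by ring
  have G4 : (Real.log x) ^ U ≤ (Real.log x3) ^ U :=
    Real.rpow_le_rpow hl.le (Real.log_le_log hx0 hxx.le) hU.le
  have G6 : 1 / (Real.log x) ^ U ≤ x / (Real.log x) ^ U :=
    div_le_div_of_nonneg_right (by linarith) hlU.le
  have G7 : 0 ≤ 3 * x3 ^ 2 := by positivity
  have G8 : 0 ≤ (Real.log x3) ^ U := hlU.le.trans G4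
  have G9 : 3 * x3 ^ 2 = 3 * x3 ^ 2 * (Real.log x) ^ U * (1 / (Real.log x) ^ U) := by
    field_simp
  calc ∑ d ∈ M, |resErr (y d) d (s d)| ≤ 3 * x3 ^ 2 := G1
    _ = 3 * x3 ^ 2 * (Real.log x) ^ U * (1 / (Real.log x) ^ U) := G9
    _ ≤ (3 * x3 ^ 2 * (Real.log x3) ^ U) * (x / (Real.log x) ^ U) :=
      mul_le_mul (mul_le_mul_of_nonneg_left G4 G7) G6 (by positivity) (mul_nonneg G7 G8)

private lemma Flf_Sp {w : ℝ} {d m : ℕ} (hd : d ≠ 0) (hm : m ∣ d) : Sp w (d / m) ≤ Sp w d := by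
  unfold Sp
  refine Finset.prod_le_prod_of_subset_of_one_le' ?_ ?_
  · refine filter_subset_filter _ ?_
    exact Nat.primeFactors_mono (Nat.div_dvd_of_dvd hm) hd
  · intro p hp _
    rw [mem_filter] at hp
    exact (Nat.prime_of_mem_primeFactors hp.1).one_lt.le

theorem tFlf (h1 : BfiStmt) (h2 : AfiStmt) (h3 : FafStmt) (h4 : ExeStmt) : FlfStmt := by
  intro δ τ κ κ' σ hδ hτ hκ' hκκ hδκ hττ hσ3 b U hb hU
  have hκ : 0 < κ := hκ'.trans hκκ
  obtain ⟨ε, hε, hε1, hbl⟩ := h1 δ σ κ σ (σ - τ) hδ (by linarith) hσ3.le hκ hδκ hσ3 (by linarith)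
  have hcore := h2 (1 / 2 + δ) σ κ σ (σ - τ) ε hε hε1 (by linarith) (by linarith) hσ3.le hκ
    (by linarith) hbl
  have hω : 0 < σ - τ := by linarith
  obtain ⟨A', C1, x1, hA', hC1, hx1, H1⟩ := h3 δ τ κ κ' σ (σ - τ) hδ hτ hκ' hκκ hδκ hσ3.le hω (by linarith) hcore
    b U hb hU
  obtain ⟨C2, x2, hC2, hx2, H2⟩ := h4 (σ - τ) A' U hω hA' hU
  set x3 : ℝ := max x1 x2 with hx3
  have hx3a : x1 ≤ x3 := le_max_left _ _
  have hx3b : x2 ≤ x3 := le_max_right _ _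
  have hl3 : 0 < Real.log x3 := Real.log_pos (by linarith)
  have hp : 0 ≤ 3 * x3 ^ 2 * (Real.log x3) ^ U := by positivity
  refine ⟨C1 + C2 + 3 * x3 ^ 2 * (Real.log x3) ^ U, fun x s m i y M hx hcard hy hM hns => ?_⟩
  have hx0 : 0 < x := by linarith
  have hl : 0 < Real.log x := Real.log_pos (by linarith)
  have hxl0 : 0 ≤ x / (Real.log x) ^ U := by positivity
  have hdx : ∀ d ∈ M, 1 ≤ d ∧ (d : ℝ) ≤ x := by
    intro d hd
    obtain ⟨⟨g1, -, g2, -, -⟩, -⟩ := hM d hd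
    refine ⟨Nat.one_le_iff_ne_zero.2 g1.ne_zero, g2.trans ?_⟩
    calc x ^ (1 / 2 + δ) ≤ x ^ (1 : ℝ) := Real.rpow_le_rpow_of_exponent_le (by linarith) (by linarith)
      _ = x := Real.rpow_one x
  by_cases hxx : x3 ≤ x
  · classical
    rw [← sum_filter_add_sum_filter_not M (fun d => (Sp (En A' x) (d / m d) : ℝ) ≤ x ^ (σ - τ))]
    have F1 := H1 x s m i y (M.filter (fun d => (Sp (En A' x) (d / m d) : ℝ) ≤ x ^ (σ - τ))) (hx3a.trans hxx) ?_
      hy ?_ ?_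
    · have F2 := H2 x s y (M.filter (fun d => ¬ (Sp (En A' x) (d / m d) : ℝ) ≤ x ^ (σ - τ))) (hx3b.trans hxx) hy
        (fun d hd => by
          rw [mem_filter] at hd
          obtain ⟨⟨g1, g2, -, -, -⟩, -⟩ := hM d hd.1
          refine ⟨g1, (hdx d hd.1).2, (not_le.1 hd.2).trans_le ?_⟩
          exact_mod_cast Flf_Sp g1.ne_zero g2)
      have F3 : 0 ≤ (3 * x3 ^ 2 * (Real.log x3) ^ U) * (x / (Real.log x) ^ U) := mul_nonneg hp hxl0
      have F4 : (C1 + C2 + 3 * x3 ^ 2 * (Real.log x3) ^ U) * (x / (Real.log x) ^ U) =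
          C1 * (x / (Real.log x) ^ U) + C2 * (x / (Real.log x) ^ U) +
          (3 * x3 ^ 2 * (Real.log x3) ^ U) * (x / (Real.log x) ^ U) := by ring
      rw [F4]
      linarith
    · refine le_trans ?_ hcard
      exact_mod_cast card_le_card (image_subset_image (filter_subset _ _))
    · intro d hd
      rw [mem_filter] at hd
      obtain ⟨g1, g2⟩ := hM d hd.1
      exact ⟨g1, g2, hd.2⟩
    · intro d hd d' hd' hi
      exact hns d (mem_of_mem_filter _ hd) d' (mem_of_mem_filter _ hd') hi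
  · push Not at hxx
    have F1 := Flf_triv (s := s) hx hxx hU hy hdx
    have F2 : 0 ≤ (C1 + C2) * (x / (Real.log x) ^ U) := mul_nonneg (add_nonneg hC1 hC2) hxl0
    rw [add_mul]
    linarith

end Pool.Agent.Lib.MX
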