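import Pool.Agent.Lib.MX.Stm
import Pool.Agent.Lib.MI.Bgr

/-!
MP_00e23e_nt, directory Lib/MX, module Grd: initial products of smooth numbers.
-/

namespace Pool.Agent.Lib.MX

open Finset Pool.Agent.Lib.EH3 Pool.Agent.Lib.TB Pool.Agent.Results.MP_00e23e_nt Pool.Agent.Lib.MI

private lemma Grd_dvd_iff {p d : ℕ} (w : ℝ) (hd : d ≠ 0) (hp : p.Prime) :
    p ∣ Sp w d ↔ p ∣ d ∧ (p : ℝ) ≤ w := by
  unfold Sp
  rw [hp.prime.dvd_finsetProd_iff]
  constructor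
  · rintro ⟨q, hq, hpq⟩
    obtain ⟨hq1, hq2⟩ := mem_filter.1 hq
    have hqp : q.Prime := Nat.prime_of_mem_primeFactors hq1
    have h := (Nat.prime_dvd_prime_iff_eq hp hqp).1 hpq
    subst h
    exact ⟨Nat.dvd_of_mem_primeFactors hq1, hq2⟩
  · rintro ⟨h1, h2⟩
    exact ⟨p, mem_filter.2 ⟨Nat.mem_primeFactors.2 ⟨hp, h1, hd⟩, h2⟩, dvd_rfl⟩

private lemma Grd_sub {w w' : ℝ} (d : ℕ) (h : w ≤ w') :
    d.primeFactors.filter (fun p : ℕ => (p : ℝ) ≤ w) ⊆ d.primeFactors.filter (fun p : ℕ => (p : ℝ) ≤ w') := by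
  intro p hp
  obtain ⟨h1, h2⟩ := mem_filter.1 hp
  exact mem_filter.2 ⟨h1, h2.trans h⟩

private lemma Grd_mono {w w' : ℝ} (d : ℕ) (h : w ≤ w') : Sp w d ∣ Sp w' d :=
  Finset.prod_dvd_prod_of_subset _ _ _ (Grd_sub d h)

private lemma Grd_pos (w : ℝ) (d : ℕ) : 0 < Sp w d :=
  Finset.prod_pos fun _ hp => (Nat.prime_of_mem_primeFactors (mem_filter.1 hp).1).pos

private lemma Grd_dvd (w : ℝ) {d : ℕ} (hd : Squarefree d) : Sp w d ∣ d := by
  have h : Sp w d ∣ ∏ p ∈ d.primeFactors, p :=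
    Finset.prod_dvd_prod_of_subset _ _ _ (Finset.filter_subset _ _)
  rwa [Nat.prod_primeFactors_of_squarefree hd] at h

private lemma Grd_full {d : ℕ} (hd : Squarefree d) : Sp (d : ℝ) d = d := by
  have h1 : d.primeFactors.filter (fun p : ℕ => (p : ℝ) ≤ d) = d.primeFactors := by
    refine Finset.filter_true_of_mem fun p hp => ?_
    exact_mod_cast Nat.le_of_dvd (Nat.pos_of_ne_zero hd.ne_zero) (Nat.dvd_of_mem_primeFactors hp)
  unfold Sp
  rw [h1, Nat.prod_primeFactors_of_squarefree hd]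

private lemma Grd_congr {w w' : ℝ} {d : ℕ} (h : ∀ p : ℕ, p.Prime → p ∣ d → ((p : ℝ) ≤ w ↔ (p : ℝ) ≤ w')) :
    Sp w d = Sp w' d := by
  unfold Sp
  rw [Finset.filter_congr fun p hp => h p (Nat.prime_of_mem_primeFactors hp) (Nat.dvd_of_mem_primeFactors hp)]

/-- divisors of a smooth number are dense -/
private lemma Grd_dn {x κ ω : ℝ} {n d : ℕ} (hx : 1 < x) (hκ : 0 < κ) (hd : Squarefree d)
    (hs : ∀ p : ℕ, p.Prime → p ∣ d → (p : ℝ) ≤ x ^ κ) (hn : n ∣ d) : MQ.Dn (x ^ κ) (x ^ ω) n := by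
  intro W hW1 _ hWn
  have hn0 : 0 < n := Nat.pos_of_dvd_of_pos hn (Nat.pos_of_ne_zero hd.ne_zero)
  rcases lt_or_eq_of_le hWn with h | h
  · obtain ⟨r, _, h2, h3, h4⟩ := tBgr n 1 W (x ^ κ) hn0 (one_dvd n) (by exact_mod_cast hW1) h
      (fun p hp hpn => hs p hp ((hpn.trans (by rw [Nat.div_one])).trans hn))
    exact ⟨r, h2, h3, h4⟩
  · refine ⟨n, dvd_rfl, h.ge, ?_⟩
    have h1 : 1 < x ^ κ := Real.one_lt_rpow hx hκ
    have h2 : (0 : ℝ) < n := by exact_mod_cast hn0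
    rw [h]
    nlinarith

private lemma Grd_one (x κ ω w Z : ℝ) (d : ℕ) (hx : 1 < x) (hκ : 0 < κ) (hd : Squarefree d)
    (hs : ∀ p : ℕ, p.Prime → p ∣ d → (p : ℝ) ≤ x ^ κ) (hwZ : (Sp w d : ℝ) ≤ Z) (hZd : Z < d) :
    ∃ (v : ℕ) (w' : ℝ), Sp w d * v = Sp w' d ∧ v ∣ d / Sp w d ∧ (Sp w d : ℝ) * v ≤ Z ∧
      Z < (Sp w d : ℝ) * v * x ^ κ ∧ MQ.Dn (x ^ κ) (x ^ ω) (Sp w d * v) ∧
      MQ.Dn (x ^ κ) (x ^ ω) (d / (Sp w d * v)) := by
  classical
  have hex : ∃ k : ℕ, Z < Sp (k : ℝ) d := ⟨d, by rw [Grd_full hd]; exact hZd⟩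
  obtain ⟨k, hk, hmin⟩ : ∃ k : ℕ, Z < Sp (k : ℝ) d ∧ ∀ j : ℕ, j < k → (Sp (j : ℝ) d : ℝ) ≤ Z :=
    ⟨Nat.find hex, Nat.find_spec hex, fun j hj => not_lt.1 (Nat.find_min hex hj)⟩
  have hwk : w < k := by
    by_contra hcon
    rw [not_lt] at hcon
    have h1 : (Sp (k : ℝ) d : ℝ) ≤ Sp w d := by
      exact_mod_cast Nat.le_of_dvd (Grd_pos w d) (Grd_mono d hcon)
    linarith
  have hk1 : 1 ≤ k := by
    by_contra hcon
    have hk0 : k = 0 := by omega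
    have h1 : Sp (k : ℝ) d = 1 := by
      unfold Sp
      rw [Finset.filter_false_of_mem, Finset.prod_empty]
      intro p hp
      rw [hk0, not_le]
      exact_mod_cast (Nat.prime_of_mem_primeFactors hp).pos
    have h2 : (1 : ℝ) ≤ Sp w d := by exact_mod_cast Grd_pos w d
    rw [h1] at hk
    push_cast at hk
    linarith
  obtain ⟨j, rfl⟩ : ∃ j : ℕ, k = j + 1 := ⟨k - 1, by omega⟩
  have hj : (Sp (j : ℝ) d : ℝ) ≤ Z := hmin j (by omega)
  set w' : ℝ := max w j with hw'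
  have hw'k : w' < ((j + 1 : ℕ) : ℝ) := max_lt hwk (by push_cast; linarith)
  have hSw' : Sp w' d = Sp (j : ℝ) d := by
    refine Grd_congr fun p _ _ => ⟨fun h => ?_, fun h => h.trans (le_max_right _ _)⟩
    have h1 : (p : ℝ) < ((j + 1 : ℕ) : ℝ) := h.trans_lt hw'k
    have h2 : p < j + 1 := by exact_mod_cast h1
    exact_mod_cast (show p ≤ j by omega)
  have hww' : Sp w d ∣ Sp w' d := Grd_mono d (le_max_left _ _)
  have hw'Z : (Sp w' d : ℝ) ≤ Z := by rw [hSw']; exact hj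
  -- k = j + 1 is a prime dividing d
  have hkp : (j + 1).Prime ∧ (j + 1) ∣ d := by
    by_contra hcon
    have h1 : Sp (((j + 1 : ℕ) : ℝ)) d = Sp (j : ℝ) d := by
      refine Grd_congr fun p hp hpd => ⟨fun h => ?_, fun h => h.trans (by push_cast; linarith)⟩
      have h2 : p ≤ j + 1 := by exact_mod_cast h
      have h3 : p ≠ j + 1 := fun h => hcon (by rw [← h]; exact ⟨hp, hpd⟩)
      exact_mod_cast (show p ≤ j by omega)
    rw [h1] at hk
    linarith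
  have hSk : Sp (((j + 1 : ℕ) : ℝ)) d = (j + 1) * Sp (j : ℝ) d := by
    unfold Sp
    have h1 : d.primeFactors.filter (fun p : ℕ => (p : ℝ) ≤ ((j + 1 : ℕ) : ℝ)) =
        insert (j + 1) (d.primeFactors.filter (fun p : ℕ => (p : ℝ) ≤ (j : ℝ))) := by
      ext p
      simp only [mem_filter, mem_insert, Nat.cast_le]
      constructor
      · rintro ⟨h1, h2⟩
        rcases Nat.lt_or_ge p (j + 1) with h3 | h3
        · exact Or.inr ⟨h1, by omega⟩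
        · exact Or.inl (by omega)
      · rintro (h | ⟨h1, h2⟩)
        · rw [h]
          exact ⟨Nat.mem_primeFactors.2 ⟨hkp.1, hkp.2, hd.ne_zero⟩, le_rfl⟩
        · exact ⟨h1, by omega⟩
    rw [h1, Finset.prod_insert]
    intro h
    have h2 := (mem_filter.1 h).2
    have h3 : j + 1 ≤ j := by exact_mod_cast h2
    omega
  obtain ⟨v, hv⟩ := hww'
  have hvd : Sp w d * v ∣ d := by rw [← hv]; exact Grd_dvd w' hd
  have hvc : (Sp w d : ℝ) * v = Sp w' d := by rw [hv]; push_cast; rfl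
  refine ⟨v, w', hv.symm, Nat.dvd_div_of_mul_dvd hvd, by rw [hvc]; exact hw'Z, ?_, Grd_dn hx hκ hd hs hvd,
    Grd_dn hx hκ hd hs (Nat.div_dvd_of_dvd hvd)⟩
  rw [hvc, hSw']
  rw [hSk] at hk
  have h1 : ((j + 1 : ℕ) : ℝ) ≤ x ^ κ := hs (j + 1) hkp.1 hkp.2
  have h2 : (0 : ℝ) ≤ Sp (j : ℝ) d := Nat.cast_nonneg _
  have h3 := mul_le_mul_of_nonneg_left h1 h2
  push_cast at hk h3 ⊢
  linarith

theorem tGrd : GrdStmt := by
  classical
  refine ⟨Grd_one, ?_⟩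
  intro s d d' w w' hd hd' hN hS
  rw [Int.natCast_dvd]
  refine Finset.prod_primes_dvd _ (fun p hp => (Nat.prime_of_mem_primeFactors (mem_filter.1 hp).1).prime) ?_
  intro p hp
  obtain ⟨hp1, hp2⟩ := mem_filter.1 hp
  have hpp : p.Prime := Nat.prime_of_mem_primeFactors hp1
  have hpd : p ∣ d := Nat.dvd_of_mem_primeFactors hp1
  have hpd' : p ∣ d' ∧ (p : ℝ) ≤ w' :=
    (Grd_dvd_iff w' hd'.ne_zero hpp).1 (hS ▸ (Grd_dvd_iff w hd.ne_zero hpp).2 ⟨hpd, hp2⟩)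
  have h := hN p hpp hpd hpd'.1 (fun q hq hqp => by
    have hqp' : (q : ℝ) < p := by exact_mod_cast hqp
    constructor
    · intro hqd
      have h1 := (Grd_dvd_iff w hd.ne_zero hq).2 ⟨hqd, by linarith⟩
      rw [hS] at h1
      exact ((Grd_dvd_iff w' hd'.ne_zero hq).1 h1).1
    · intro hqd
      have h1 := (Grd_dvd_iff w' hd'.ne_zero hq).2 ⟨hqd, by linarith [hpd'.2]⟩
      rw [← hS] at h1
      exact ((Grd_dvd_iff w hd.ne_zero hq).1 h1).1)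
  exact Int.natCast_dvd.1 h

end Pool.Agent.Lib.MX
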