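import Pool.Agent.Lib.MX.StmF
import Pool.Agent.Lib.MX.Grd

/-!
MP_00e23e_nt, directory Lib/MX, module Grf: largest initial products of the smooth part.
-/

namespace Pool.Agent.Lib.MX

open Finset Pool.Agent.Lib.EH3 Pool.Agent.Lib.TB Pool.Agent.Results.MP_00e23e_nt Pool.Agent.Lib.MI

private lemma Grf_dvd_iff {p d : ℕ} (w : ℝ) (hd : d ≠ 0) (hp : p.Prime) :
    p ∣ Sp w d ↔ p ∣ d ∧ (p : ℝ) ≤ w := by
  unfold Sp
  rw [hp.prime.dvd_finsetProd_iff]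
  constructor
  · rintro ⟨q, hq, hpq⟩
    obtain ⟨hq1, hq2⟩ := mem_filter.1 hq
    have hqp : q.Prime := Nat.prime_of_mem_primeFactors hq1
    have h := (Nat.prime_dvd_prime_iff_eq hp hqp).1 hpq
    subst h
    exact ⟨Nat.dvd_of_mem_primeFactors hq1, hq2⟩
  · rintro ⟨h1, h2⟩
    exact ⟨p, mem_filter.2 ⟨Nat.mem_primeFactors.2 ⟨hp, h1, hd⟩, h2⟩, dvd_rfl⟩

private lemma Grf_dvd (w : ℝ) {d : ℕ} (hd : Squarefree d) : Sp w d ∣ d := by
  have h : Sp w d ∣ ∏ p ∈ d.primeFactors, p :=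
    Finset.prod_dvd_prod_of_subset _ _ _ (Finset.filter_subset _ _)
  rwa [Nat.prod_primeFactors_of_squarefree hd] at h

private lemma Grf_ini (w : ℝ) {n : ℕ} (hn : Squarefree n) : Ini (Sp w n) n := by
  have hd := Grf_dvd w hn
  refine ⟨hd, fun p q hp hq hpr hqn => ?_⟩
  have h1 : (p : ℝ) ≤ w := ((Grf_dvd_iff w hn.ne_zero hp).1 hpr).2
  have hqn' : q ∣ n := hqn.trans (Nat.div_dvd_of_dvd hd)
  have h2 : ¬ q ∣ Sp w n := by
    intro hqr
    have h3 : q * q ∣ n := by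
      rw [← Nat.mul_div_cancel' hd]
      exact mul_dvd_mul hqr hqn
    exact hq.one_lt.ne' (Nat.isUnit_iff.1 (hn q h3))
  have h3 : w < q := by
    by_contra hcon
    rw [not_lt] at hcon
    exact h2 ((Grf_dvd_iff w hn.ne_zero hq).2 ⟨hqn', hcon⟩)
  exact_mod_cast h1.trans_lt h3

private lemma Grf_dn {x κ ω : ℝ} {n d : ℕ} (hx : 1 < x) (hκ : 0 < κ) (hd : Squarefree d)
    (hs : ∀ p : ℕ, p.Prime → p ∣ d → (p : ℝ) ≤ x ^ κ) (hn : n ∣ d) : MQ.Dn (x ^ κ) (x ^ ω) n := by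
  intro W hW1 _ hWn
  have hn0 : 0 < n := Nat.pos_of_dvd_of_pos hn (Nat.pos_of_ne_zero hd.ne_zero)
  rcases lt_or_eq_of_le hWn with h | h
  · obtain ⟨r, _, h2, h3, h4⟩ := tBgr n 1 W (x ^ κ) hn0 (one_dvd n) (by exact_mod_cast hW1) h
      (fun p hp hpn => hs p hp ((hpn.trans (by rw [Nat.div_one])).trans hn))
    exact ⟨r, h2, h3, h4⟩
  · refine ⟨n, dvd_rfl, h.ge, ?_⟩
    have h1 : 1 < x ^ κ := Real.one_lt_rpow hx hκ
    have h2 : (0 : ℝ) < n := by exact_mod_cast hn0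
    rw [h]
    nlinarith

private lemma Grf_sq {a b : ℕ} (ha : Squarefree a) (h : ∀ p : ℕ, p.Prime → p ∣ a → p ∣ b) : a ∣ b := by
  have h1 : ∏ p ∈ a.primeFactors, p ∣ b := by
    refine Finset.prod_primes_dvd _ (fun p hp => (Nat.prime_of_mem_primeFactors hp).prime) ?_
    intro p hp
    exact h p (Nat.prime_of_mem_primeFactors hp) (Nat.dvd_of_mem_primeFactors hp)
  rwa [Nat.prod_primeFactors_of_squarefree ha] at h1

/-- a prime divisor of n divides r or n / r -/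
private lemma Grf_or {n r p : ℕ} (hr : r ∣ n) (hp : p.Prime) (hpn : p ∣ n) (h : ¬ p ∣ r) : p ∣ n / r := by
  rw [← Nat.mul_div_cancel' hr] at hpn
  rcases (Nat.Prime.dvd_mul hp).1 hpn with h1 | h1
  · exact absurd h1 h
  · exact h1

/-- the initial products form a chain -/
private lemma Grf_chain {n a b : ℕ} (hn : Squarefree n) (ha : Ini a n) (hb : Ini b n) (hab : a ≤ b) : a ∣ b := by
  have hsa : Squarefree a := hn.squarefree_of_dvd ha.1
  have hsb : Squarefree b := hn.squarefree_of_dvd hb.1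
  refine Grf_sq hsa ?_
  intro p hp hpa
  by_contra hpb
  have h1 : p ∣ n / b := Grf_or hb.1 hp (hpa.trans ha.1) hpb
  have h2 : b ∣ a := by
    refine Grf_sq hsb ?_
    intro q hq hqb
    by_contra hqa
    have h3 : q ∣ n / a := Grf_or ha.1 hq (hqb.trans hb.1) hqa
    have h4 := ha.2 p q hp hq hpa h3
    have h5 := hb.2 q p hq hp hqb h1
    omega
  have h6 : b = a := le_antisymm (Nat.le_of_dvd (Nat.pos_of_ne_zero hsa.ne_zero) h2) hab
  exact hpb (h6 ▸ hpa)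

theorem tGrf : GrfStmt := by
  classical
  intro x κ κ' ω w Z Z' m n hx hκ' hκκ hsq hs h1 hZZ h2 h3 h4
  have hx0 : 0 < x := by linarith
  have hκ : 0 < κ := hκ'.trans_le hκκ
  have hm : 0 < m := Nat.pos_of_ne_zero (left_ne_zero_of_mul hsq.ne_zero)
  have hm' : (0 : ℝ) < m := by exact_mod_cast hm
  have hn : Squarefree n := hsq.of_mul_right
  have hs' : ∀ p : ℕ, p.Prime → p ∣ n → (p : ℝ) ≤ x ^ κ := fun p hp hpn =>
    (hs p hp hpn).trans (Real.rpow_le_rpow_of_exponent_le hx.le hκκ)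
  obtain ⟨v', w', e1, _, e3, e4, _, _⟩ := tGrd.1 x κ' ω w (Z / m) n hx hκ' hn hs
    (by rw [le_div_iff₀ hm']; linarith) (by rw [div_lt_iff₀ hm']; linarith)
  have e1' : (Sp w n : ℝ) * v' = Sp w' n := by exact_mod_cast e1
  rw [e1'] at e3 e4
  -- the largest initial product
  obtain ⟨r, hr, hmax⟩ := Finset.exists_max_image
    (n.divisors.filter fun r => Ini r n ∧ (m : ℝ) * r ≤ Z) (fun r => r)
    ⟨Sp w n, mem_filter.2 ⟨Nat.mem_divisors.2 ⟨Grf_dvd w hn, hn.ne_zero⟩, Grf_ini w hn, h1⟩⟩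
  obtain ⟨_, hri, hrZ⟩ := mem_filter.1 hr
  have hmax' : ∀ r' : ℕ, Ini r' n → (m : ℝ) * r' ≤ Z → r' ≤ r := fun r' h5 h6 =>
    hmax r' (mem_filter.2 ⟨Nat.mem_divisors.2 ⟨h5.1, hn.ne_zero⟩, h5, h6⟩)
  have hSr : Sp w n ≤ r := hmax' _ (Grf_ini w hn) h1
  obtain ⟨v, hv⟩ := Grf_chain hn (Grf_ini w hn) hri hSr
  have hwr : Sp w' n ≤ r := by
    refine hmax' _ (Grf_ini w' hn) ?_
    rw [le_div_iff₀ hm'] at e3
    linarith
  have hwr' : (Sp w' n : ℝ) ≤ r := by exact_mod_cast hwr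
  have hxk : 0 < x ^ κ' := Real.rpow_pos_of_pos hx0 _
  have hZr : Z < (m : ℝ) * r * x ^ κ' := by
    rw [div_lt_iff₀ hm'] at e4
    have h5 : (Sp w' n : ℝ) * x ^ κ' * m ≤ (r : ℝ) * x ^ κ' * m :=
      mul_le_mul_of_nonneg_right (mul_le_mul_of_nonneg_right hwr' hxk.le) hm'.le
    linarith
  have hZr' : Z' < (m : ℝ) * r * x ^ κ := by
    have h5 : x ^ κ = x ^ κ' * x ^ (κ - κ') := by
      rw [← Real.rpow_add hx0]
      congr 1
      ring
    have h6 : 0 < x ^ (κ - κ') := Real.rpow_pos_of_pos hx0 _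
    calc Z' < Z * x ^ (κ - κ') := h3
      _ ≤ (m : ℝ) * r * x ^ κ' * x ^ (κ - κ') := mul_le_mul_of_nonneg_right hZr.le h6.le
      _ = (m : ℝ) * r * x ^ κ := by rw [h5]; ring
  have hassoc : m * Sp w n * v = m * r := by rw [hv, mul_assoc]
  have hcast : ((m * Sp w n : ℕ) : ℝ) * v = (m : ℝ) * r := by
    have : ((m * Sp w n * v : ℕ) : ℝ) = ((m * r : ℕ) : ℝ) := by rw [hassoc]
    push_cast at this ⊢
    exact this
  have hrn : r ∣ n := hri.1
  refine ⟨v, r, ⟨hri, hrZ, hmax'⟩, hassoc, ?_, ?_, ?_, ?_, ?_⟩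
  · rw [Nat.mul_div_mul_left _ _ hm]
    exact Nat.dvd_div_of_mul_dvd (hv ▸ hrn)
  · rw [hcast]
    exact hrZ.trans hZZ
  · rw [hcast]
    exact hZr'
  · rw [hassoc]
    intro W hW1 hWx _
    by_cases hW : W ≤ (r : ℝ)
    · obtain ⟨e, he1, he2, he3⟩ := Grf_dn (ω := ω) hx hκ hn hs' hrn W hW1 hWx hW
      exact ⟨e, he1.trans (dvd_mul_left _ _), he2, he3⟩
    · refine ⟨r, dvd_mul_left _ _, (not_le.1 hW).le, ?_⟩
      have h5 : (m : ℝ) * x ^ ω < (m : ℝ) * ((r : ℝ) * x ^ κ) := by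
        have h6 : Z < (m : ℝ) * r * x ^ κ := lt_of_le_of_lt hZZ hZr'
        linarith
      have h7 : x ^ ω < (r : ℝ) * x ^ κ := lt_of_mul_lt_mul_left h5 hm'.le
      linarith
  · rw [hassoc, Nat.mul_div_mul_left _ _ hm]
    exact Grf_dn hx hκ hn hs' (Nat.div_dvd_of_dvd hrn)

end Pool.Agent.Lib.MX
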