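import Pool.Agent.Lib.MX.AllM
import Pool.Agent.Lib.MX.Grf
import Pool.Agent.Lib.MX.Faf
import Pool.Agent.Lib.MX.Flf

/-! MP_00e23e_nt, directory Lib/MX: THEOREM MI (version 12), part A, without hypotheses. -/

namespace Pool.Agent.Lib.MX

open Pool.Agent.Lib.TB

/-- THEOREM MI, version 12, part A. -/
theorem tSf : SfStmt :=
  tFlf tBAll tAAll (tFaf tFpsAll tWig tGrf (MI.tFbv BV.aExt KF.tRse MI.tFtn) MK.tFsp) (tExe (tRae tMer) MI.tFtn)

end Pool.Agent.Lib.MX
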