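import Pool.Agent.Lib.MX.Stm

/-!
MP_00e23e_nt, directory Lib/MX (version 11), chapter B: all blocks (after Lib/MT/Bdr.lean; z and T are parameters).
-/

namespace Pool.Agent.Lib.MX

open Finset Pool.Agent.Lib.EH3 Pool.Agent.Lib.TB Pool.Agent.Results.MP_00e23e_nt Pool.Agent.Lib.MI

private lemma Bdr_lt {x s A B : ℝ} (hx : 0 < x) (h : x ^ A < s * x ^ B) : x ^ (A - B) < s := by
  rw [Real.rpow_sub hx, div_lt_iff₀ (Real.rpow_pos_of_pos hx B)]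
  exact h

private lemma Bdr_log {r : ℕ} (hr : 2 ≤ r) :
    2 ^ Nat.log 2 (r - 1) < r ∧ r ≤ 2 * 2 ^ Nat.log 2 (r - 1) := by
  have h1 := Nat.pow_log_le_self 2 (show r - 1 ≠ 0 by omega)
  have h2 := Nat.lt_pow_succ_log_self (show 1 < 2 by norm_num) (r - 1)
  rw [pow_succ] at h2
  constructor <;> omega

/-- the number of the block of s -/
private def Bdr_ind (s : ℕ) : ℕ :=
  2 * Nat.log 2 (s - 1) + if 2 * s ≤ 3 * 2 ^ Nat.log 2 (s - 1) then 0 else 1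

/-- the left end of the block with number i -/
private def Bdr_val (i : ℕ) : ℕ := if i % 2 = 0 then 2 ^ (i / 2) else 3 * 2 ^ (i / 2 - 1)

private lemma Bdr_iv {s : ℕ} (hs : 3 ≤ s) :
    1 ≤ Bdr_val (Bdr_ind s) ∧ Bdr_val (Bdr_ind s) < s ∧ s ≤ 2 * Bdr_val (Bdr_ind s) ∧
      2 * s ≤ 3 * Bdr_val (Bdr_ind s) := by
  obtain ⟨h1, h2⟩ := Bdr_log (show 2 ≤ s by omega)
  have hl : 1 ≤ Nat.log 2 (s - 1) := Nat.log_pos (by norm_num) (by omega)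
  obtain ⟨l, hl'⟩ : ∃ l, Nat.log 2 (s - 1) = l + 1 := ⟨Nat.log 2 (s - 1) - 1, by omega⟩
  unfold Bdr_ind
  rw [hl'] at h1 h2 ⊢
  have hp : 1 ≤ 2 ^ l := Nat.one_le_two_pow
  have hps : 2 ^ (l + 1) = 2 * 2 ^ l := by rw [pow_succ]; ring
  by_cases hc : 2 * s ≤ 3 * 2 ^ (l + 1)
  · rw [if_pos hc]
    have e1 : Bdr_val (2 * (l + 1) + 0) = 2 ^ (l + 1) := by
      unfold Bdr_val
      rw [if_pos (by omega)]
      congr 1
      omega
    rw [e1]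
    omega
  · rw [if_neg hc]
    have e1 : Bdr_val (2 * (l + 1) + 1) = 3 * 2 ^ l := by
      unfold Bdr_val
      rw [if_neg (by omega)]
      congr 2
      omega
    rw [e1]
    omega

private lemma Bdr_J {x : ℝ} {r : ℕ} (hx : (r : ℝ) ≤ x) :
    Nat.log 2 (r - 1) ∈ range (2 * (Nat.log 2 ⌊x⌋₊ + 1)) := by
  have h1 : r ≤ ⌊x⌋₊ := Nat.le_floor hx
  have h2 : Nat.log 2 (r - 1) ≤ Nat.log 2 ⌊x⌋₊ := Nat.log_mono_right (by omega)
  exact mem_range.2 (by omega)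

private lemma Bdr_J2 {x : ℝ} {r : ℕ} (hx : (r : ℝ) ≤ x) :
    Bdr_ind r ∈ range (2 * (Nat.log 2 ⌊x⌋₊ + 1)) := by
  have h1 : r ≤ ⌊x⌋₊ := Nat.le_floor hx
  have h2 : Nat.log 2 (r - 1) ≤ Nat.log 2 ⌊x⌋₊ := Nat.log_mono_right (by omega)
  refine mem_range.2 ?_
  unfold Bdr_ind
  split_ifs <;> omega

private lemma Bdr_Jle {x : ℝ} (hx : 3 ≤ x) :
    ((2 * (Nat.log 2 ⌊x⌋₊ + 1) : ℕ) : ℝ) ≤ 6 * Real.log x := by
  have h0 : ⌊x⌋₊ ≠ 0 := by
    have : 3 ≤ ⌊x⌋₊ := Nat.le_floor (by exact_mod_cast hx)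
    omega
  have h1 := Nat.pow_log_le_self 2 h0
  have h2 : ((2 : ℝ) ^ Nat.log 2 ⌊x⌋₊) ≤ x :=
    le_trans (by exact_mod_cast h1) (Nat.floor_le (by linarith))
  have h3 := Real.log_le_log (by positivity) h2
  rw [Real.log_pow] at h3
  have h4 := Real.log_two_gt_d9
  have h5 : 1 ≤ Real.log x := by
    rw [Real.le_log_iff_exp_le (by linarith)]
    exact le_trans Real.exp_one_lt_d9.le (by linarith)
  have h6 : (0 : ℝ) ≤ (Nat.log 2 ⌊x⌋₊ : ℝ) := Nat.cast_nonneg _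
  have h7 : (Nat.log 2 ⌊x⌋₊ : ℝ) * 0.5 ≤ (Nat.log 2 ⌊x⌋₊ : ℝ) * Real.log 2 :=
    mul_le_mul_of_nonneg_left (by linarith) h6
  push_cast
  linarith

private lemma Bdr_fib (F : Finset ℕ) (w : ℕ → ℝ) (φ : ℕ → ℕ × ℕ × ℕ) (J : ℕ) (B : ℝ)
    (h1 : ∀ q ∈ F, φ q ∈ range J ×ˢ (range J ×ˢ range J))
    (h2 : ∀ k, ∑ q ∈ F.filter (fun q => φ q = k), w q ≤ B) :
    ∑ q ∈ F, w q ≤ (J : ℝ) ^ 3 * B := by
  rw [← sum_fiberwise_of_maps_to h1 w]
  refine (sum_le_card_nsmul _ _ B fun k _ => h2 k).trans ?_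
  rw [card_product, card_product, card_range, nsmul_eq_mul]
  push_cast
  apply le_of_eq
  ring

/-- the facts for one modulus -/
private lemma Bdr_q {δ τ κ ω ε z x : ℝ} (hP : MT.Par δ κ ε) (hx : 3 ≤ x) {M N : ℕ}
    (hNM : N ≤ M) (hN : x ^ ((1 : ℝ) / 3 - ε) ≤ N) (hMN : (M : ℝ) * N ≤ x) {q : ℕ} {t u : ℕ → ℕ}
    (hMd : Mz (1 / 2 + δ) τ z x (t q) q) (hq : x ^ (1 / 2 - ε / 2) < (q : ℝ))
    (hD : MQ.Dv κ ω x (N * x ^ (-ε)) t u q) :
    t q ∣ t q * u q ∧ t q * u q ∣ q ∧ ((t q * u q : ℕ) : ℝ) ≤ N * x ^ (-ε) ∧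
      N * x ^ (-ε) < ((t q * u q : ℕ) : ℝ) * x ^ κ ∧
      x ^ ((1 : ℝ) / 3 - 2 * ε - κ) < ((t q * u q : ℕ) : ℝ) ∧
      x ^ (ε / 2) < ((q / (t q * u q) : ℕ) : ℝ) ∧
      x ^ (1 / 2 - ε / 2) < ((q / (t q * u q) : ℕ) : ℝ) * (N * x ^ (-ε)) := by
  obtain ⟨hδ, hκ, hε, hε1, hp1⟩ := hP
  obtain ⟨hsq, htq, hqx, htx, hpr⟩ := hMd
  obtain ⟨hu, hrZ', hZr', _, _⟩ := hD
  have hrZ : ((t q * u q : ℕ) : ℝ) ≤ N * x ^ (-ε) := by
    push_cast
    exact hrZ'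
  have hZr : N * x ^ (-ε) < ((t q * u q : ℕ) : ℝ) * x ^ κ := by
    push_cast
    exact hZr'
  have hx0 : 0 < x := by linarith
  have hx1 : 1 < x := by linarith
  have hN0 : (0 : ℝ) ≤ N := Nat.cast_nonneg _
  have hNx : (N : ℝ) ≤ x ^ ((1 : ℝ) / 2) := by
    rw [← Real.sqrt_eq_rpow]
    apply Real.le_sqrt_of_sq_le
    have h1 : (N : ℝ) ≤ M := by exact_mod_cast hNM
    nlinarith
  have hxe : 0 < x ^ (-ε) := Real.rpow_pos_of_pos hx0 _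
  have hZ1 : x ^ ((1 : ℝ) / 3 - 2 * ε) ≤ N * x ^ (-ε) := by
    have h1 : x ^ ((1 : ℝ) / 3 - 2 * ε) = x ^ ((1 : ℝ) / 3 - ε) * x ^ (-ε) := by
      rw [← Real.rpow_add hx0]
      congr 1
      ring
    rw [h1]
    exact mul_le_mul_of_nonneg_right hN hxe.le
  have hZ2 : N * x ^ (-ε) ≤ x ^ (1 / 2 - ε) := by
    have h1 : x ^ (1 / 2 - ε) = x ^ ((1 : ℝ) / 2) * x ^ (-ε) := by
      rw [← Real.rpow_add hx0]
      congr 1
    rw [h1]
    exact mul_le_mul_of_nonneg_right hNx hxe.le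
  have hrq : t q * u q ∣ q := by
    have h1 : t q * (q / t q) = q := Nat.mul_div_cancel' htq
    have h2 : t q * u q ∣ t q * (q / t q) := Nat.mul_dvd_mul_left _ hu
    rwa [h1] at h2
  have hsr : ((q / (t q * u q) : ℕ) : ℝ) * ((t q * u q : ℕ) : ℝ) = q := by
    exact_mod_cast Nat.div_mul_cancel hrq
  have hs0 : (0 : ℝ) ≤ ((q / (t q * u q) : ℕ) : ℝ) := Nat.cast_nonneg _
  have h5 : x ^ (1 / 2 - ε / 2) < ((q / (t q * u q) : ℕ) : ℝ) * (N * x ^ (-ε)) := by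
    refine lt_of_lt_of_le hq ?_
    rw [← hsr]
    exact mul_le_mul_of_nonneg_left hrZ hs0
  have h6 : x ^ (1 / 2 - ε / 2) < ((q / (t q * u q) : ℕ) : ℝ) * x ^ (1 / 2 - ε) :=
    lt_of_lt_of_le h5 (mul_le_mul_of_nonneg_left hZ2 hs0)
  have h7 := Bdr_lt hx0 h6
  have h8 := Bdr_lt hx0 (lt_of_le_of_lt hZ1 hZr)
  refine ⟨dvd_mul_right _ _, hrq, hrZ, hZr, h8, ?_, h5⟩
  have h9 : ε / 2 = 1 / 2 - ε / 2 - (1 / 2 - ε) := by ring
  rw [h9]
  exact h7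

/-- the blocks -/
private lemma Bdr_blk {δ κ ε x : ℝ} (hx : 3 ≤ x) {M N q r R S : ℕ} (hNM : N ≤ M)
    (hN : x ^ ((1 : ℝ) / 3 - ε) ≤ N) (hMN1 : x ^ (1 - ε) ≤ (M : ℝ) * N) (hMN : (M : ℝ) * N ≤ x)
    (hrq : r ∣ q) (hrZ : (r : ℝ) ≤ N * x ^ (-ε)) (hZr : N * x ^ (-ε) < (r : ℝ) * x ^ κ)
    (hq : x ^ (1 / 2 - ε / 2) < (q : ℝ)) (hq2 : (q : ℝ) ≤ x ^ (1 / 2 + δ))
    (hR1 : R < r) (hR2 : r ≤ 2 * R) (hS0 : 1 ≤ S) (hS1 : S < q / r) (hS2 : q / r ≤ 2 * S) :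
    Blk δ κ ε x M N R S := by
  have hx0 : 0 < x := by linarith
  have hR1' : (R : ℝ) ≤ r := by exact_mod_cast hR1.le
  have hR2' : (r : ℝ) ≤ 2 * R := by exact_mod_cast hR2
  have hS1' : (S : ℝ) ≤ ((q / r : ℕ) : ℝ) := by exact_mod_cast hS1.le
  have hS2' : ((q / r : ℕ) : ℝ) ≤ 2 * S := by exact_mod_cast hS2
  have hrs : (r : ℝ) * ((q / r : ℕ) : ℝ) = q := by
    exact_mod_cast Nat.mul_div_cancel' hrq
  have hR0 : (0 : ℝ) ≤ R := Nat.cast_nonneg _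
  have hr0 : (0 : ℝ) ≤ r := Nat.cast_nonneg _
  have hS0' : (0 : ℝ) ≤ S := Nat.cast_nonneg _
  have hs0 : (0 : ℝ) ≤ ((q / r : ℕ) : ℝ) := Nat.cast_nonneg _
  refine ⟨hNM, hN, hMN1, hMN, hS0, hR1'.trans hrZ, ?_, ?_, ?_⟩
  · have h1 : x ^ (-ε - κ) = x ^ (-ε) / x ^ κ := Real.rpow_sub hx0 _ _
    have hk : 0 < x ^ κ := Real.rpow_pos_of_pos hx0 _
    rw [h1, ← mul_div_assoc, div_le_iff₀ hk]
    exact hZr.le.trans (mul_le_mul_of_nonneg_right hR2' hk.le)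
  · refine le_trans ?_ hq2
    rw [← hrs]
    exact mul_le_mul hR1' hS1' hS0' hr0
  · refine hq.le.trans ?_
    rw [← hrs]
    calc (r : ℝ) * ((q / r : ℕ) : ℝ) ≤ (2 * R) * (2 * S) := mul_le_mul hR2' hS2' hs0 (by positivity)
      _ = 4 * ((R : ℝ) * S) := by ring

/-- the divisors of Type I -/
private lemma Bdr_dn {x κ ω Z : ℝ} (hx : 3 ≤ x) (hκ : 0 < κ) {s : ℕ} (hD : MQ.Dn (x ^ κ) (x ^ ω) s)
    (hZ : 0 < Z) (hω : Z + κ ≤ ω) (hs : x ^ (Z + κ) < s) :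
    ∃ v : ℕ, v ∣ s ∧ x ^ Z < v ∧ (v : ℝ) ≤ x ^ (Z + κ) := by
  have hx0 : 0 < x := by linarith
  have hx1 : 1 < x := by linarith
  have h1 : (1 : ℝ) ≤ x ^ (Z + κ) := Real.one_le_rpow hx1.le (by linarith)
  obtain ⟨v, hvs, hvZ, hZv⟩ := hD (x ^ (Z + κ)) h1 (Real.rpow_le_rpow_of_exponent_le hx1.le hω) hs.le
  refine ⟨v, hvs, ?_, hvZ⟩
  have h2 := Bdr_lt hx0 hZv
  rwa [add_sub_cancel_right] at h2

/-- the divisor r0 of Type I -/
private lemma Bdr_r0 {δ κ ε ω x : ℝ} (hP : MT.Par δ κ ε) (hω : 10 * δ + 5 * κ + 20 * ε ≤ ω) (hx : 3 ≤ x)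
    (hx2 : (2 : ℝ) ≤ x ^ (ε / 2)) {V S r : ℕ} (hV : x ^ (yy δ κ ε + 4 * ε) ≤ 2 * V)
    (hS : x ^ (MT.sh δ κ ε + ε / 2) ≤ 2 * S) (hr : x ^ ((1 : ℝ) / 3 - 2 * ε - κ) < r)
    (hD : MQ.Dn (x ^ κ) (x ^ ω) r) :
    ∃ r0 : ℕ, r0 ∣ r ∧ MT.La δ κ ε x V S < r0 ∧ (r0 : ℝ) ≤ MT.La δ κ ε x V S * x ^ κ := by
  obtain ⟨hδ, hκ, hε, hε1, hp1⟩ := hP
  have hx0 : 0 < x := by linarith
  have hx1 : 1 < x := by linarith
  have hyy : yy δ κ ε = 2 * δ + κ + 3 * ε := rfl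
  have hsh : MT.sh δ κ ε = 2 * δ + 2 * κ + 10 * ε := rfl
  have hκp : 0 < x ^ κ := Real.rpow_pos_of_pos hx0 _
  have hL1 : x ^ (4 * yy δ κ ε + 8 * ε) ≤ MT.La δ κ ε x V S := le_max_left _ _
  have hL0 : (1 : ℝ) ≤ MT.La δ κ ε x V S :=
    (Real.one_le_rpow hx1.le (by rw [hyy]; linarith)).trans hL1
  have hLu : MT.La δ κ ε x V S ≤ x ^ (10 * δ + 4 * κ + 20 * ε) := by
    refine max_le ?_ ?_
    · refine Real.rpow_le_rpow_of_exponent_le hx1.le ?_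
      rw [hyy]
      linarith
    · have hV0 : 0 < x ^ (yy δ κ ε + 4 * ε) := Real.rpow_pos_of_pos hx0 _
      have hS0 : 0 < x ^ (MT.sh δ κ ε + ε / 2) := Real.rpow_pos_of_pos hx0 _
      have hVp : (0 : ℝ) < V := by linarith
      have hSp : (0 : ℝ) < S := by linarith
      have hVS : x ^ (yy δ κ ε + 4 * ε) * (x ^ (MT.sh δ κ ε + ε / 2)) ^ 2 ≤ 8 * (V * (S : ℝ) ^ 2) := by
        have h1 : (x ^ (MT.sh δ κ ε + ε / 2)) ^ 2 ≤ (2 * (S : ℝ)) ^ 2 := pow_le_pow_left₀ hS0.le hS 2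
        calc x ^ (yy δ κ ε + 4 * ε) * (x ^ (MT.sh δ κ ε + ε / 2)) ^ 2 ≤ (2 * V) * (2 * (S : ℝ)) ^ 2 :=
              mul_le_mul hV h1 (by positivity) (by positivity)
          _ = 8 * (V * (S : ℝ) ^ 2) := by ring
      have h8 : (8 : ℝ) ≤ x ^ (8 * ε) := by
        have h1 : x ^ (8 * ε) = (x ^ (ε / 2)) ^ 16 := by
          rw [← Real.rpow_natCast, ← Real.rpow_mul hx0.le]
          congr 1
          push_cast
          ring
        rw [h1]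
        have h2 : (2 : ℝ) ^ 16 ≤ (x ^ (ε / 2)) ^ 16 := pow_le_pow_left₀ (by norm_num) hx2 16
        linarith
      rw [div_le_iff₀ (by positivity)]
      have e1 : x ^ (8 * yy δ κ ε + 16 * ε) =
          x ^ (10 * δ + 3 * κ + 12 * ε) * (x ^ (yy δ κ ε + 4 * ε) * (x ^ (MT.sh δ κ ε + ε / 2)) ^ 2) := by
        rw [← Real.rpow_natCast (x ^ (MT.sh δ κ ε + ε / 2)) 2, ← Real.rpow_mul hx0.le, ← Real.rpow_add hx0,
          ← Real.rpow_add hx0]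
        congr 1
        rw [hyy, hsh]
        push_cast
        ring
      have e2 : x ^ (10 * δ + 3 * κ + 12 * ε) * 8 ≤ x ^ (10 * δ + 4 * κ + 20 * ε) := by
        calc x ^ (10 * δ + 3 * κ + 12 * ε) * 8 ≤ x ^ (10 * δ + 3 * κ + 12 * ε) * x ^ (8 * ε) :=
              mul_le_mul_of_nonneg_left h8 (Real.rpow_nonneg hx0.le _)
          _ = x ^ (10 * δ + 3 * κ + 20 * ε) := by
              rw [← Real.rpow_add hx0]
              congr 1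
              ring
          _ ≤ x ^ (10 * δ + 4 * κ + 20 * ε) :=
              Real.rpow_le_rpow_of_exponent_le hx1.le (by linarith)
      rw [e1]
      calc x ^ (10 * δ + 3 * κ + 12 * ε) * (x ^ (yy δ κ ε + 4 * ε) * (x ^ (MT.sh δ κ ε + ε / 2)) ^ 2)
          ≤ x ^ (10 * δ + 3 * κ + 12 * ε) * (8 * (V * (S : ℝ) ^ 2)) :=
            mul_le_mul_of_nonneg_left hVS (Real.rpow_nonneg hx0.le _)
        _ = (x ^ (10 * δ + 3 * κ + 12 * ε) * 8) * (V * (S : ℝ) ^ 2) := by ring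
        _ ≤ x ^ (10 * δ + 4 * κ + 20 * ε) * (V * (S : ℝ) ^ 2) :=
            mul_le_mul_of_nonneg_right e2 (by positivity)
  have hκ1 : (1 : ℝ) ≤ x ^ κ := Real.one_le_rpow hx1.le hκ.le
  have hW1 : (1 : ℝ) ≤ MT.La δ κ ε x V S * x ^ κ := one_le_mul_of_one_le_of_one_le hL0 hκ1
  have hW2 : MT.La δ κ ε x V S * x ^ κ ≤ x ^ (10 * δ + 5 * κ + 20 * ε) := by
    have e1 : x ^ (10 * δ + 5 * κ + 20 * ε) = x ^ (10 * δ + 4 * κ + 20 * ε) * x ^ κ := by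
      rw [← Real.rpow_add hx0]
      congr 1
      ring
    rw [e1]
    exact mul_le_mul_of_nonneg_right hLu hκp.le
  have hWω : MT.La δ κ ε x V S * x ^ κ ≤ x ^ ω :=
    hW2.trans (Real.rpow_le_rpow_of_exponent_le hx1.le hω)
  have hWr : MT.La δ κ ε x V S * x ^ κ ≤ r := by
    refine hW2.trans (le_trans ?_ hr.le)
    exact Real.rpow_le_rpow_of_exponent_le hx1.le (by linarith)
  obtain ⟨e, he1, he2, he3⟩ := hD _ hW1 hWω hWr
  refine ⟨e, he1, ?_, he2⟩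
  exact lt_of_mul_lt_mul_right he3 hκp.le

/-- the sum over a set of moduli as a sum over pairs -/
private lemma Bdr_img (F : Finset ℕ) (r : ℕ → ℕ) (G : ℕ × ℕ → ℝ) (h : ∀ q ∈ F, r q ∣ q) :
    ∑ q ∈ F, G (r q, q / r q) = ∑ w ∈ F.image (fun q => (r q, q / r q)), G w := by
  rw [sum_image]
  intro q hq q' hq' he
  have h1 := congrArg Prod.fst he
  have h2 := congrArg Prod.snd he
  have h3 := Nat.mul_div_cancel' (h q hq)
  have h4 := Nat.mul_div_cancel' (h q' hq')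
  simp only at h1 h2
  calc q = r q * (q / r q) := h3.symm
    _ = r q' * (q' / r q') := by rw [h2, h1]
    _ = q' := h4

private lemma Bdr_pr {a : ℕ → ℤ} {A : ℕ → ℕ → ℤ} {b : ℕ → ℤ} {R S : ℕ} {z : ℝ} (F : Finset ℕ) (r : ℕ → ℕ)
    (hA : ∀ n m, A n m = a (n * m))
    (h : ∀ q ∈ F, r q ∣ q ∧ R < r q ∧ r q ≤ 2 * R ∧ S < q / r q ∧ q / r q ≤ 2 * S ∧ Squarefree q ∧
      Int.gcd (a q) q = 1 ∧ (r q : ℤ) ∣ a q - b (r q) ∧ ∀ p : ℕ, p.Prime → p ∣ q / r q → z < p)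
    (h' : ∀ q ∈ F, 2 * (q / r q) ≤ 3 * S) :
    MS.Pr A b R S z (F.image fun q => (r q, q / r q)) := by
  refine ⟨⟨?_, ?_⟩, ?_⟩
  · intro w hw
    obtain ⟨q, hq, rfl⟩ := mem_image.1 hw
    obtain ⟨h1, h2, h3, h4, h5, h6, h7, h8, h10⟩ := h q hq
    have h9 : r q * (q / r q) = q := Nat.mul_div_cancel' h1
    refine ⟨h2, h3, h4, h5, ?_, ?_, ?_, h10⟩
    · change Squarefree (r q * (q / r q))
      rw [h9]
      exact h6
    · change Int.gcd (A (r q) (q / r q)) ((r q * (q / r q) : ℕ) : ℤ) = 1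
      rw [hA, h9]
      exact h7
    · change (r q : ℤ) ∣ A (r q) (q / r q) - b (r q)
      rw [hA, h9]
      exact h8
  · intro n s s' p _ _ hp _ _ hpz
    have h1 : p ≤ 1 := by exact_mod_cast hpz
    have h2 := hp.two_le
    omega
  · intro w hw
    obtain ⟨q, hq, rfl⟩ := mem_image.1 hw
    exact h' q hq

theorem tBdr (hbo : BboStmt) (hbt : BbtStmt) : BdrStmt := by
  classical
  intro δ τ κ ω ε hP hω
  obtain ⟨η1, C1, x1, A1, hη1, hC1, hT1⟩ := hbo δ κ ε hP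
  obtain ⟨η2, C2, x2, A2, hη2, hC2, hT2⟩ := hbt δ κ ε hP
  have hη : 0 < min η1 η2 := lt_min hη1 hη2
  refine ⟨min η1 η2, 216 * (C1 + C2),
    max (max 3 ((2 : ℝ) ^ (2 / ε))) (max x1 x2), max A1 A2 + 3, hη, by linarith, ?_⟩
  intro x T z a M N f g F1 t u hx hTau hz1 hzx hNM hN hMN1 hMN2 hf hg hF0 hCn
  have hTone : 1 ≤ T := hTau.1
  have hx3 : 3 ≤ x := ((le_max_left _ _).trans (le_max_left _ _)).trans hx
  have hxe2 : (2 : ℝ) ^ (2 / ε) ≤ x := ((le_max_right _ _).trans (le_max_left _ _)).trans hx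
  have hxx1 : x1 ≤ x := ((le_max_left _ _).trans (le_max_right _ _)).trans hx
  have hxx2 : x2 ≤ x := ((le_max_right _ _).trans (le_max_right _ _)).trans hx
  have hx0 : 0 < x := by linarith
  have hx1 : 1 < x := by linarith
  obtain ⟨hδ, hκ1, hε, hε1, hp1⟩ := id hP
  have hx2 : (2 : ℝ) ≤ x ^ (ε / 2) := by
    have h1 : ((2 : ℝ) ^ (2 / ε)) ^ (ε / 2) = 2 := by
      rw [← Real.rpow_mul (by norm_num)]
      have h2 : 2 / ε * (ε / 2) = 1 := by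
        field_simp
      rw [h2, Real.rpow_one]
    calc (2 : ℝ) = ((2 : ℝ) ^ (2 / ε)) ^ (ε / 2) := h1.symm
      _ ≤ x ^ (ε / 2) := Real.rpow_le_rpow (Real.rpow_nonneg (by norm_num) _) hxe2 (by linarith)
  have hF : ∀ q ∈ F1, Mz (1 / 2 + δ) τ z x (t q) q ∧ x ^ (1 / 2 - ε / 2) < (q : ℝ) :=
    fun q hq => ⟨(hF0 q hq).1, (hF0 q hq).2.2.1⟩
  have hga : ∀ q ∈ F1, Int.gcd (a q) q = 1 := fun q hq => (hF0 q hq).2.1
  obtain ⟨r, hrdef⟩ : ∃ r : ℕ → ℕ, ∀ q, r q = t q * u q := ⟨fun q => t q * u q, fun _ => rfl⟩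
  have hr : ∀ q ∈ F1, (t q ∣ r q ∧ r q ∣ q ∧ (r q : ℝ) ≤ N * x ^ (-ε) ∧
      N * x ^ (-ε) < (r q : ℝ) * x ^ κ ∧ x ^ ((1 : ℝ) / 3 - 2 * ε - κ) < r q ∧
      x ^ (ε / 2) < ((q / r q : ℕ) : ℝ) ∧
      x ^ (1 / 2 - ε / 2) < ((q / r q : ℕ) : ℝ) * (N * x ^ (-ε))) := by
    intro q hq
    rw [hrdef]
    exact Bdr_q hP hx3 hNM hN hMN2 (hF q hq).1 (hF q hq).2 (hF0 q hq).2.2.2
  have hq1 : ∀ q ∈ F1, 1 ≤ q := by
    intro q hq
    have h1 := (hF q hq).1.1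
    rcases Nat.eq_zero_or_pos q with h | h
    · rw [h] at h1
      exact absurd h1 not_squarefree_zero
    · exact h
  have hqx : ∀ q ∈ F1, (q : ℝ) ≤ x := by
    intro q hq
    refine (hF q hq).1.2.2.1.trans ?_
    calc x ^ (1 / 2 + δ) ≤ x ^ (1 : ℝ) := Real.rpow_le_rpow_of_exponent_le hx1.le (by linarith)
      _ = x := Real.rpow_one x
  have hr2 : ∀ q ∈ F1, 2 ≤ r q := by
    intro q hq
    have h1 := (hr q hq).2.2.2.2.1
    have h2 : (1 : ℝ) < r q := lt_of_le_of_lt (Real.one_le_rpow hx1.le (by linarith)) h1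
    exact_mod_cast h2
  have hs2 : ∀ q ∈ F1, 3 ≤ q / r q := by
    intro q hq
    have h1 := (hr q hq).2.2.2.2.2.1
    have h2 : (2 : ℝ) < ((q / r q : ℕ) : ℝ) := lt_of_le_of_lt hx2 h1
    exact_mod_cast h2
  have hrx : ∀ q ∈ F1, (r q : ℝ) ≤ x := by
    intro q hq
    refine le_trans ?_ (hqx q hq)
    exact_mod_cast Nat.le_of_dvd (hq1 q hq) (hr q hq).2.1
  have hsx : ∀ q ∈ F1, ((q / r q : ℕ) : ℝ) ≤ x := by
    intro q hq
    refine le_trans ?_ (hqx q hq)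
    exact_mod_cast Nat.div_le_self _ _
  have ht1 : ∀ q ∈ F1, 1 ≤ t q := fun q hq =>
    Nat.pos_of_dvd_of_pos (hF q hq).1.2.1 (hq1 q hq)
  have hsdvd : ∀ q ∈ F1, q / r q ∣ q / t q := by
    intro q hq
    obtain ⟨htr, hrq, _⟩ := hr q hq
    obtain ⟨u, hu⟩ := htr
    obtain ⟨s, hs⟩ := hrq
    have h1 : 0 < r q := by have := hr2 q hq; omega
    have h2 : q / r q = s := Nat.div_eq_of_eq_mul_right h1 hs
    have h3 : q / t q = u * s :=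
      Nat.div_eq_of_eq_mul_right (ht1 q hq) (hs.trans (by rw [← mul_assoc, ← hu]))
    rw [h2, h3]
    exact dvd_mul_left _ _
  have hT : ∀ q ∈ F1, ∀ q' ∈ F1, r q = r q' → t q = t q' := by
    intro q hq q' hq' h
    rw [hrdef, hrdef] at h
    exact (hCn q hq q' hq' h).1
  obtain ⟨A, hA⟩ : ∃ A : ℕ → ℕ → ℤ, ∀ n m, A n m = a (n * m) := ⟨fun n m => a (n * m), fun _ _ => rfl⟩
  obtain ⟨b, hb⟩ : ∃ b : ℕ → ℤ, ∀ q ∈ F1, ∃ q' ∈ F1, r q' = r q ∧ b (r q) = a q' := by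
    refine ⟨fun n => if h : ∃ q ∈ F1, r q = n then a h.choose else 0, ?_⟩
    intro q hq
    have h : ∃ q' ∈ F1, r q' = r q := ⟨q, hq, rfl⟩
    refine ⟨h.choose, h.choose_spec.1, h.choose_spec.2, ?_⟩
    exact dif_pos h
  have hbd : ∀ q ∈ F1, (r q : ℤ) ∣ a q - b (r q) := by
    intro q hq
    obtain ⟨q', hq', h1, h2⟩ := hb q hq
    rw [h2]
    have h3 := (hCn q hq q' hq' (by rw [← hrdef, ← hrdef]; exact h1.symm)).2
    rw [hrdef]
    exact h3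
  set G : ℕ × ℕ → ℝ := fun w =>
    ‖∑ m ∈ Ioc M (2 * M), ∑ n ∈ Ioc N (2 * N), f m * g n * Dl (A w.1 w.2) w.1 w.2 (m * n)‖ with hG
  have hsum : ∑ q ∈ F1, ‖∑ m ∈ Ioc M (2 * M), ∑ n ∈ Ioc N (2 * N),
      f m * g n * Dl (a q) (t q * u q) (q / (t q * u q)) (m * n)‖ =
        ∑ q ∈ F1, G (r q, q / r q) := by
    refine sum_congr rfl fun q hq => ?_
    rw [← hrdef]
    change _ = ‖∑ m ∈ Ioc M (2 * M), ∑ n ∈ Ioc N (2 * N),
      f m * g n * Dl (A (r q) (q / r q)) (r q) (q / r q) (m * n)‖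
    rw [hA, Nat.mul_div_cancel' (hr q hq).2.1]
  have hCx : ∀ (η' C' : ℝ) (A' : ℕ), min η1 η2 ≤ η' → 0 ≤ C' → C' ≤ C1 + C2 → A' ≤ max A1 A2 →
      Bd C' A' η' x T z ≤ Bd (C1 + C2) (max A1 A2) (min η1 η2) x T z :=
    fun η' C' A' h1 h0 h2 h3 => Bd_mono h0 h2 h3 h1 hTone hx0.le hz1
  have hB0 : 0 ≤ Bd (C1 + C2) (max A1 A2) (min η1 η2) x T z :=
    Bd_nonneg (by linarith) hTone hx0.le hz1
  have hmain : ∑ q ∈ F1, G (r q, q / r q) ≤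
      ((2 * (Nat.log 2 ⌊x⌋₊ + 1) : ℕ) : ℝ) ^ 3 * Bd (C1 + C2) (max A1 A2) (min η1 η2) x T z := by
    have hpr : ∀ (F' : Finset ℕ) (R S : ℕ), F' ⊆ F1 → (∀ q ∈ F', R = 2 ^ Nat.log 2 (r q - 1) ∧
        S = Bdr_val (Bdr_ind (q / r q))) →
        MS.Pr A b R S z (F'.image fun q => (r q, q / r q)) := by
      intro F' R S hF' hRS
      refine Bdr_pr F' r hA (fun q hq => ?_) ?_
      swap
      · intro q hq
        have h2 := Bdr_iv (hs2 q (hF' hq))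
        rw [← (hRS q hq).2] at h2
        exact h2.2.2.2
      have hqF := hF' hq
      obtain ⟨hR, hS⟩ := hRS q hq
      have h1 := Bdr_log (hr2 q hqF)
      have h2 := Bdr_iv (hs2 q hqF)
      rw [← hR] at h1
      rw [← hS] at h2
      refine ⟨(hr q hqF).2.1, h1.1, h1.2, h2.2.1, h2.2.2.1, (hF q hqF).1.1, hga q hqF, hbd q hqF, ?_⟩
      intro p hp hps
      exact (hF q hqF).1.2.2.2.2 p hp (hps.trans (hsdvd q hqF))
    have hblk : ∀ (R S q : ℕ), q ∈ F1 → R = 2 ^ Nat.log 2 (r q - 1) →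
        S = Bdr_val (Bdr_ind (q / r q)) → Blk δ κ ε x M N R S := by
      intro R S q hq hR hS
      have h1 := Bdr_log (hr2 q hq)
      have h2 := Bdr_iv (hs2 q hq)
      rw [← hR] at h1
      rw [← hS] at h2
      exact Bdr_blk hx3 hNM hN hMN1 hMN2 (hr q hq).2.1 (hr q hq).2.2.1 (hr q hq).2.2.2.1
        (hF q hq).2 (hF q hq).1.2.2.1 h1.1 h1.2 h2.1 h2.2.1 h2.2.2.1
    rcases le_total (x ^ (1 / 2 - MT.sh δ κ ε)) (N : ℝ) with hcase | hcase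
    · -- Type II
      refine Bdr_fib F1 _ (fun q => (Nat.log 2 (r q - 1), Bdr_ind (q / r q), 0)) _ _ ?_ ?_
      · intro q hq
        refine mem_product.2 ⟨Bdr_J (hrx q hq), mem_product.2 ⟨Bdr_J2 (hsx q hq), ?_⟩⟩
        exact mem_range.2 (by positivity)
      · intro k
        rcases (F1.filter fun q => (Nat.log 2 (r q - 1), Bdr_ind (q / r q), 0) =
          k).eq_empty_or_nonempty with h0 | ⟨q0, hq0⟩
        · rw [h0, sum_empty]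
          exact hB0
        · have hk : ∀ q ∈ F1.filter (fun q => (Nat.log 2 (r q - 1), Bdr_ind (q / r q), 0) =
              k), q ∈ F1 ∧ 2 ^ k.1 = 2 ^ Nat.log 2 (r q - 1) ∧
                Bdr_val k.2.1 = Bdr_val (Bdr_ind (q / r q)) := by
            intro q hq
            obtain ⟨h1, h2⟩ := mem_filter.1 hq
            rw [← h2]
            exact ⟨h1, rfl, rfl⟩
          rw [Bdr_img _ r G fun q hq => (hr q (hk q hq).1).2.1]
          refine (hT2 x T z A b M N (2 ^ k.1) (Bdr_val k.2.1) _ f g hxx2 hTau hz1 hzx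
            (hblk _ _ q0 (hk q0 hq0).1 (hk q0 hq0).2.1 (hk q0 hq0).2.2) hcase
            (hpr _ _ _ (fun q hq => (hk q hq).1) fun q hq => (hk q hq).2) hf hg).trans ?_
          exact hCx η2 C2 A2 (min_le_right _ _) hC2 (by linarith) (le_max_right _ _)
    · -- Type I
      have hyy : yy δ κ ε = 2 * δ + κ + 3 * ε := rfl
      have hsg : MT.sh δ κ ε = 2 * δ + 2 * κ + 10 * ε := rfl
      have hsl : ∀ q ∈ F1, x ^ (MT.sh δ κ ε + ε / 2) < ((q / r q : ℕ) : ℝ) := by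
        intro q hq
        have h1 := (hr q hq).2.2.2.2.2.2
        have h2 : x ^ (1 / 2 - ε / 2) < ((q / r q : ℕ) : ℝ) * x ^ (1 / 2 - MT.sh δ κ ε - ε) := by
          refine lt_of_lt_of_le h1 (mul_le_mul_of_nonneg_left ?_ (Nat.cast_nonneg _))
          have h3 : x ^ (1 / 2 - MT.sh δ κ ε - ε) = x ^ (1 / 2 - MT.sh δ κ ε) * x ^ (-ε) := by
            rw [← Real.rpow_add hx0]
            congr 1
          rw [h3]
          exact mul_le_mul_of_nonneg_right hcase (Real.rpow_nonneg hx0.le _)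
        have h3 := Bdr_lt hx0 h2
        have e3 : (1 : ℝ) / 2 - ε / 2 - (1 / 2 - MT.sh δ κ ε - ε) = MT.sh δ κ ε + ε / 2 := by ring
        rwa [e3] at h3
      have hv : ∀ q, ∃ v : ℕ, q ∈ F1 → (v ∣ q / r q ∧ x ^ (yy δ κ ε + 4 * ε) < v ∧
          (v : ℝ) ≤ x ^ (yy δ κ ε + κ + 4 * ε)) := by
        intro q
        by_cases hq : q ∈ F1
        · have h3 := hsl q hq
          have h4 : x ^ (yy δ κ ε + 4 * ε + κ) < ((q / r q : ℕ) : ℝ) := by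
            refine lt_of_le_of_lt (Real.rpow_le_rpow_of_exponent_le hx1.le ?_) h3
            rw [hyy, hsg]
            linarith
          have hDs : MQ.Dn (x ^ κ) (x ^ ω) (q / r q) := by
            rw [hrdef]
            exact (hF0 q hq).2.2.2.2.2.2.2
          obtain ⟨v, hv1, hv2, hv3⟩ := Bdr_dn hx3 hκ1 hDs (by rw [hyy]; linarith)
            (by rw [hyy]; linarith) h4
          refine ⟨v, fun _ => ⟨hv1, hv2, ?_⟩⟩
          have h5 : yy δ κ ε + κ + 4 * ε = yy δ κ ε + 4 * ε + κ := by ring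
          rw [h5]
          exact hv3
        · exact ⟨0, fun h => absurd h hq⟩
      choose v hv using hv
      have hr0 : ∀ (V S : ℕ), x ^ (yy δ κ ε + 4 * ε) ≤ 2 * V → x ^ (MT.sh δ κ ε + ε / 2) ≤ 2 * S →
          ∀ q ∈ F1, ∃ r0 : ℕ, r0 ∣ r q ∧ MT.La δ κ ε x V S < r0 ∧
            (r0 : ℝ) ≤ MT.La δ κ ε x V S * x ^ κ := by
        intro V S hV hS q hq
        have h1 := (hr q hq).2.2.2.2.1
        have hDr : MQ.Dn (x ^ κ) (x ^ ω) (r q) := by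
          rw [hrdef]
          exact (hF0 q hq).2.2.2.2.2.2.1
        exact Bdr_r0 hP hω hx3 hx2 hV hS h1 hDr
      have hv2 : ∀ q ∈ F1, 2 ≤ v q := by
        intro q hq
        have h2 : (1 : ℝ) < v q :=
          lt_of_le_of_lt (Real.one_le_rpow hx1.le (by rw [hyy]; linarith)) (hv q hq).2.1
        exact_mod_cast h2
      have hvx : ∀ q ∈ F1, (v q : ℝ) ≤ x := by
        intro q hq
        refine le_trans ?_ (hsx q hq)
        have := hs2 q hq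
        exact_mod_cast Nat.le_of_dvd (by omega) (hv q hq).1
      refine Bdr_fib F1 _ (fun q => (Nat.log 2 (r q - 1), Bdr_ind (q / r q),
        Nat.log 2 (v q - 1))) _ _ ?_ ?_
      · intro q hq
        exact mem_product.2 ⟨Bdr_J (hrx q hq), mem_product.2 ⟨Bdr_J2 (hsx q hq),
          Bdr_J (hvx q hq)⟩⟩
      · intro k
        rcases (F1.filter fun q => (Nat.log 2 (r q - 1), Bdr_ind (q / r q),
          Nat.log 2 (v q - 1)) = k).eq_empty_or_nonempty with h0 | ⟨q0, hq0⟩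
        · rw [h0, sum_empty]
          exact hB0
        · have hk : ∀ q ∈ F1.filter (fun q => (Nat.log 2 (r q - 1), Bdr_ind (q / r q),
              Nat.log 2 (v q - 1)) = k), q ∈ F1 ∧ (2 ^ k.1 = 2 ^ Nat.log 2 (r q - 1) ∧
                Bdr_val k.2.1 = Bdr_val (Bdr_ind (q / r q))) ∧
                2 ^ k.2.2 = 2 ^ Nat.log 2 (v q - 1) := by
            intro q hq
            obtain ⟨h1, h2⟩ := mem_filter.1 hq
            rw [← h2]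
            exact ⟨h1, ⟨rfl, rfl⟩, rfl⟩
          have hkv : ∀ q ∈ F1.filter (fun q => (Nat.log 2 (r q - 1), Bdr_ind (q / r q),
              Nat.log 2 (v q - 1)) = k), 2 ^ k.2.2 < v q ∧ v q ≤ 2 * 2 ^ k.2.2 := by
            intro q hq
            rw [(hk q hq).2.2]
            exact Bdr_log (hv2 q (hk q hq).1)
          have hVl : x ^ (yy δ κ ε + 4 * ε) ≤ 2 * ((2 ^ k.2.2 : ℕ) : ℝ) := by
            refine (hv q0 (hk q0 hq0).1).2.1.le.trans ?_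
            exact_mod_cast (hkv q0 hq0).2
          have hSl : x ^ (MT.sh δ κ ε + ε / 2) ≤ 2 * ((Bdr_val k.2.1 : ℕ) : ℝ) := by
            refine (hsl q0 (hk q0 hq0).1).le.trans ?_
            rw [(hk q0 hq0).2.1.2]
            exact_mod_cast (Bdr_iv (hs2 q0 (hk q0 hq0).1)).2.2.1
          rw [Bdr_img _ r G fun q hq => (hr q (hk q hq).1).2.1]
          refine (hT1 x T z A b M N (2 ^ k.1) (Bdr_val k.2.1) (2 ^ k.2.2) _ f g hxx1 hTau hz1 hzx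
            (hblk _ _ q0 (hk q0 hq0).1 (hk q0 hq0).2.1.1 (hk q0 hq0).2.1.2) hcase ?_ ?_
            (hpr _ _ _ (fun q hq => (hk q hq).1) fun q hq => (hk q hq).2.1) ?_ hf hg).trans ?_
          · exact hVl
          · refine le_trans ?_ (hv q0 (hk q0 hq0).1).2.2
            exact_mod_cast (hkv q0 hq0).1.le
          · intro w hw
            obtain ⟨q, hq, rfl⟩ := mem_image.1 hw
            exact ⟨⟨v q, (hv q (hk q hq).1).1, (hkv q hq).1, (hkv q hq).2⟩,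
              hr0 _ _ hVl hSl q (hk q hq).1⟩
          · exact hCx η1 C1 A1 (min_le_left _ _) hC1 (by linarith) (le_max_left _ _)
  rw [hsum]
  refine hmain.trans ?_
  have hJ := Bdr_Jle hx3
  have hlT : Real.log x ≤ T := by
    have h1 := log_le_T hx1.le hTau
    linarith
  have hJ2 : ((2 * (Nat.log 2 ⌊x⌋₊ + 1) : ℕ) : ℝ) ≤ 6 * T := hJ.trans (by linarith)
  have hJ3 : ((2 * (Nat.log 2 ⌊x⌋₊ + 1) : ℕ) : ℝ) ^ 3 ≤ (6 * T) ^ 3 :=
    pow_le_pow_left₀ (Nat.cast_nonneg _) hJ2 3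
  calc ((2 * (Nat.log 2 ⌊x⌋₊ + 1) : ℕ) : ℝ) ^ 3 * Bd (C1 + C2) (max A1 A2) (min η1 η2) x T z
      ≤ (6 * T) ^ 3 * Bd (C1 + C2) (max A1 A2) (min η1 η2) x T z :=
        mul_le_mul_of_nonneg_right hJ3 hB0
    _ = Bd (216 * (C1 + C2)) (max A1 A2 + 3) (min η1 η2) x T z := by
        unfold Bd
        rw [pow_add]
        ring

end Pool.Agent.Lib.MX
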