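import Pool.Agent.Lib.MX.Stm

/-!
MP_00e23e_nt, directory Lib/MX (THEOREM MI, version 11), module Bds: all blocks, classes depending on the modulus.
-/

namespace Pool.Agent.Lib.MX

open Finset Pool.Agent.Lib.EH3 Pool.Agent.Lib.TB Pool.Agent.Results.MP_00e23e_nt Pool.Agent.Lib.MI

theorem tBds (h1 : BdrStmt) (h2 : MK.FspStmt) : BdsStmt := by
  intro δ τ κ ω ε hP hω
  obtain ⟨η1, C1, x1, A1, hη1, hC1, hB⟩ := h1 δ τ κ ω ε hP hω
  refine ⟨η1, C1, max x1 1, A1 + 1, hη1, hC1, ?_⟩
  intro x T z a M N f g F t u hx hT hz hzx hNM hN hMN hMNx hf hg hF hCn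
  have hx1 : x1 ≤ x := (le_max_left _ _).trans hx
  have hx1' : 1 ≤ x := (le_max_right _ _).trans hx
  have hTx := Tau_x hx1' hT
  have hT1 : 1 ≤ T := hT.1
  have hTpos : 0 ≤ T := by linarith
  have hδ : 1 / 2 + δ ≤ 1 := by
    obtain ⟨p1, p2, p3, p4, p5⟩ := hP
    linarith
  have key := h2 F (fun q => (t q : ℤ)) (fun q => t q * u q) T (Bd C1 A1 η1 x T z)
    (fun q => ‖∑ m ∈ Ioc M (2 * M), ∑ n ∈ Ioc N (2 * N),
      f m * g n * Dl (a q) (t q * u q) (q / (t q * u q)) (m * n)‖) hTpos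
      (Bd_nonneg hC1 hT1 (by linarith) hz) ?_ ?_
  · refine key.trans (le_of_eq ?_)
    unfold Bd
    rw [pow_succ]
    ring
  · intro n
    rcases (F.filter (fun q => t q * u q = n)).eq_empty_or_nonempty with h | ⟨q0, hq0⟩
    · rw [h, Finset.image_empty, Finset.card_empty, Nat.cast_zero]
      exact hTpos
    · rw [Finset.mem_filter] at hq0
      obtain ⟨hq0F, hq0n⟩ := hq0
      obtain ⟨hMd, -, -, hDv⟩ := hF q0 hq0F
      have hq0pos : 0 < q0 := Nat.pos_of_ne_zero hMd.1.ne_zero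
      have hnq : n ∣ q0 := by
        rw [← hq0n]
        exact (Nat.mul_dvd_mul_left (t q0) hDv.1).trans (Nat.mul_div_cancel' hMd.2.1).dvd
      have hn1 : 1 ≤ n := Nat.pos_of_dvd_of_pos hnq hq0pos
      have hnx : (n : ℝ) ≤ x := by
        have a1 : (n : ℝ) ≤ q0 := by exact_mod_cast Nat.le_of_dvd hq0pos hnq
        have a2 : (q0 : ℝ) ≤ x ^ (1 / 2 + δ) := hMd.2.2.1
        have a3 := Real.rpow_le_rpow_of_exponent_le hx1' hδ
        rw [Real.rpow_one] at a3
        linarith
      refine le_trans ?_ (hTx.2.2 n hn1 hnx)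
      have hsub : (F.filter (fun q => t q * u q = n)).image (fun q => (t q : ℤ)) ⊆
          n.divisors.image (fun d : ℕ => (d : ℤ)) := by
        intro b hb
        obtain ⟨q, hq, rfl⟩ := Finset.mem_image.1 hb
        rw [Finset.mem_filter] at hq
        refine Finset.mem_image.2 ⟨t q, ?_, rfl⟩
        rw [Nat.mem_divisors]
        exact ⟨⟨u q, hq.2.symm⟩, by omega⟩
      exact_mod_cast (Finset.card_le_card hsub).trans Finset.card_image_le
  · intro G a' hGF ha'
    refine hB x T z a M N f g G t u hx1 hT hz hzx hNM hN hMN hMNx hf hg (fun q hq => hF q (hGF hq))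
      (fun q hq q' hq' h => ?_)
    have a1 := ha' q hq
    have a2 := ha' q' hq'
    have ht : t q = t q' := by
      rw [h, ← a2] at a1
      exact_mod_cast a1
    have htpos : 0 < t q := Nat.pos_of_ne_zero fun h0 => by
      have hMd := (hF q (hGF hq)).1
      have h5 := hMd.2.1
      rw [h0] at h5
      exact hMd.1.ne_zero (Nat.eq_zero_of_zero_dvd h5)
    have hu : u q = u q' := by
      rw [← ht] at h
      exact Nat.eq_of_mul_eq_mul_left htpos h
    exact ⟨ht, hCn q (hGF hq) q' (hGF hq') ht hu⟩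

end Pool.Agent.Lib.MX
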