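import Pool.Agent.Lib.MX.Stm

namespace Pool.Agent.Lib.MX

open Finset Pool.Agent.Lib.EH3 Pool.Agent.Lib.TB Pool.Agent.Results.MP_00e23e_nt Pool.Agent.Lib.MI

/-! MP_00e23e_nt, Lib/MX (version 11): module Fth (tFth : FthStmt), from Λ to the primes with weights log p. -/

private lemma Fth_Ek (a : ℤ) (t q n : ℕ) :
    ‖Ek a t q n‖ ≤ (if (q : ℤ) ∣ (n : ℤ) - a then (1 : ℝ) else 0) + 1 / ((q / t).totient : ℝ) := by
  have h0 : (0 : ℝ) ≤ 1 / ((q / t).totient : ℝ) := by positivity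
  unfold Ek
  refine (norm_sub_le _ _).trans (add_le_add ?_ ?_)
  · rw [dl_nonneg_norm]
  · split_ifs with h
    · rw [norm_mul, dl_nonneg_norm]
      have h1 : ‖(1 / ((q / t).totient : ℂ))‖ = 1 / ((q / t).totient : ℝ) := by
        rw [norm_div, norm_one, Complex.norm_natCast]
      rw [h1]
      split_ifs
      · rw [mul_one]
      · rw [mul_zero]
        exact h0
    · rw [norm_zero]
      exact h0

private lemma Fth_pt (F : Finset ℕ) (t : ℕ → ℕ) (a : ℕ → ℤ) (Y : ℕ) (G L : ℝ)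
    (hG : ∑ q ∈ F, ‖∑ n ∈ Icc 1 Y, (ArithmeticFunction.vonMangoldt n : ℂ) * Ek (a q) (t q) q n‖ ≤ G)
    (hL : ∑ n ∈ (Icc 1 Y).filter (fun n => ¬ n.Prime), ArithmeticFunction.vonMangoldt n ≤ L) :
    ∑ q ∈ F, ‖∑ p ∈ (Icc 1 Y).filter Nat.Prime, ((Real.log p : ℝ) : ℂ) * Ek (a q) (t q) q p‖ ≤
      G + (∑ q ∈ F, ∑ n ∈ (Icc 1 Y).filter (fun n => ¬ n.Prime),
        (if (q : ℤ) ∣ (n : ℤ) - a q then ArithmeticFunction.vonMangoldt n else 0)) +
        (∑ q ∈ F, 1 / ((q / t q).totient : ℝ)) * L := by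
  have hpt : ∀ q ∈ F, ‖∑ p ∈ (Icc 1 Y).filter Nat.Prime, ((Real.log p : ℝ) : ℂ) * Ek (a q) (t q) q p‖ ≤
      ‖∑ n ∈ Icc 1 Y, (ArithmeticFunction.vonMangoldt n : ℂ) * Ek (a q) (t q) q n‖ +
      (∑ n ∈ (Icc 1 Y).filter (fun n => ¬ n.Prime), ArithmeticFunction.vonMangoldt n *
        (if (q : ℤ) ∣ (n : ℤ) - a q then (1 : ℝ) else 0)) + 1 / ((q / t q).totient : ℝ) * L := by
    intro q _
    have e1 : ∑ p ∈ (Icc 1 Y).filter Nat.Prime, ((Real.log p : ℝ) : ℂ) * Ek (a q) (t q) q p =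
        (∑ n ∈ Icc 1 Y, (ArithmeticFunction.vonMangoldt n : ℂ) * Ek (a q) (t q) q n) -
        ∑ n ∈ (Icc 1 Y).filter (fun n => ¬ n.Prime), (ArithmeticFunction.vonMangoldt n : ℂ) * Ek (a q) (t q) q n := by
      rw [eq_sub_iff_add_eq, ← sum_filter_add_sum_filter_not (Icc 1 Y) Nat.Prime
        (fun n => (ArithmeticFunction.vonMangoldt n : ℂ) * Ek (a q) (t q) q n)]
      congr 1
      refine sum_congr rfl fun p hp => ?_
      rw [mem_filter] at hp
      rw [ArithmeticFunction.vonMangoldt_apply_prime hp.2]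
    rw [e1]
    refine (norm_sub_le _ _).trans ?_
    rw [add_assoc]
    refine add_le_add le_rfl ?_
    refine (norm_sum_le _ _).trans ?_
    have e2 : ∀ n ∈ (Icc 1 Y).filter (fun n => ¬ n.Prime),
        ‖(ArithmeticFunction.vonMangoldt n : ℂ) * Ek (a q) (t q) q n‖ ≤
        ArithmeticFunction.vonMangoldt n * (if (q : ℤ) ∣ (n : ℤ) - a q then (1 : ℝ) else 0) +
        1 / ((q / t q).totient : ℝ) * ArithmeticFunction.vonMangoldt n := by
      intro n _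
      have hL0 : 0 ≤ ArithmeticFunction.vonMangoldt n := ArithmeticFunction.vonMangoldt_nonneg
      rw [norm_mul, Complex.norm_real, Real.norm_of_nonneg hL0]
      have h1 := mul_le_mul_of_nonneg_left (Fth_Ek (a q) (t q) q n) hL0
      linarith [mul_comm (1 / ((q / t q).totient : ℝ)) (ArithmeticFunction.vonMangoldt n)]
    refine (sum_le_sum e2).trans ?_
    rw [sum_add_distrib, ← mul_sum]
    have h0 : (0 : ℝ) ≤ 1 / ((q / t q).totient : ℝ) := by positivity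
    have h2 := mul_le_mul_of_nonneg_left hL h0
    linarith
  refine (sum_le_sum hpt).trans ?_
  rw [sum_add_distrib, sum_add_distrib, ← sum_mul]
  have e3 : ∑ q ∈ F, ∑ n ∈ (Icc 1 Y).filter (fun n => ¬ n.Prime), ArithmeticFunction.vonMangoldt n *
        (if (q : ℤ) ∣ (n : ℤ) - a q then (1 : ℝ) else 0) =
      ∑ q ∈ F, ∑ n ∈ (Icc 1 Y).filter (fun n => ¬ n.Prime),
        (if (q : ℤ) ∣ (n : ℤ) - a q then ArithmeticFunction.vonMangoldt n else 0) := by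
    refine sum_congr rfl fun q _ => sum_congr rfl fun n _ => ?_
    split_ifs
    · rw [mul_one]
    · rw [mul_zero]
  rw [e3]
  linarith

private lemma Fth_num (T b : ℝ) (hT : 1 ≤ T) (hb : 0 ≤ b) :
    10 ^ 4 * (T * b) + 10 ^ 8 * (T * b ^ 2) ≤ 10 ^ 8 * (T ^ 2 * (1 + b) ^ 2) := by
  have h0 : 0 ≤ T := by linarith
  have h12 : T ≤ T ^ 2 := by
    rw [pow_two]
    exact le_mul_of_one_le_right h0 hT
  have h13 : T * (1 + b) ^ 2 ≤ T ^ 2 * (1 + b) ^ 2 := mul_le_mul_of_nonneg_right h12 (sq_nonneg _)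
  have h14 : 0 ≤ T * b := mul_nonneg h0 hb
  have h15 : T * (1 + b) ^ 2 = T + 2 * (T * b) + T * b ^ 2 := by ring
  rw [h15] at h13
  linarith

theorem tFth (h1 : MI.FtpStmt) (h2 : MI.FtnStmt) (hpwS : MK.FpwStmt) : FthStmt := by
  classical
  intro α τ κ σ ω hα hτ0 hτ hCore
  obtain ⟨η1, C1, x1, A1, hη1, hC10, hC⟩ := hCore
  obtain ⟨Cp, hCp0, hCp⟩ := h1
  refine ⟨min η1 (1 / 10), C1 + (10 ^ 4 * (1 + Cp) + 6 * 10 ^ 8 * Cp), max x1 3, A1 + 1, ?_, ?_, le_max_right _ _, ?_⟩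
  · exact lt_min hη1 (by norm_num)
  · positivity
  intro x T z a Y F t v hx hT hz hzx hYx hF hNst
  have hx1 : x1 ≤ x := le_trans (le_max_left _ _) hx
  have hx3 : 3 ≤ x := le_trans (le_max_right _ _) hx
  have hx0 : 0 ≤ x := by linarith
  have hxp : 0 < x := by linarith
  have hx1' : 1 ≤ x := by linarith
  have hTau : Tau x T := Tau_x hx1' hT
  have hT1 : 1 ≤ T := hT.1
  have hlogT : Real.log x ≤ T := by
    have h5 := hTau.2.1
    linarith
  -- powers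
  set E : ℝ := x ^ ((1 : ℝ) / 300) with hE
  have hE1 : 1 ≤ E := Real.one_le_rpow hx1' (by norm_num)
  have hE0 : 0 ≤ E := by linarith
  have hpw : ∀ (k : ℕ) (s : ℝ), s = (k : ℝ) / 300 → x ^ s = E ^ k := by
    intro k s hs
    rw [hE, ← Real.rpow_natCast, ← Real.rpow_mul hx0, hs]
    congr 1
    ring
  have p100 : x ^ ((1 : ℝ) / 100) = E ^ 3 := hpw 3 _ (by norm_num)
  have p12 : Real.sqrt x = E ^ 150 := by
    rw [Real.sqrt_eq_rpow]
    exact hpw 150 _ (by norm_num)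
  have p13 : x ^ ((1 : ℝ) / 3) = E ^ 100 := hpw 100 _ (by norm_num)
  have p35 : x ^ ((3 : ℝ) / 5) = E ^ 180 := hpw 180 _ (by norm_num)
  have p910 : x ^ (1 - (1 : ℝ) / 10) = E ^ 270 := hpw 270 _ (by norm_num)
  have hlog0 : 0 ≤ Real.log x := Real.log_nonneg hx1'
  have hlog : Real.log x ≤ 100 * E ^ 3 := by
    have h4 := Real.log_le_rpow_div hx0 (by norm_num : (0 : ℝ) < 1 / 100)
    rw [p100] at h4
    linarith
  have hlog2 : Real.log x ^ 2 ≤ 10 ^ 4 * E ^ 6 := by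
    have h4 := pow_le_pow_left₀ hlog0 hlog 2
    calc Real.log x ^ 2 ≤ (100 * E ^ 3) ^ 2 := h4
      _ = 10 ^ 4 * E ^ 6 := by ring
  -- the sum over the non-primes
  set N := (Icc 1 Y).filter (fun n => ¬ n.Prime) with hN
  set L : ℝ := Cp * (E ^ 150 * (10 ^ 4 * E ^ 6)) with hLdef
  have hL0 : 0 ≤ L := by positivity
  have hLam : ∑ n ∈ N, ArithmeticFunction.vonMangoldt n ≤ L := by
    refine (hCp Y).trans ?_
    rw [hLdef]
    refine mul_le_mul_of_nonneg_left ?_ hCp0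
    have hY0 : (0 : ℝ) ≤ Y := by positivity
    have hs : Real.sqrt Y ≤ E ^ 150 := by
      rw [← p12]
      exact Real.sqrt_le_sqrt hYx
    have hl : Real.log Y ^ 2 ≤ 10 ^ 4 * E ^ 6 := by
      refine le_trans ?_ hlog2
      have h4 : 0 ≤ Real.log Y := Real.log_natCast_nonneg Y
      refine pow_le_pow_left₀ h4 ?_ 2
      rcases Nat.eq_zero_or_pos Y with h0 | h0
      · rw [h0, Nat.cast_zero, Real.log_zero]
        exact hlog0
      · exact Real.log_le_log (by exact_mod_cast h0) hYx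
    exact mul_le_mul hs hl (by positivity) (by positivity)
  -- CoreStmt
  have hG := hC x T z a Y F t v hx1 hT hz hzx hYx hF hNst
  have key := Fth_pt F t a Y (Bd C1 A1 η1 x T z) L hG hLam
  have hD : (⌊x ^ ((3 : ℝ) / 5)⌋₊ : ℝ) ≤ E ^ 180 := by
    rw [← p35]
    exact Nat.floor_le (by positivity)
  have hfirst := hpwS x T L (fun q => a q) ⌊x ^ ((3 : ℝ) / 5)⌋₊ Y F N
    (fun n => ArithmeticFunction.vonMangoldt n) hTau hYx
    (by
      intro q hq
      have h5 := (hF q hq).1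
      refine ⟨Nat.one_le_iff_ne_zero.2 h5.1.ne_zero, Nat.le_floor ?_⟩
      exact h5.2.2.1.trans (Real.rpow_le_rpow_of_exponent_le hx1' hα))
    (filter_subset _ _) (fun n => ArithmeticFunction.vonMangoldt_nonneg)
    (by
      intro n hn
      rw [hN, mem_filter, mem_Icc] at hn
      refine ArithmeticFunction.vonMangoldt_le_log.trans (le_trans ?_ hlogT)
      refine Real.log_le_log (by exact_mod_cast hn.1.1) (le_trans ?_ hYx)
      exact_mod_cast hn.1.2)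
    hLam
  have hS : ∑ q ∈ F, ∑ n ∈ N, (if (q : ℤ) ∣ (n : ℤ) - a q then ArithmeticFunction.vonMangoldt n else 0) ≤
      10 ^ 4 * T * (1 + Cp) * E ^ 270 := by
    refine le_of_not_gt fun hlt => ?_
    have hK0 : 0 ≤ 10 ^ 4 * T * (1 + Cp) * E ^ 270 := by positivity
    have h5 := pow_lt_pow_left₀ hlt hK0 two_ne_zero
    refine absurd (h5.trans_le hfirst) (not_lt.2 ?_)
    have hT0 : 0 ≤ T := by linarith
    have h6 : (⌊x ^ ((3 : ℝ) / 5)⌋₊ : ℝ) * ((⌊x ^ ((3 : ℝ) / 5)⌋₊ : ℝ) * T * L + T * L ^ 2) ≤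
        E ^ 180 * (E ^ 180 * T * L + T * L ^ 2) := by
      gcongr
    refine h6.trans ?_
    have h7 : E ^ 180 * (E ^ 180 * T * L + T * L ^ 2) =
        10 ^ 4 * (T * Cp) * E ^ 516 + 10 ^ 8 * (T * Cp ^ 2) * E ^ 492 := by
      rw [hLdef]
      ring
    rw [h7]
    have h8 : E ^ 516 ≤ E ^ 540 := pow_le_pow_right₀ hE1 (by norm_num)
    have h9 : E ^ 492 ≤ E ^ 540 := pow_le_pow_right₀ hE1 (by norm_num)
    have h10 : 10 ^ 4 * (T * Cp) * E ^ 516 + 10 ^ 8 * (T * Cp ^ 2) * E ^ 492 ≤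
        (10 ^ 4 * (T * Cp) + 10 ^ 8 * (T * Cp ^ 2)) * E ^ 540 := by
      rw [add_mul]
      gcongr
    refine h10.trans ?_
    have h11 : (10 ^ 4 * T * (1 + Cp) * E ^ 270) ^ 2 = (10 ^ 8 * (T ^ 2 * (1 + Cp) ^ 2)) * E ^ 540 := by ring
    rw [h11]
    refine mul_le_mul_of_nonneg_right ?_ (by positivity)
    exact Fth_num T Cp hT1 hCp0
  -- the second part
  have hphi : ∑ q ∈ F, 1 / ((q / t q).totient : ℝ) ≤ 6 * (10 ^ 4 * E ^ 6) * E ^ 100 := by
    have h4 := h2.2 x (x ^ ((1 : ℝ) / 3)) F t (fun _ => 1) hx3 (fun _ => by norm_num) (by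
      intro d hd
      have h5 := (hF d hd).1
      refine ⟨Nat.one_le_iff_ne_zero.2 h5.1.ne_zero, h5.2.1, ?_, ?_⟩
      · calc (d : ℝ) ≤ x ^ α := h5.2.2.1
          _ ≤ x ^ (1 : ℝ) := Real.rpow_le_rpow_of_exponent_le hx1' (by linarith)
          _ = x := Real.rpow_one x
      · exact h5.2.2.2.1.trans (Real.rpow_le_rpow_of_exponent_le hx1' hτ))
    refine h4.trans ?_
    rw [sum_const, Nat.card_Icc, Nat.add_sub_cancel, nsmul_eq_mul, mul_one]
    have h6 : ((⌊x ^ ((1 : ℝ) / 3)⌋₊ : ℕ) : ℝ) ≤ E ^ 100 := by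
      rw [← p13]
      exact Nat.floor_le (by positivity)
    exact mul_le_mul (by linarith) h6 (by positivity) (by positivity)
  -- the powers of x
  have hB3 : (∑ q ∈ F, 1 / ((q / t q).totient : ℝ)) * L ≤ 6 * 10 ^ 8 * Cp * T * E ^ 270 := by
    calc (∑ q ∈ F, 1 / ((q / t q).totient : ℝ)) * L ≤ 6 * (10 ^ 4 * E ^ 6) * E ^ 100 * L :=
          mul_le_mul_of_nonneg_right hphi hL0
      _ = 6 * 10 ^ 8 * Cp * E ^ 262 := by
          rw [hLdef]
          ring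
      _ ≤ 6 * 10 ^ 8 * Cp * E ^ 270 :=
          mul_le_mul_of_nonneg_left (pow_le_pow_right₀ hE1 (by norm_num)) (by positivity)
      _ ≤ 6 * 10 ^ 8 * Cp * E ^ 270 * T := le_mul_of_one_le_right (by positivity) hT1
      _ = _ := by ring
  have hE270 : E ^ 270 ≤ x / z ^ min η1 (1 / 10) := by
    rw [← p910]
    refine (rp_le hz hzx (by norm_num)).trans ?_
    refine div_le_div_of_nonneg_left hx0 (Real.rpow_pos_of_pos (by linarith) _) ?_
    exact Real.rpow_le_rpow_of_exponent_le hz (min_le_right _ _)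
  have hcore : Bd C1 A1 η1 x T z ≤ Bd C1 (A1 + 1) (min η1 (1 / 10)) x T z :=
    Bd_mono hC10 le_rfl (Nat.le_succ _) (min_le_left _ _) hT1 hx0 hz
  have hTA : T ≤ T ^ (A1 + 1) := by
    rw [pow_succ]
    exact le_mul_of_one_le_left (by linarith) (one_le_pow₀ hT1)
  have hK : 0 ≤ 10 ^ 4 * (1 + Cp) + 6 * 10 ^ 8 * Cp := by positivity
  have hfin : (10 ^ 4 * (1 + Cp) + 6 * 10 ^ 8 * Cp) * (T * E ^ 270) ≤
      Bd (10 ^ 4 * (1 + Cp) + 6 * 10 ^ 8 * Cp) (A1 + 1) (min η1 (1 / 10)) x T z := by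
    have h20 : T * E ^ 270 ≤ T ^ (A1 + 1) * (x / z ^ min η1 (1 / 10)) :=
      mul_le_mul hTA hE270 (by positivity) (by positivity)
    have h21 := mul_le_mul_of_nonneg_left h20 hK
    unfold Bd
    exact h21.trans (le_of_eq (by ring))
  have hsum : Bd C1 (A1 + 1) (min η1 (1 / 10)) x T z +
      Bd (10 ^ 4 * (1 + Cp) + 6 * 10 ^ 8 * Cp) (A1 + 1) (min η1 (1 / 10)) x T z =
      Bd (C1 + (10 ^ 4 * (1 + Cp) + 6 * 10 ^ 8 * Cp)) (A1 + 1) (min η1 (1 / 10)) x T z := by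
    unfold Bd
    ring
  calc _ ≤ _ := key
    _ ≤ Bd C1 (A1 + 1) (min η1 (1 / 10)) x T z + 10 ^ 4 * T * (1 + Cp) * E ^ 270 +
        6 * 10 ^ 8 * Cp * T * E ^ 270 := by linarith
    _ = Bd C1 (A1 + 1) (min η1 (1 / 10)) x T z + (10 ^ 4 * (1 + Cp) + 6 * 10 ^ 8 * Cp) * (T * E ^ 270) := by ring
    _ ≤ Bd C1 (A1 + 1) (min η1 (1 / 10)) x T z +
        Bd (10 ^ 4 * (1 + Cp) + 6 * 10 ^ 8 * Cp) (A1 + 1) (min η1 (1 / 10)) x T z := by linarith
    _ = _ := hsum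

end Pool.Agent.Lib.MX
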