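import Pool.Agent.Lib.MX.StmE
import Pool.Agent.Lib.MX.Grd

/-!
MP_00e23e_nt, directory Lib/MX, module Gre: initial products of the smooth part.
-/

namespace Pool.Agent.Lib.MX

open Finset Pool.Agent.Lib.EH3 Pool.Agent.Lib.TB Pool.Agent.Results.MP_00e23e_nt Pool.Agent.Lib.MI

private lemma Gre_dvd_iff {p d : ℕ} (w : ℝ) (hd : d ≠ 0) (hp : p.Prime) :
    p ∣ Sp w d ↔ p ∣ d ∧ (p : ℝ) ≤ w := by
  unfold Sp
  rw [hp.prime.dvd_finsetProd_iff]
  constructor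
  · rintro ⟨q, hq, hpq⟩
    obtain ⟨hq1, hq2⟩ := mem_filter.1 hq
    have hqp : q.Prime := Nat.prime_of_mem_primeFactors hq1
    have h := (Nat.prime_dvd_prime_iff_eq hp hqp).1 hpq
    subst h
    exact ⟨Nat.dvd_of_mem_primeFactors hq1, hq2⟩
  · rintro ⟨h1, h2⟩
    exact ⟨p, mem_filter.2 ⟨Nat.mem_primeFactors.2 ⟨hp, h1, hd⟩, h2⟩, dvd_rfl⟩

private lemma Gre_dvd (w : ℝ) {d : ℕ} (hd : Squarefree d) : Sp w d ∣ d := by
  have h : Sp w d ∣ ∏ p ∈ d.primeFactors, p :=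
    Finset.prod_dvd_prod_of_subset _ _ _ (Finset.filter_subset _ _)
  rwa [Nat.prod_primeFactors_of_squarefree hd] at h

private lemma Gre_ini (w : ℝ) {n : ℕ} (hn : Squarefree n) : Ini (Sp w n) n := by
  have hd := Gre_dvd w hn
  refine ⟨hd, fun p q hp hq hpr hqn => ?_⟩
  have h1 : (p : ℝ) ≤ w := ((Gre_dvd_iff w hn.ne_zero hp).1 hpr).2
  have hqn' : q ∣ n := hqn.trans (Nat.div_dvd_of_dvd hd)
  have h2 : ¬ q ∣ Sp w n := by
    intro hqr
    have h3 : q * q ∣ n := by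
      rw [← Nat.mul_div_cancel' hd]
      exact mul_dvd_mul hqr hqn
    exact hq.one_lt.ne' (Nat.isUnit_iff.1 (hn q h3))
  have h3 : w < q := by
    by_contra hcon
    rw [not_lt] at hcon
    exact h2 ((Gre_dvd_iff w hn.ne_zero hq).2 ⟨hqn', hcon⟩)
  exact_mod_cast h1.trans_lt h3

theorem tGre : GreStmt := by
  intro x κ ω w Z m n hx hκ hsq hs h1 h2 h3
  have hm : 0 < m := Nat.pos_of_ne_zero (left_ne_zero_of_mul hsq.ne_zero)
  have hm' : (0 : ℝ) < m := by exact_mod_cast hm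
  have hn : Squarefree n := hsq.of_mul_right
  obtain ⟨v, w', e1, e2, e3, e4, e5, e6⟩ := tGrd.1 x κ ω w (Z / m) n hx hκ hn hs
    (by rw [le_div_iff₀ hm']; linarith) (by rw [div_lt_iff₀ hm']; linarith)
  have e3' : (m : ℝ) * ((Sp w n : ℝ) * v) ≤ Z := by
    rw [le_div_iff₀ hm'] at e3
    linarith
  have e4' : Z < (m : ℝ) * ((Sp w n : ℝ) * v * x ^ κ) := by
    rw [div_lt_iff₀ hm'] at e4
    linarith
  have hassoc : m * Sp w n * v = m * (Sp w n * v) := mul_assoc _ _ _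
  refine ⟨v, Sp w' n, Gre_ini w' hn, by rw [hassoc, e1], ?_, ?_, ?_, ?_, ?_⟩
  · rwa [Nat.mul_div_mul_left _ _ hm]
  · push_cast
    linarith
  · push_cast
    linarith
  · rw [hassoc]
    intro W hW1 hWx _
    by_cases hW : W ≤ ((Sp w n * v : ℕ) : ℝ)
    · obtain ⟨e, he1, he2, he3⟩ := e5 W hW1 hWx hW
      exact ⟨e, he1.trans (dvd_mul_left _ _), he2, he3⟩
    · refine ⟨Sp w n * v, dvd_mul_left _ _, (not_le.1 hW).le, ?_⟩
      have h4 : (m : ℝ) * x ^ ω < (m : ℝ) * ((Sp w n : ℝ) * v * x ^ κ) := lt_of_le_of_lt h3 e4'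
      have h5 : x ^ ω < (Sp w n : ℝ) * v * x ^ κ := lt_of_mul_lt_mul_left h4 hm'.le
      push_cast
      linarith
  · rw [hassoc, Nat.mul_div_mul_left _ _ hm]
    exact e6

end Pool.Agent.Lib.MX
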