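import Pool.Agent.Lib.MX.Stm

/-!
# Upper bounds of Mertens type
-/

namespace Pool.Agent.Lib.MX
open Finset Pool.Agent.Lib.EH3 Pool.Agent.Lib.TB Pool.Agent.Results.MP_00e23e_nt Pool.Agent.Lib.MI

private lemma Mer_split (f : ℕ → ℝ) (J : ℕ) :
    ∑ p ∈ (Icc 1 (2 ^ (J + 1))).filter Nat.Prime, f p = ∑ p ∈ (Icc 1 (2 ^ J)).filter Nat.Prime, f p +
      ∑ p ∈ (Ioc (2 ^ J) (2 ^ (J + 1))).filter Nat.Prime, f p := by
  rw [← sum_union]
  · congr 1
    ext p
    simp only [mem_filter, mem_Icc, mem_Ioc, mem_union]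
    have h : (2 : ℕ) ^ J ≤ 2 ^ (J + 1) := Nat.pow_le_pow_right (by norm_num) (by omega)
    constructor
    · rintro ⟨⟨h1, h2⟩, h3⟩
      rcases le_or_gt p (2 ^ J) with h4 | h4
      · exact Or.inl ⟨⟨h1, h4⟩, h3⟩
      · exact Or.inr ⟨⟨h4, h2⟩, h3⟩
    · rintro (⟨⟨h1, h2⟩, h3⟩ | ⟨⟨h1, h2⟩, h3⟩)
      · exact ⟨⟨h1, h2.trans h⟩, h3⟩
      · exact ⟨⟨h3.one_lt.le, h2⟩, h3⟩
  · rw [disjoint_left]
    intro p hp hp'
    simp only [mem_filter, mem_Icc, mem_Ioc] at hp hp'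
    omega

private lemma Mer_dy (J : ℕ) :
    ∑ p ∈ (Ioc (2 ^ J) (2 ^ (J + 1))).filter Nat.Prime, Real.log p / ((p : ℝ) - 1) ≤ 3 := by
  have hJ : (0 : ℝ) < 2 ^ J := by positivity
  have h1 : ∀ p ∈ (Ioc (2 ^ J) (2 ^ (J + 1))).filter Nat.Prime, Real.log p / ((p : ℝ) - 1) ≤ Real.log p / 2 ^ J := by
    intro p hp
    simp only [mem_filter, mem_Ioc] at hp
    have h2 : ((2 : ℝ) ^ J) + 1 ≤ p := by exact_mod_cast hp.1.1
    exact div_le_div_of_nonneg_left (Real.log_natCast_nonneg p) hJ (by linarith)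
  have h3 : ∑ p ∈ (Ioc (2 ^ J) (2 ^ (J + 1))).filter Nat.Prime, Real.log p ≤ Real.log 4 * 2 ^ (J + 1) := by
    have h4 := Chebyshev.theta_le_log4_mul_x (x := ((2 ^ (J + 1) : ℕ) : ℝ)) (by positivity)
    rw [Chebyshev.theta_eq_sum_Icc, Nat.floor_natCast] at h4
    refine le_trans (sum_le_sum_of_subset_of_nonneg ?_ fun i _ _ => Real.log_natCast_nonneg i) (h4.trans_eq (by push_cast; rfl))
    intro p hp
    simp only [mem_filter, mem_Ioc, mem_Icc] at hp ⊢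
    exact ⟨⟨by omega, hp.1.2⟩, hp.2⟩
  have h5 : Real.log 4 = 2 * Real.log 2 := by
    rw [show (4 : ℝ) = 2 ^ 2 by norm_num, Real.log_pow]
    norm_num
  have h6 := Real.log_two_lt_d9
  calc ∑ p ∈ (Ioc (2 ^ J) (2 ^ (J + 1))).filter Nat.Prime, Real.log p / ((p : ℝ) - 1)
      ≤ ∑ p ∈ (Ioc (2 ^ J) (2 ^ (J + 1))).filter Nat.Prime, Real.log p / 2 ^ J := sum_le_sum h1
    _ = (∑ p ∈ (Ioc (2 ^ J) (2 ^ (J + 1))).filter Nat.Prime, Real.log p) / 2 ^ J := by rw [sum_div]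
    _ ≤ (Real.log 4 * 2 ^ (J + 1)) / 2 ^ J := div_le_div_of_nonneg_right h3 hJ.le
    _ = 4 * Real.log 2 := by
      rw [h5, pow_succ]
      field_simp
      ring
    _ ≤ 3 := by linarith

private lemma Mer_dy1 (J : ℕ) (hJ : 1 ≤ J) :
    ∑ p ∈ (Ioc (2 ^ J) (2 ^ (J + 1))).filter Nat.Prime, 1 / ((p : ℝ) - 1) ≤ 5 * (J : ℝ)⁻¹ := by
  have hJ' : (1 : ℝ) ≤ J := by exact_mod_cast hJ
  have h6 := Real.log_two_gt_d9
  have hl : 0 < (J : ℝ) * Real.log 2 := by positivity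
  have h1 : ∀ p ∈ (Ioc (2 ^ J) (2 ^ (J + 1))).filter Nat.Prime,
      1 / ((p : ℝ) - 1) ≤ (1 / (J * Real.log 2)) * (Real.log p / ((p : ℝ) - 1)) := by
    intro p hp
    simp only [mem_filter, mem_Ioc] at hp
    have h2 : ((2 : ℝ) ^ J) + 1 ≤ p := by exact_mod_cast hp.1.1
    have h3 : (0 : ℝ) < 2 ^ J := by positivity
    have h4 : (J : ℝ) * Real.log 2 ≤ Real.log p := by
      rw [← Real.log_pow]
      exact Real.log_le_log h3 (by linarith)
    have h5 : 0 < (p : ℝ) - 1 := by linarith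
    rw [div_mul_div_comm, one_mul, div_le_div_iff₀ h5 (by positivity)]
    nlinarith
  calc ∑ p ∈ (Ioc (2 ^ J) (2 ^ (J + 1))).filter Nat.Prime, 1 / ((p : ℝ) - 1)
      ≤ ∑ p ∈ (Ioc (2 ^ J) (2 ^ (J + 1))).filter Nat.Prime, (1 / (J * Real.log 2)) * (Real.log p / ((p : ℝ) - 1)) :=
        sum_le_sum h1
    _ = (1 / (J * Real.log 2)) * ∑ p ∈ (Ioc (2 ^ J) (2 ^ (J + 1))).filter Nat.Prime, Real.log p / ((p : ℝ) - 1) := by
        rw [mul_sum]
    _ ≤ (1 / (J * Real.log 2)) * 3 := mul_le_mul_of_nonneg_left (Mer_dy J) (by positivity)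
    _ ≤ 5 * (J : ℝ)⁻¹ := by
      rw [div_mul_eq_mul_div, ← div_eq_mul_inv, div_le_div_iff₀ hl (by linarith)]
      nlinarith

private lemma Mer_s2 (J : ℕ) :
    ∑ p ∈ (Icc 1 (2 ^ J)).filter Nat.Prime, Real.log p / ((p : ℝ) - 1) ≤ 3 * J := by
  induction J with
  | zero =>
    have : (Icc 1 (2 ^ 0)).filter Nat.Prime = ∅ := by decide
    rw [this]
    simp
  | succ J ih =>
    rw [Mer_split]
    have := Mer_dy J
    push_cast
    linarith

private lemma Mer_s1 (J : ℕ) :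
    ∑ p ∈ (Icc 1 (2 ^ (J + 1))).filter Nat.Prime, 1 / ((p : ℝ) - 1) ≤ 1 + 5 * ((harmonic J : ℚ) : ℝ) := by
  induction J with
  | zero =>
    have : (Icc 1 (2 ^ (0 + 1))).filter Nat.Prime = {2} := by decide
    rw [this]
    simp
    norm_num
  | succ J ih =>
    rw [Mer_split]
    have := Mer_dy1 (J + 1) (by omega)
    rw [harmonic_succ]
    push_cast at this ⊢
    linarith

theorem tMer : MerStmt := by
  refine ⟨12, by norm_num, fun w hw => ?_⟩
  set N := ⌊w⌋₊ with hN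
  have hN3 : 3 ≤ N := Nat.le_floor (by exact_mod_cast hw)
  have hNw : (N : ℝ) ≤ w := Nat.floor_le (by linarith)
  have hc : 0 < Nat.clog 2 N := Nat.clog_pos (by norm_num) (by omega)
  obtain ⟨J, hJ⟩ : ∃ J, Nat.clog 2 N = J + 1 := ⟨Nat.clog 2 N - 1, by omega⟩
  have h1 : N ≤ 2 ^ (J + 1) := by
    rw [← hJ]
    exact Nat.le_pow_clog (by norm_num) N
  have h2 : 2 ^ J < N := by
    have := Nat.pow_pred_clog_lt_self (b := 2) (by norm_num) (x := N) (by omega)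
    rw [hJ] at this
    exact this
  have hJ1 : 1 ≤ J := by
    by_contra h
    have : J = 0 := by omega
    subst this
    norm_num at h1
    omega
  have hlw : 1 ≤ Real.log w := by
    rw [Real.le_log_iff_exp_le (by linarith)]
    have := Real.exp_one_lt_d9
    linarith
  have h3 : (J : ℝ) * Real.log 2 ≤ Real.log w := by
    rw [← Real.log_pow]
    refine Real.log_le_log (by positivity) (le_trans ?_ hNw)
    exact_mod_cast h2.le
  have h6 := Real.log_two_gt_d9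
  have h4 : (J : ℝ) ≤ 2 * Real.log w := by
    have : (0 : ℝ) ≤ J := Nat.cast_nonneg J
    nlinarith
  have hsub : (Icc 1 N).filter Nat.Prime ⊆ (Icc 1 (2 ^ (J + 1))).filter Nat.Prime :=
    filter_subset_filter _ (Icc_subset_Icc_right h1)
  have hp1 : ∀ p ∈ (Icc 1 (2 ^ (J + 1))).filter Nat.Prime, (0 : ℝ) < (p : ℝ) - 1 := by
    intro p hp
    have : 1 < p := (mem_filter.1 hp).2.one_lt
    have : (1 : ℝ) < p := by exact_mod_cast this
    linarith
  have hll : 0 ≤ Real.log (Real.log w) := Real.log_nonneg hlw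
  constructor
  · refine (sum_le_sum_of_subset_of_nonneg hsub fun p hp _ => (div_pos one_pos (hp1 p hp)).le).trans ?_
    refine (Mer_s1 J).trans ?_
    have h7 := harmonic_le_one_add_log J
    have h8 : Real.log J ≤ Real.log 2 + Real.log (Real.log w) := by
      rw [← Real.log_mul (by norm_num) (by linarith)]
      exact Real.log_le_log (by exact_mod_cast hJ1) h4
    have h9 := Real.log_two_lt_d9
    linarith
  · refine (sum_le_sum_of_subset_of_nonneg hsub fun p hp _ => div_nonneg (Real.log_natCast_nonneg p) (hp1 p hp).le).trans ?_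
    refine (Mer_s2 (J + 1)).trans ?_
    push_cast
    linarith

end Pool.Agent.Lib.MX
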