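import Pool.Agent.Lib.MX.StmE

/-! MP_00e23e_nt, Lib/MX, module Rae (helper61): the method of Rankin. -/

namespace Pool.Agent.Lib.MX

open Finset Pool.Agent.Lib.EH3 Pool.Agent.Lib.TB Pool.Agent.Results.MP_00e23e_nt Pool.Agent.Lib.MI

private lemma Rae_tot (n : ℕ) (hn : Squarefree n) : (n.totient : ℝ) = ∏ p ∈ n.primeFactors, ((p : ℝ) - 1) := by
  have h1 := Nat.totient_mul_prod_primeFactors n
  rw [Nat.prod_primeFactors_of_squarefree hn, mul_comm] at h1
  have h2 := Nat.eq_of_mul_eq_mul_left (Nat.pos_of_ne_zero hn.ne_zero) h1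
  rw [h2, Nat.cast_prod]
  refine Finset.prod_congr rfl fun p hp => ?_
  rw [Nat.cast_sub (Nat.prime_of_mem_primeFactors hp).one_le, Nat.cast_one]

private lemma Rae_sum (w ν : ℝ) (F : Finset ℕ)
    (hF : ∀ n ∈ F, Squarefree n ∧ ∀ p : ℕ, p.Prime → p ∣ n → (p : ℝ) ≤ w) :
    ∑ n ∈ F, (n : ℝ) ^ ν / (n.totient : ℝ) ≤
      ∏ p ∈ (Icc 1 ⌊w⌋₊).filter Nat.Prime, (1 + (p : ℝ) ^ ν / ((p : ℝ) - 1)) := by
  classical
  rw [Finset.prod_one_add]
  have h1 : ∀ n ∈ F, (n : ℝ) ^ ν / (n.totient : ℝ) =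
      ∏ p ∈ n.primeFactors, ((p : ℝ) ^ ν / ((p : ℝ) - 1)) := by
    intro n hn
    rw [Finset.prod_div_distrib, ← Rae_tot n (hF n hn).1]
    congr 1
    conv_lhs => rw [← Nat.prod_primeFactors_of_squarefree (hF n hn).1]
    rw [Nat.cast_prod, Real.finsetProd_rpow _ _ fun i _ => Nat.cast_nonneg i]
  rw [Finset.sum_congr rfl h1]
  have hinj : Set.InjOn Nat.primeFactors (F : Set ℕ) := by
    intro n hn n' hn' h
    rw [← Nat.prod_primeFactors_of_squarefree (hF n hn).1,
      ← Nat.prod_primeFactors_of_squarefree (hF n' hn').1, h]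
  rw [← Finset.sum_image (f := fun S : Finset ℕ => ∏ p ∈ S, ((p : ℝ) ^ ν / ((p : ℝ) - 1))) hinj]
  refine Finset.sum_le_sum_of_subset_of_nonneg ?_ ?_
  · intro S hS
    obtain ⟨n, hn, rfl⟩ := Finset.mem_image.1 hS
    rw [Finset.mem_powerset]
    intro p hp
    have hpp := Nat.prime_of_mem_primeFactors hp
    have h2 := (hF n hn).2 p hpp (Nat.dvd_of_mem_primeFactors hp)
    rw [Finset.mem_filter, Finset.mem_Icc]
    exact ⟨⟨hpp.one_le, Nat.le_floor h2⟩, hpp⟩
  · intro S hS _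
    rw [Finset.mem_powerset] at hS
    refine Finset.prod_nonneg fun p hp => ?_
    have hpp := (Finset.mem_filter.1 (hS hp)).2
    have h3 : (1 : ℝ) ≤ p := by exact_mod_cast hpp.one_le
    exact div_nonneg (Real.rpow_nonneg (by linarith) _) (by linarith)

private lemma Rae_conv (c θ : ℝ) (h0 : 0 ≤ θ) (h1 : θ ≤ 1) :
    Real.exp (θ * c) ≤ 1 + (Real.exp c - 1) * θ := by
  have h := convexOn_exp.2 (Set.mem_univ 0) (Set.mem_univ c) (show 0 ≤ 1 - θ by linarith) h0 (by ring)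
  simp only [smul_eq_mul, mul_zero, zero_add, Real.exp_zero, mul_one] at h
  linarith

/-- the product over the primes up to `w` -/
private lemma Rae_prod (C0 w c : ℝ) (hc : 0 ≤ c) (hw : 3 ≤ w)
    (h1 : ∑ p ∈ (Icc 1 ⌊w⌋₊).filter Nat.Prime, 1 / ((p : ℝ) - 1) ≤ C0 * (1 + Real.log (Real.log w)))
    (h2 : ∑ p ∈ (Icc 1 ⌊w⌋₊).filter Nat.Prime, Real.log p / ((p : ℝ) - 1) ≤ C0 * Real.log w) :
    ∏ p ∈ (Icc 1 ⌊w⌋₊).filter Nat.Prime, (1 + (p : ℝ) ^ (c / Real.log w) / ((p : ℝ) - 1)) ≤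
      Real.exp (C0 * Real.exp c + C0 * Real.log (Real.log w)) := by
  have hlw : 0 < Real.log w := Real.log_pos (by linarith)
  have hpr : ∀ p ∈ (Icc 1 ⌊w⌋₊).filter Nat.Prime, (2 : ℝ) ≤ p ∧ (p : ℝ) ≤ w := by
    intro p hp
    obtain ⟨ha, hb⟩ := Finset.mem_filter.1 hp
    refine ⟨by exact_mod_cast hb.two_le, ?_⟩
    exact (Nat.le_floor_iff (by linarith)).1 (Finset.mem_Icc.1 ha).2
  have hterm : ∀ p ∈ (Icc 1 ⌊w⌋₊).filter Nat.Prime, (p : ℝ) ^ (c / Real.log w) / ((p : ℝ) - 1) ≤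
      1 / ((p : ℝ) - 1) + (Real.exp c - 1) / Real.log w * (Real.log p / ((p : ℝ) - 1)) := by
    intro p hp
    obtain ⟨ha, hb⟩ := hpr p hp
    have hp0 : (0 : ℝ) < p := by linarith
    have hp1 : (0 : ℝ) < (p : ℝ) - 1 := by linarith
    have e1 : (p : ℝ) ^ (c / Real.log w) = Real.exp ((Real.log p / Real.log w) * c) := by
      rw [Real.rpow_def_of_pos hp0]
      congr 1
      ring
    have e2 : Real.exp ((Real.log p / Real.log w) * c) ≤
        1 + (Real.exp c - 1) * (Real.log p / Real.log w) :=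
      Rae_conv c _ (div_nonneg (Real.log_nonneg (by linarith)) hlw.le)
        ((div_le_one hlw).2 (Real.log_le_log hp0 hb))
    rw [e1]
    calc Real.exp ((Real.log p / Real.log w) * c) / ((p : ℝ) - 1)
        ≤ (1 + (Real.exp c - 1) * (Real.log p / Real.log w)) / ((p : ℝ) - 1) :=
          div_le_div_of_nonneg_right e2 hp1.le
      _ = 1 / ((p : ℝ) - 1) + (Real.exp c - 1) / Real.log w * (Real.log p / ((p : ℝ) - 1)) := by
          field_simp
  calc ∏ p ∈ (Icc 1 ⌊w⌋₊).filter Nat.Prime, (1 + (p : ℝ) ^ (c / Real.log w) / ((p : ℝ) - 1))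
      ≤ ∏ p ∈ (Icc 1 ⌊w⌋₊).filter Nat.Prime, Real.exp ((p : ℝ) ^ (c / Real.log w) / ((p : ℝ) - 1)) := by
        refine Finset.prod_le_prod ?_ ?_
        · intro p hp
          obtain ⟨ha, hb⟩ := hpr p hp
          have : 0 ≤ (p : ℝ) ^ (c / Real.log w) / ((p : ℝ) - 1) :=
            div_nonneg (Real.rpow_nonneg (by linarith) _) (by linarith)
          linarith
        · intro p hp
          have := Real.add_one_le_exp ((p : ℝ) ^ (c / Real.log w) / ((p : ℝ) - 1))
          linarith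
    _ = Real.exp (∑ p ∈ (Icc 1 ⌊w⌋₊).filter Nat.Prime, (p : ℝ) ^ (c / Real.log w) / ((p : ℝ) - 1)) :=
        (Real.exp_sum _ _).symm
    _ ≤ Real.exp (C0 * Real.exp c + C0 * Real.log (Real.log w)) := by
        apply Real.exp_le_exp.2
        refine (Finset.sum_le_sum hterm).trans ?_
        rw [Finset.sum_add_distrib, ← Finset.mul_sum]
        have hk : 0 ≤ (Real.exp c - 1) / Real.log w := by
          have := Real.add_one_le_exp c
          exact div_nonneg (by linarith) hlw.le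
        have e3 := mul_le_mul_of_nonneg_left h2 hk
        have e4 : (Real.exp c - 1) / Real.log w * (C0 * Real.log w) = C0 * (Real.exp c - 1) := by
          field_simp
        rw [e4] at e3
        linarith

theorem tRae (h1 : MerStmt) : RaeStmt := by
  obtain ⟨C0, hC0, hM⟩ := h1
  intro e A U he hA hU
  set c : ℝ := A * (U + C0) / e with hc
  have hc0 : 0 ≤ c := by positivity
  set L0 : ℝ := max (Real.exp (max A 1)) (16 / A ^ 2) with hL0
  refine ⟨Real.exp (C0 * Real.exp c), max 3 (Real.exp L0), (Real.exp_pos _).le, le_max_left _ _, ?_⟩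
  intro x F hx hF
  have hx3 : 3 ≤ x := (le_max_left _ _).trans hx
  have hx0 : 0 < x := by linarith
  set L := Real.log x with hL
  have hLL : L0 ≤ L := (Real.le_log_iff_exp_le hx0).2 ((le_max_right _ _).trans hx)
  have hL1 : Real.exp (max A 1) ≤ L := (le_max_left _ _).trans hLL
  have hL2 : 16 / A ^ 2 ≤ L := (le_max_right _ _).trans hLL
  have hLpos : 0 < L := (Real.exp_pos _).trans_le hL1
  set l := Real.log L with hl
  have hl1 : max A 1 ≤ l := (Real.le_log_iff_exp_le hLpos).2 hL1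
  have hlA : A ≤ l := (le_max_left _ _).trans hl1
  have hl1' : 1 ≤ l := (le_max_right _ _).trans hl1
  have hlpos : 0 < l := by linarith
  have hw : En A x = Real.exp (A * L / l) := rfl
  set w := En A x with hwd
  have hlw : Real.log w = A * L / l := by rw [hw, Real.log_exp]
  have hlw2 : 2 ≤ A * L / l := by
    have e1 : l ≤ 2 * Real.sqrt L := by
      have e2 := Real.log_le_rpow_div hLpos.le (show (0 : ℝ) < 1 / 2 by norm_num)
      rw [← Real.sqrt_eq_rpow] at e2
      calc l ≤ Real.sqrt L / (1 / 2) := e2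
        _ = 2 * Real.sqrt L := by ring
    have e3 : 4 ≤ A * Real.sqrt L := by
      have e4 : (4 / A) ^ 2 ≤ L := by
        have e5 : (4 / A) ^ 2 = 16 / A ^ 2 := by
          rw [div_pow]
          norm_num
        rw [e5]
        exact hL2
      have e6 : 4 / A ≤ Real.sqrt L := Real.le_sqrt_of_sq_le e4
      rwa [div_le_iff₀ hA, mul_comm] at e6
    rw [le_div_iff₀ hlpos]
    have e7 : Real.sqrt L * Real.sqrt L = L := Real.mul_self_sqrt hLpos.le
    have e8 : 0 ≤ Real.sqrt L := Real.sqrt_nonneg _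
    calc 2 * l ≤ 4 * Real.sqrt L := by linarith
      _ ≤ (A * Real.sqrt L) * Real.sqrt L := mul_le_mul_of_nonneg_right e3 e8
      _ = A * L := by rw [mul_assoc, e7]
  have hw3 : 3 ≤ w := by
    have e1 := Real.add_one_le_exp (A * L / l)
    rw [← hw] at e1
    linarith
  have hw0 : 0 < w := by linarith
  have hlwL : Real.log w ≤ L := by
    rw [hlw, div_le_iff₀ hlpos, mul_comm L]
    exact mul_le_mul_of_nonneg_right hlA hLpos.le
  have hlwpos : 0 < Real.log w := by rw [hlw]; linarith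
  obtain ⟨m1, m2⟩ := hM w hw3
  have hprod := Rae_prod C0 w c hc0 hw3 m1 m2
  have hll : Real.log (Real.log w) ≤ l := Real.log_le_log hlwpos hlwL
  set ν : ℝ := c / Real.log w with hν
  have hν0 : 0 ≤ ν := div_nonneg hc0 hlwpos.le
  have hsum := Rae_sum w ν F (fun n hn => ⟨(hF n hn).1, (hF n hn).2.2⟩)
  have hX : 0 < x ^ e := Real.rpow_pos_of_pos hx0 _
  have hXν : 0 < (x ^ e) ^ ν := Real.rpow_pos_of_pos hX _
  have hstep : ∑ n ∈ F, 1 / (n.totient : ℝ) ≤
      ((x ^ e) ^ ν)⁻¹ * ∑ n ∈ F, (n : ℝ) ^ ν / (n.totient : ℝ) := by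
    rw [Finset.mul_sum]
    refine Finset.sum_le_sum fun n hn => ?_
    obtain ⟨a1, a2, a3⟩ := hF n hn
    have e1 : (x ^ e) ^ ν ≤ (n : ℝ) ^ ν := Real.rpow_le_rpow hX.le a2.le hν0
    have e2 : 1 ≤ ((x ^ e) ^ ν)⁻¹ * (n : ℝ) ^ ν := by
      rw [← div_eq_inv_mul, le_div_iff₀ hXν, one_mul]
      exact e1
    rw [← mul_div_assoc]
    exact div_le_div_of_nonneg_right e2 (Nat.cast_nonneg _)
  have hLU : 0 < L ^ U := Real.rpow_pos_of_pos hLpos _
  calc ∑ n ∈ F, 1 / (n.totient : ℝ)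
      ≤ ((x ^ e) ^ ν)⁻¹ * Real.exp (C0 * Real.exp c + C0 * l) := by
        refine hstep.trans (mul_le_mul_of_nonneg_left (hsum.trans (hprod.trans ?_)) (by positivity))
        apply Real.exp_le_exp.2
        have := mul_le_mul_of_nonneg_left hll hC0
        linarith
    _ = Real.exp (C0 * Real.exp c) / L ^ U := by
        have e1 : (x ^ e) ^ ν = Real.exp ((U + C0) * l) := by
          rw [← Real.rpow_mul hx0.le, Real.rpow_def_of_pos hx0]
          congr 1
          rw [hν, hlw, hc, ← hL]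
          field_simp
        rw [e1, Real.rpow_def_of_pos hLpos, ← Real.exp_neg, ← Real.exp_add, ← Real.exp_sub]
        congr 1
        rw [← hl]
        ring

end Pool.Agent.Lib.MX
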