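import Pool.Agent.Lib.MX.Stm

namespace Pool.Agent.Lib.MX

open Finset Pool.Agent.Lib.EH3 Pool.Agent.Lib.TB Pool.Agent.Results.MP_00e23e_nt Pool.Agent.Lib.MI

private lemma Wig_prod {n : ℕ} (hn : 1 ≤ n) {w B : ℝ} (hw : 1 < w) (hB' : 1 + Real.log n / Real.log 2 ≤ B) :
    (n.divisors.card : ℝ) ≤ B ^ w * (n : ℝ) ^ (Real.log 2 / Real.log w) := by
  have hl2 : 0 < Real.log 2 := Real.log_pos (by norm_num)
  have hlw : 0 < Real.log w := Real.log_pos hw
  have hn1 : (1 : ℝ) ≤ n := by exact_mod_cast hn
  have hB : 1 ≤ B := by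
    have : 0 ≤ Real.log n / Real.log 2 := div_nonneg (Real.log_nonneg hn1) hl2.le
    linarith
  set c : ℝ := Real.log 2 / Real.log w with hc
  have hc0 : 0 < c := div_pos hl2 hlw
  have hcw : c * Real.log w = Real.log 2 := by
    rw [hc]
    field_simp
  rw [Nat.card_divisors (by omega)]
  push_cast
  have key : ∀ p ∈ n.primeFactors, ((n.factorization p : ℝ) + 1) ≤
      (if (p : ℝ) ≤ w then B else 1) * (((p : ℝ) ^ (n.factorization p)) ^ c) := by
    intro p hp
    have hpp : p.Prime := Nat.prime_of_mem_primeFactors hp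
    have hp1 : (1 : ℝ) < p := by exact_mod_cast hpp.one_lt
    have hp2 : (2 : ℝ) ≤ p := by exact_mod_cast hpp.two_le
    have hpa : (1 : ℝ) ≤ (p : ℝ) ^ (n.factorization p) := one_le_pow₀ hp1.le
    split_ifs with h
    · have h1 : ((n.factorization p : ℕ) : ℝ) ≤ Real.log n / Real.log 2 := by
        rw [le_div_iff₀ hl2]
        have h2 : (2 : ℝ) ^ (n.factorization p) ≤ n := by
          calc (2 : ℝ) ^ (n.factorization p) ≤ (p : ℝ) ^ (n.factorization p) := by gcongr
            _ ≤ n := by
              exact_mod_cast Nat.le_of_dvd (by omega) (Nat.ordProj_dvd n p)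
        have h3 := Real.log_le_log (by positivity) h2
        rwa [Real.log_pow] at h3
      have h4 : 1 ≤ ((p : ℝ) ^ (n.factorization p)) ^ c := Real.one_le_rpow hpa hc0.le
      calc ((n.factorization p : ℕ) : ℝ) + 1 ≤ B := by linarith
        _ = B * 1 := by ring
        _ ≤ B * (((p : ℝ) ^ (n.factorization p)) ^ c) := by gcongr
    · push Not at h
      rw [one_mul]
      have h1 : ((n.factorization p : ℕ) : ℝ) + 1 ≤ (2 : ℝ) ^ (n.factorization p) := by
        have := (Nat.lt_two_pow_self (n := n.factorization p))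
        have h2 : n.factorization p + 1 ≤ 2 ^ (n.factorization p) := this
        exact_mod_cast h2
      refine h1.trans ?_
      rw [← Real.rpow_natCast, ← Real.rpow_natCast, ← Real.rpow_mul (by linarith), mul_comm, Real.rpow_mul (by linarith)]
      refine Real.rpow_le_rpow (by norm_num) ?_ (Nat.cast_nonneg _)
      have h3 : Real.log 2 ≤ c * Real.log p := by
        rw [← hcw]
        gcongr
      rw [Real.rpow_def_of_pos (by linarith)]
      calc (2 : ℝ) = Real.exp (Real.log 2) := (Real.exp_log (by norm_num)).symm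
        _ ≤ _ := Real.exp_le_exp.mpr (by linarith)
  have hprod : ∏ p ∈ n.primeFactors, ((p : ℝ) ^ (n.factorization p)) = n := by
    have h := Nat.prod_factorization_pow_eq_self (n := n) (by omega)
    have h' : ((n.factorization.prod (fun a b => a ^ b) : ℕ) : ℝ) = n := by exact_mod_cast h
    rw [Finsupp.prod, Nat.support_factorization] at h'
    push_cast at h'
    exact h'
  calc ∏ p ∈ n.primeFactors, ((n.factorization p : ℝ) + 1)
      ≤ ∏ p ∈ n.primeFactors, ((if (p : ℝ) ≤ w then B else 1) * (((p : ℝ) ^ (n.factorization p)) ^ c)) :=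
        Finset.prod_le_prod (fun p _ => by positivity) key
    _ = (∏ p ∈ n.primeFactors, (if (p : ℝ) ≤ w then B else 1)) * (n : ℝ) ^ c := by
        rw [Finset.prod_mul_distrib, Real.finsetProd_rpow _ _ (fun p _ => by positivity), hprod]
    _ ≤ B ^ w * (n : ℝ) ^ c := by
        refine mul_le_mul_of_nonneg_right ?_ (Real.rpow_nonneg (by linarith) _)
        rw [← Finset.prod_filter, Finset.prod_const, ← Real.rpow_natCast]
        refine Real.rpow_le_rpow_of_exponent_le hB ?_
        have h1 : (n.primeFactors.filter (fun p : ℕ => (p : ℝ) ≤ w)) ⊆ Finset.Icc 1 ⌊w⌋₊ := by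
          intro p hp
          rw [Finset.mem_filter] at hp
          rw [Finset.mem_Icc]
          exact ⟨(Nat.prime_of_mem_primeFactors hp.1).one_le, Nat.le_floor hp.2⟩
        have h2 := Finset.card_le_card h1
        rw [Nat.card_Icc] at h2
        have h3 : (n.primeFactors.filter (fun p : ℕ => (p : ℝ) ≤ w)).card ≤ ⌊w⌋₊ := by omega
        calc (((n.primeFactors.filter (fun p : ℕ => (p : ℝ) ≤ w)).card : ℕ) : ℝ) ≤ (⌊w⌋₊ : ℝ) := by exact_mod_cast h3
          _ ≤ w := Nat.floor_le (by linarith)

theorem tWig : WigStmt := by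
  refine ⟨Real.exp ((12 : ℝ) ^ 8), ?_, ?_⟩
  · have := Real.add_one_le_exp ((12 : ℝ) ^ 8)
    norm_num at this ⊢
    linarith
  intro x hx
  have hx0 : 0 < x := lt_of_lt_of_le (Real.exp_pos _) hx
  set L := Real.log x with hL
  have hL1 : (12 : ℝ) ^ 8 ≤ L := by
    have := Real.log_le_log (Real.exp_pos _) hx
    rwa [Real.log_exp] at this
  have hLpos : 0 < L := lt_of_lt_of_le (by norm_num) hL1
  set u := L ^ ((1 : ℝ) / 8) with hu
  have hu8 : u ^ 8 = L := by
    rw [hu, ← Real.rpow_natCast, ← Real.rpow_mul hLpos.le]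
    norm_num
  have hu12 : 12 ≤ u := by
    by_contra h
    push Not at h
    have hu0 : 0 ≤ u := Real.rpow_nonneg hLpos.le _
    have : u ^ 8 < 12 ^ 8 := pow_lt_pow_left₀ h hu0 (by norm_num)
    linarith
  set l := Real.log L with hl
  have hlu : l = 8 * Real.log u := by
    rw [hl, ← hu8, Real.log_pow]
    norm_num
  have hlogu : Real.log u ≤ u := by
    have := Real.log_le_sub_one_of_pos (show 0 < u by linarith)
    linarith
  have hlogu1 : 1 ≤ Real.log u := by
    rw [Real.le_log_iff_exp_le (by linarith)]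
    have := Real.exp_one_lt_d9
    linarith
  have hl8 : 8 ≤ l := by linarith
  have hl8u : l ≤ 8 * u := by linarith
  have hlpos : 0 < l := by linarith
  have hEn : En 60 x = Real.exp (60 * L / l) := by
    unfold En
    rfl
  have hy : 7 * u ^ 7 ≤ 60 * L / l := by
    rw [le_div_iff₀ hlpos, ← hu8]
    calc 7 * u ^ 7 * l ≤ 7 * u ^ 7 * (8 * u) := by gcongr
      _ = 56 * u ^ 8 := by ring
      _ ≤ 60 * u ^ 8 := by
        have : 0 ≤ u ^ 8 := by positivity
        linarith
  have hX : Real.log (x ^ (30 : ℝ)) = 30 * L := by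
    rw [Real.log_rpow hx0]
  refine ⟨?_, ?_, ?_⟩
  · rw [hEn]
    exact Real.one_le_exp (by positivity)
  · rw [hEn, hX]
    have h1 := Real.quadratic_le_exp_of_nonneg (show 0 ≤ 60 * L / l by positivity)
    have h2 : 30 * L ≤ 60 * L / l * 1 + (60 * L / l) ^ 2 / 2 := by
      have h3 : (7 * u ^ 7) ^ 2 ≤ (60 * L / l) ^ 2 := by
        gcongr
      have h4 : 30 * L ≤ (7 * u ^ 7) ^ 2 / 2 := by
        rw [← hu8]
        have h5 : (7 * u ^ 7) ^ 2 / 2 = (49 / 2) * u ^ 6 * u ^ 8 := by ring
        rw [h5]
        have h6 : (30 : ℝ) ≤ 49 / 2 * u ^ 6 := by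
          have : (12 : ℝ) ^ 6 ≤ u ^ 6 := by gcongr
          norm_num at this ⊢
          linarith
        gcongr
      have h7 : 0 ≤ 60 * L / l := by positivity
      linarith
    linarith
  · intro n hn hnx
    have hn1 : (1 : ℝ) ≤ n := by exact_mod_cast hn
    have hlogn : Real.log n ≤ 30 * L := by
      have := Real.log_le_log (by linarith) hnx
      rwa [hX] at this
    have hl2a := Real.log_two_gt_d9
    have hl2b := Real.log_two_lt_d9
    set w := u ^ 4 with hw
    have hw1 : 1 < w := by
      rw [hw]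
      exact one_lt_pow₀ (by linarith) (by norm_num)
    set B := 51 * L with hB
    have hBn : 1 + Real.log n / Real.log 2 ≤ B := by
      have h1 : Real.log n / Real.log 2 ≤ 50 * L := by
        rw [div_le_iff₀ (by linarith)]
        nlinarith
      have h2 : 1 ≤ L := le_trans (by norm_num) hL1
      rw [hB]
      linarith
    have hlw : Real.log w = l / 2 := by
      rw [hw, Real.log_pow, hlu]
      push_cast
      ring
    have h := Wig_prod hn hw1 hBn
    rw [hEn]
    refine h.trans ?_
    rw [hlw]
    have hB0 : 0 < B := by positivity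
    rw [Real.rpow_def_of_pos hB0, Real.rpow_def_of_pos (by linarith), ← Real.exp_add]
    refine Real.exp_le_exp.mpr ?_
    have hlogB : Real.log B ≤ 16 * u := by
      rw [hB, Real.log_mul (by norm_num) hLpos.ne']
      have h51 : Real.log 51 ≤ 50 := by
        have := Real.log_le_sub_one_of_pos (show (0 : ℝ) < 51 by norm_num)
        linarith
      have : Real.log L = l := rfl
      rw [this]
      linarith
    have hlogB0 : 0 ≤ Real.log B := Real.log_nonneg (by
      have h2 : 1 ≤ L := le_trans (by norm_num) hL1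
      rw [hB]; linarith)
    have h1 : Real.log B * w ≤ L / l := by
      rw [le_div_iff₀ hlpos, ← hu8, hw]
      calc Real.log B * u ^ 4 * l ≤ (16 * u) * u ^ 4 * (8 * u) := by gcongr
        _ = 128 * u ^ 6 := by ring
        _ ≤ u ^ 2 * u ^ 6 := by
          have : (128 : ℝ) ≤ u ^ 2 := by nlinarith
          gcongr
        _ = u ^ 8 := by ring
    have h2 : Real.log n * (Real.log 2 / (l / 2)) ≤ 42 * (L / l) := by
      have h3 : Real.log n * (Real.log 2 / (l / 2)) = (2 * Real.log 2) * (Real.log n / l) := by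
        field_simp
      rw [h3]
      have h4 : Real.log n / l ≤ 30 * L / l := by gcongr
      have h5 : 0 ≤ Real.log n / l := div_nonneg (Real.log_nonneg hn1) hlpos.le
      calc (2 * Real.log 2) * (Real.log n / l) ≤ (2 * 0.7) * (30 * L / l) := by
            gcongr
            linarith
        _ = 42 * (L / l) := by ring
    have h6 : 60 * L / l = 60 * (L / l) := by ring
    have h7 : 0 ≤ L / l := by positivity
    rw [h6]
    linarith

end Pool.Agent.Lib.MX
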