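import Pool.Agent.Lib.MT.AllM
import Pool.Agent.Lib.MX.Bbo
import Pool.Agent.Lib.MX.Bbt
import Pool.Agent.Lib.MX.Bdr
import Pool.Agent.Lib.MX.Bds
import Pool.Agent.Lib.MX.Bfi
import Pool.Agent.Lib.MX.Acb
import Pool.Agent.Lib.MX.Abi
import Pool.Agent.Lib.MX.Afi
import Pool.Agent.Lib.MX.Fth
import Pool.Agent.Lib.MX.Fpi
import Pool.Agent.Lib.MX.Fps
import Pool.Agent.Lib.MX.Wig
import Pool.Agent.Lib.MX.Mer
import Pool.Agent.Lib.MX.Fdn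
import Pool.Agent.Lib.MX.Rae
import Pool.Agent.Lib.MX.Exe
import Pool.Agent.Lib.MX.Gre
import Pool.Agent.Lib.MX.Fae
import Pool.Agent.Lib.MX.Fle

/-! MP_00e23e_nt, directory Lib/MX: THEOREM MI (version 11), parts A and B, without hypotheses. -/

namespace Pool.Agent.Lib.MX

open Pool.Agent.Lib.TB

/-- Chapter B. -/
theorem tBAll : BfiStmt :=
  tBfi (tBds (tBdr (tBbo MS.tDAll (ML.tBt1 ML.tT1All ML.tBdh) (MS.tBeo MS.tT1eAll MS.tBdh))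
    (tBbt MS.tDAll (ML.tBt2 ML.tT2All ML.tBdh) (MS.tBet MS.tT2eAll MS.tBdh)))
    MK.tFsp) MI.tBid (MN.tBrm MI.tBph) (ML.tBlg MI.tLrgAll) MI.tLrgAll

/-- Chapter A. -/
theorem tAAll : AfiStmt :=
  tAfi MI.tAva CO.tVgb (MI.tAty MI.tAct) (tAbi MI.tAcl (MK.tAtr MK.tAnm) tAcb)

/-- Chapter F. -/
theorem tFpsAll : FpsStmt := tFps (tFpi (tFth MI.tFtp MI.tFtn MK.tFpw) MI.tFab) MI.tFgr MI.tFtn

/-- THEOREM MI, version 11, part A. -/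
theorem tSe : SeStmt :=
  tFle tBAll tAAll (tFae tFpsAll tWig tGre (MI.tFbv BV.aExt KF.tRse MI.tFtn) MK.tFsp) (tExe (tRae tMer) MI.tFtn)

/-- THEOREM MI, version 11, part B. -/
theorem tDn : DnStmt := tFdn tBAll tAAll tFpsAll tWig (MI.tFbv BV.aExt KF.tRse MI.tFtn)

end Pool.Agent.Lib.MX
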