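import Pool.Agent.Lib.MX.Stm
import Pool.Agent.Lib.EH4.Triv

/-! MP_00e23e_nt, THEOREM MI, version 11, module Exc: the exceptional moduli. -/

namespace Pool.Agent.Lib.MX

open Finset Pool.Agent.Lib.EH3 Pool.Agent.Lib.TB Pool.Agent.Results.MP_00e23e_nt Pool.Agent.Lib.MI

private theorem Exc_count {x z : ℝ} (hx : 3 ≤ x) (hz : z ≤ x) {d : ℕ} (a : ℤ) (hd : 1 ≤ d) :
    (resCount z d a : ℝ) ≤ x / d + 1 := by
  have hd0 : (d : ℤ) ≠ 0 := by exact_mod_cast (by omega : d ≠ 0)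
  obtain ⟨b, hb⟩ := Int.eq_ofNat_of_zero_le (Int.emod_nonneg a hd0)
  have h1 : resCount z d a ≤ primeCount x d b := by
    unfold resCount primeCount
    refine Finset.card_le_card fun p hp => ?_
    rw [mem_filter, mem_Icc] at hp ⊢
    refine ⟨⟨hp.1.1, hp.1.2.trans (Nat.floor_le_floor hz)⟩, hp.2.1, ?_⟩
    have h2 : (p : ℤ) ≡ a [ZMOD d] := (Int.modEq_iff_dvd.2 (by
      have := (dvd_neg (a := (d : ℤ))).2 hp.2.2
      rwa [neg_sub] at this))
    rw [← Int.natCast_modEq_iff]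
    have h3 : ((b : ℕ) : ℤ) ≡ a [ZMOD d] := by
      have : ((b : ℕ) : ℤ) = a % d := hb.symm
      rw [this]
      exact Int.mod_modEq a d
    exact h2.trans h3.symm
  have h2 := Pool.Agent.Lib.EH4.Triv_count hx b hd
  have h3 : (resCount z d a : ℝ) ≤ (primeCount x d b : ℝ) := by exact_mod_cast h1
  exact h3.trans h2

private theorem Exc_term {x z : ℝ} (hx : 3 ≤ x) (hz2 : 2 ≤ z) (hz : z ≤ x) {d : ℕ} (a : ℤ) (hd : 1 ≤ d)
    (hdx : (d : ℝ) ≤ x) : |resErr z d a| ≤ 4 * x * (1 / (d.totient : ℝ)) := by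
  have hd1 : (1 : ℝ) ≤ (d : ℝ) := by exact_mod_cast hd
  have hd0 : (0 : ℝ) < (d : ℝ) := by linarith
  have h1 := Exc_count hx hz a hd
  have ht : (0 : ℝ) < (d.totient : ℝ) := by exact_mod_cast Nat.totient_pos.2 hd
  have htd : (d.totient : ℝ) ≤ (d : ℝ) := by exact_mod_cast Nat.totient_le d
  have h2 : (resCount z d a : ℝ) ≤ 2 * x * (1 / (d.totient : ℝ)) := by
    have h3 : (1 : ℝ) ≤ x / d := by
      rw [le_div_iff₀ hd0]
      linarith
    have h4 : x / d ≤ x / (d.totient : ℝ) := div_le_div_of_nonneg_left (by linarith) ht htd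
    have h5 : 2 * x * (1 / (d.totient : ℝ)) = x / (d.totient : ℝ) + x / (d.totient : ℝ) := by ring
    rw [h5]
    linarith
  have h3 : li z / (d.totient : ℝ) ≤ 2 * x * (1 / (d.totient : ℝ)) := by
    have h4 := Pool.Agent.Lib.EH.li_le hz2
    have h5 : 2 * x * (1 / (d.totient : ℝ)) = 2 * x / (d.totient : ℝ) := by ring
    rw [h5]
    exact div_le_div_of_nonneg_right (by linarith) ht.le
  have h4 : 0 ≤ li z / (d.totient : ℝ) := div_nonneg (Pool.Agent.Lib.EH.li_nonneg hz2) ht.le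
  have h5 : (0 : ℝ) ≤ (resCount z d a : ℝ) := Nat.cast_nonneg _
  have h6 : 0 ≤ x * (1 / (d.totient : ℝ)) := mul_nonneg (by linarith) (by positivity)
  unfold resErr
  rw [abs_le]
  constructor <;> linarith

private lemma Exc_dvd (w : ℝ) {d : ℕ} (hd : Squarefree d) : Sp w d ∣ d := by
  unfold Sp
  have h1 : ∏ p ∈ d.primeFactors, p = d := Nat.prod_primeFactors_of_squarefree hd
  conv_rhs => rw [← h1]
  exact Finset.prod_dvd_prod_of_subset _ _ _ (Finset.filter_subset _ _)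

private lemma Exc_prime (w : ℝ) {d p : ℕ} (hp : p.Prime) (h : p ∣ Sp w d) : (p : ℝ) ≤ w := by
  unfold Sp at h
  obtain ⟨q, hq, hpq⟩ := (Prime.dvd_finsetProd_iff hp.prime _).1 h
  rw [mem_filter] at hq
  have hq1 : q.Prime := Nat.prime_of_mem_primeFactors hq.1
  have : p = q := (Nat.prime_dvd_prime_iff_eq hp hq1).1 hpq
  rw [this]
  exact hq.2

theorem tExc (h1 : RanStmt) (h2 : MI.FtnStmt) : ExcStmt := by
  intro A' U hA' hU
  obtain ⟨C1, x1, hC1, hx1, H1⟩ := h1 A' (U + 2) hA' (by linarith)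
  refine ⟨24 * C1, x1, by positivity, hx1, ?_⟩
  intro x s y M hx hy hM
  have hx3 : 3 ≤ x := hx1.trans hx
  have hx0 : 0 < x := by linarith
  have hlog : 0 < Real.log x := Real.log_pos (by linarith)
  classical
  set w := En A' x with hw
  let Q : ℕ → Prop := fun n => Squarefree n ∧ x ^ ((3 : ℝ) / 10) < n ∧ ∀ p : ℕ, p.Prime → p ∣ n → (p : ℝ) ≤ En A' x
  let g : ℕ → ℝ := fun n => if Q n then 1 / (n.totient : ℝ) else 0
  have hg : ∀ n, 0 ≤ g n := by
    intro n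
    show 0 ≤ (if Q n then 1 / (n.totient : ℝ) else 0)
    split_ifs
    · positivity
    · exact le_refl 0
  have hd1 : ∀ d ∈ M, 1 ≤ d := fun d hd => Nat.pos_of_ne_zero (hM d hd).1.ne_zero
  have hdx : ∀ d ∈ M, (Sp w d : ℝ) ≤ x := by
    intro d hd
    have h3 : Sp w d ≤ d := Nat.le_of_dvd (hd1 d hd) (Exc_dvd w (hM d hd).1)
    have h4 : (Sp w d : ℝ) ≤ (d : ℝ) := by exact_mod_cast h3
    exact h4.trans (hM d hd).2.1
  have K1 := h2.2 x x M (fun d => Sp w d) g hx3 hg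
    (fun d hd => ⟨hd1 d hd, Exc_dvd w (hM d hd).1, (hM d hd).2.1, hdx d hd⟩)
  have K2 : ∑ n ∈ Icc 1 ⌊x⌋₊, g n ≤ C1 / (Real.log x) ^ (U + 2) := by
    have h3 : ∑ n ∈ Icc 1 ⌊x⌋₊, g n = ∑ n ∈ (Icc 1 ⌊x⌋₊).filter Q, 1 / (n.totient : ℝ) := by
      rw [Finset.sum_filter]
    rw [h3]
    exact H1 x _ hx (fun n hn => (mem_filter.1 hn).2)
  have K3 : ∀ d ∈ M, |resErr (y d) d (s d)| ≤ 4 * x * (g (Sp w d) / ((d / Sp w d).totient : ℝ)) := by
    intro d hd
    obtain ⟨a1, a2, a3⟩ := hM d hd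
    have h3 := Exc_term hx3 (hy d).1 (hy d).2 (s d) (hd1 d hd) a2
    have hdv := Exc_dvd w a1
    have hmul : Sp w d * (d / Sp w d) = d := Nat.mul_div_cancel' hdv
    have hcop : (Sp w d).Coprime (d / Sp w d) := by
      have a1' := a1
      rw [← hmul] at a1'
      exact Nat.coprime_of_squarefree_mul a1'
    have htot : (d.totient : ℝ) = ((Sp w d).totient : ℝ) * ((d / Sp w d).totient : ℝ) := by
      conv_lhs => rw [← hmul]
      rw [Nat.totient_mul hcop]
      push_cast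
      rfl
    have hQ : Q (Sp w d) :=
      ⟨a1.squarefree_of_dvd hdv, a3, fun p hp hpd => Exc_prime w hp hpd⟩
    have hgv : g (Sp w d) = 1 / ((Sp w d).totient : ℝ) := by
      show (if Q (Sp w d) then 1 / ((Sp w d).totient : ℝ) else 0) = _
      rw [if_pos hQ]
    rw [hgv]
    refine h3.trans (le_of_eq ?_)
    rw [htot]
    rw [div_div, mul_comm (((Sp w d).totient : ℝ))]
  have K4 : ∑ d ∈ M, |resErr (y d) d (s d)| ≤ 4 * x * (6 * Real.log x ^ 2 * (C1 / (Real.log x) ^ (U + 2))) := by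
    refine (Finset.sum_le_sum K3).trans ?_
    rw [← Finset.mul_sum]
    refine mul_le_mul_of_nonneg_left ?_ (by linarith)
    refine K1.trans ?_
    exact mul_le_mul_of_nonneg_left K2 (by positivity)
  refine K4.trans (le_of_eq ?_)
  have h5 : (Real.log x) ^ (U + 2) = (Real.log x) ^ U * (Real.log x) ^ 2 := by
    rw [Real.rpow_add hlog]
    congr 1
    exact_mod_cast Real.rpow_natCast (Real.log x) 2
  have h6 : 0 < (Real.log x) ^ U := Real.rpow_pos_of_pos hlog _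
  rw [h5]
  field_simp
  ring

end Pool.Agent.Lib.MX
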