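import Pool.Agent.Lib.MX.Stm

/-! MP_00e23e_nt, THEOREM MI, version 11, module Fag: large x, the moduli with a small En A' x-smooth part. -/

namespace Pool.Agent.Lib.MX

open Finset Pool.Agent.Lib.EH3 Pool.Agent.Lib.TB Pool.Agent.Results.MP_00e23e_nt Pool.Agent.Lib.MI

private lemma Fag_tot {u : ℕ} (hu : 1 ≤ u) : (1 : ℝ) ≤ (u.totient : ℝ) := by
  have : 1 ≤ u.totient := Nat.totient_pos.2 hu
  exact_mod_cast this

private lemma Fag_split (y : ℝ) (d t : ℕ) (s : ℤ) (hd : Squarefree d) (ht : t ∣ d) :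
    resErr y d s = df y d t s + resErr y t s / ((d / t).totient : ℝ) := by
  have hd0 : d ≠ 0 := hd.ne_zero
  have ht0 : 0 < t := Nat.pos_of_dvd_of_pos ht (Nat.pos_of_ne_zero hd0)
  have hu : 1 ≤ d / t := Nat.div_pos (Nat.le_of_dvd (Nat.pos_of_ne_zero hd0) ht) ht0
  have hmul : t * (d / t) = d := Nat.mul_div_cancel' ht
  have hcop : t.Coprime (d / t) := by
    rw [← hmul] at hd
    exact Nat.coprime_of_squarefree_mul hd
  have htot : (d.totient : ℝ) = (t.totient : ℝ) * ((d / t).totient : ℝ) := by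
    conv_lhs => rw [← hmul]
    rw [Nat.totient_mul hcop]
    push_cast
    rfl
  have h1 := Fag_tot hu
  have h2 := Fag_tot ht0
  unfold resErr df
  rw [htot]
  have h1' : ((d / t).totient : ℝ) ≠ 0 := by positivity
  have h2' : (t.totient : ℝ) ≠ 0 := by positivity
  field_simp
  ring

private lemma Fag_dvd (w : ℝ) {d : ℕ} (hd : Squarefree d) : Sp w d ∣ d := by
  conv_rhs => rw [← Nat.prod_primeFactors_of_squarefree hd]
  exact prod_dvd_prod_of_subset _ _ _ (filter_subset _ _)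

private lemma Fag_big {w : ℝ} {d p : ℕ} (hd : Squarefree d) (hp : p.Prime) (hpd : p ∣ d / Sp w d) : w < p := by
  by_contra hcon
  push Not at hcon
  have h1 := Fag_dvd w hd
  have h2 : p ∣ d := hpd.trans (Nat.div_dvd_of_dvd h1)
  have h3 : p ∣ Sp w d := by
    unfold Sp
    refine dvd_prod_of_mem _ ?_
    rw [mem_filter]
    exact ⟨Nat.mem_primeFactors.2 ⟨hp, h2, hd.ne_zero⟩, hcon⟩
  have h4 : p * p ∣ d := by
    have h5 := mul_dvd_mul h3 hpd
    rwa [Nat.mul_div_cancel' h1] at h5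
  exact hp.not_isUnit (hd p h4)

private lemma Fag_En_mul (a b x : ℝ) : En a x * En b x = En (a + b) x := by
  unfold En
  rw [← Real.exp_add]
  congr 1
  ring

private lemma Fag_En_pow (a x : ℝ) (n : ℕ) : (En a x) ^ n = En (a * n) x := by
  unfold En
  rw [← Real.exp_nat_mul]
  congr 1
  ring

private lemma Fag_En_rpow (a η x : ℝ) : (En a x) ^ η = En (a * η) x := by
  unfold En
  rw [← Real.exp_mul]
  congr 1
  ring

private lemma Fag_En_inv (a x : ℝ) : 1 / En a x = En (-a) x := by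
  unfold En
  rw [one_div, ← Real.exp_neg]
  congr 1
  ring

private lemma Fag_En_pos (a x : ℝ) : 0 < En a x := Real.exp_pos _

/-- U (log L)^2 ≤ L -/
private lemma Fag_log {U L : ℝ} (hU : 0 < U) (hL1 : 1 ≤ L) (hL : (16 * U) ^ 2 ≤ L) : U * (Real.log L) ^ 2 ≤ L := by
  have h0 : 0 < L := by linarith
  have h1 : Real.log L ≤ L ^ ((1 : ℝ) / 4) / (1 / 4) := Real.log_le_rpow_div h0.le (by norm_num)
  have h2 : 0 ≤ Real.log L := Real.log_nonneg hL1
  have h3 : (Real.log L) ^ 2 ≤ (L ^ ((1 : ℝ) / 4) / (1 / 4)) ^ 2 := pow_le_pow_left₀ h2 h1 2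
  have h4 : (L ^ ((1 : ℝ) / 4) / (1 / 4)) ^ 2 = 16 * L ^ ((1 : ℝ) / 2) := by
    have : (L ^ ((1 : ℝ) / 4)) ^ 2 = L ^ ((1 : ℝ) / 2) := by
      rw [← Real.rpow_natCast, ← Real.rpow_mul h0.le]
      norm_num
    rw [div_pow, this]
    ring
  rw [h4] at h3
  have h5 : L ^ ((1 : ℝ) / 2) = Real.sqrt L := (Real.sqrt_eq_rpow L).symm
  rw [h5] at h3
  have h6 : 16 * U ≤ Real.sqrt L := Real.le_sqrt_of_sq_le hL
  have h7 : Real.sqrt L * Real.sqrt L = L := Real.mul_self_sqrt h0.le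
  have h8 : 0 ≤ Real.sqrt L := Real.sqrt_nonneg _
  nlinarith [mul_le_mul_of_nonneg_left h3 hU.le, mul_le_mul_of_nonneg_right h6 h8]

theorem tFag (h1 : FpsStmt) (h2 : WigStmt) (h3 : GrdStmt) (h4 : MI.FbvStmt) : FagStmt := by
  intro δ κ hδ hκ hδκ hcore b U hb hU
  have hα : 1 / 2 + δ ≤ (3 : ℝ) / 5 := by linarith
  obtain ⟨η, C1, x1, A0, hη, hη1, hC1, hx1, H1⟩ := h1 (1 / 2 + δ) (3 / 10) κ (3 / 10) 1 hα (by norm_num)
    (by norm_num) hcore
  obtain ⟨xW, hxW, H2⟩ := h2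
  obtain ⟨C2, hC2, H4⟩ := h4 U hU
  obtain ⟨G1, G2⟩ := h3
  set A' : ℝ := (b + 60 * A0 + 1) / η with hA'
  have hA'0 : 0 < A' := by positivity
  have hA'η : A' * η = b + 60 * A0 + 1 := by
    rw [hA']
    field_simp
  refine ⟨A', C1 + C2, max (max x1 xW) (max 16 (Real.exp (max (Real.exp (max A' 1)) ((16 * U) ^ 2)))), hA'0,
    by positivity, ?_, ?_⟩
  · exact hx1.trans ((le_max_left _ _).trans (le_max_left _ _))
  intro x s i y M hx hcard hy hM hnst
  have hxx1 : x1 ≤ x := ((le_max_left _ _).trans (le_max_left _ _)).trans hx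
  have hxxW : xW ≤ x := ((le_max_right _ _).trans (le_max_left _ _)).trans hx
  have hx16 : 16 ≤ x := ((le_max_left _ _).trans (le_max_right _ _)).trans hx
  have hxe : Real.exp (max (Real.exp (max A' 1)) ((16 * U) ^ 2)) ≤ x :=
    ((le_max_right _ _).trans (le_max_right _ _)).trans hx
  have hx0 : 0 < x := by linarith
  have hx1' : 1 < x := by linarith
  have hL : max (Real.exp (max A' 1)) ((16 * U) ^ 2) ≤ Real.log x := (Real.le_log_iff_exp_le hx0).2 hxe
  have hL1 : Real.exp (max A' 1) ≤ Real.log x := (le_max_left _ _).trans hL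
  have hL2 : (16 * U) ^ 2 ≤ Real.log x := (le_max_right _ _).trans hL
  have hL0 : 0 < Real.log x := (Real.exp_pos _).trans_le hL1
  have hl : max A' 1 ≤ Real.log (Real.log x) := (Real.le_log_iff_exp_le hL0).2 hL1
  have hlA : A' ≤ Real.log (Real.log x) := (le_max_left _ _).trans hl
  have hl1 : 1 ≤ Real.log (Real.log x) := (le_max_right _ _).trans hl
  have hLge : 1 ≤ Real.log x := by
    have : 1 ≤ Real.exp (max A' 1) := Real.one_le_exp (by positivity)
    linarith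
  -- z and T
  have hz1 : 1 ≤ En A' x := by
    unfold En
    exact Real.one_le_exp (by positivity)
  have hzx : En A' x ≤ x := by
    unfold En
    calc Real.exp (A' * Real.log x / Real.log (Real.log x)) ≤ Real.exp (Real.log x) := by
          apply Real.exp_le_exp.2
          rw [div_le_iff₀ (by linarith)]
          nlinarith
      _ = x := Real.exp_log hx0
  have hT := H2 x hxxW
  -- the divisors
  have hch : ∀ (Z : ℝ) (d : ℕ), ∃ (v : ℕ) (w' : ℝ), (d ∈ M → x ^ ((3 : ℝ) / 10) ≤ Z → Z < d →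
      Sp (En A' x) d * v = Sp w' d ∧ v ∣ d / Sp (En A' x) d ∧ (Sp (En A' x) d : ℝ) * v ≤ Z ∧
      Z < (Sp (En A' x) d : ℝ) * v * x ^ κ ∧ MQ.Dn (x ^ κ) (x ^ (1 : ℝ)) (Sp (En A' x) d * v) ∧
      MQ.Dn (x ^ κ) (x ^ (1 : ℝ)) (d / (Sp (En A' x) d * v))) := by
    intro Z d
    by_cases hc : d ∈ M ∧ x ^ ((3 : ℝ) / 10) ≤ Z ∧ Z < d
    · obtain ⟨hc1, hc2, hc3⟩ := hc
      obtain ⟨m1, -, m3, -, m5⟩ := hM d hc1
      obtain ⟨v, w', hv⟩ := G1 x κ 1 (En A' x) Z d hx1' hκ m1 m3 (m5.trans hc2) hc3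
      exact ⟨v, w', fun _ _ _ => hv⟩
    · exact ⟨1, 1, fun e1 e2 e3 => absurd ⟨e1, e2, e3⟩ hc⟩
  choose v w' hv using hch
  have hd : ∀ d ∈ M, Squarefree d ∧ Sp (En A' x) d ∣ d ∧ 1 ≤ d ∧ (d : ℝ) ≤ x := by
    intro d hdM
    obtain ⟨m1, m2, -, -, -⟩ := hM d hdM
    refine ⟨m1, Fag_dvd _ m1, Nat.one_le_iff_ne_zero.2 m1.ne_zero, m2.trans ?_⟩
    calc x ^ (1 / 2 + δ) ≤ x ^ (1 : ℝ) := Real.rpow_le_rpow_of_exponent_le hx1'.le (by linarith)
      _ = x := Real.rpow_one x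
  have F1 := H1 x (En 60 x) (En A' x) s (fun d => Sp (En A' x) d) i v y M hxx1 hT hz1 hzx hy
    (fun d hdM => by
      obtain ⟨m1, m2, m3, m4, m5⟩ := hM d hdM
      exact ⟨⟨m1, Fag_dvd _ m1, m2, m5, fun p hp hpd => Fag_big m1 hp hpd⟩, m4⟩)
    (fun Z hZ1 hZ2 => by
      refine ⟨fun d hdM hZd => ?_, fun d hdM d' hdM' hZd hZd' hi ht hvv => ?_⟩
      · obtain ⟨-, e2, e3, e4, e5, e6⟩ := hv Z d hdM hZ1 hZd
        exact ⟨e2, e3, e4, e5, e6⟩
      · obtain ⟨e1, -, -, -, -, -⟩ := hv Z d hdM hZ1 hZd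
        obtain ⟨e1', -, -, -, -, -⟩ := hv Z d' hdM' hZ1 hZd'
        have ht' : Sp (En A' x) d = Sp (En A' x) d' := ht
        have e7 : Sp (w' Z d) d = Sp (w' Z d') d' := by
          rw [← e1, ← e1', ht', hvv]
        have e8 := G2 s d d' (w' Z d) (w' Z d') (hM d hdM).1 (hM d' hdM').1 (hnst d hdM d' hdM' hi) e7
        rw [← e1] at e8
        exact e8)
  have F2 := H4 x s (fun d => Sp (En A' x) d) y M hx16 hy (fun d hdM => by
    obtain ⟨m1, m2, m3, m4, m5⟩ := hM d hdM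
    obtain ⟨-, n2, n3, n4⟩ := hd d hdM
    exact ⟨n3, n2, n4, m5.trans (Real.rpow_le_rpow_of_exponent_le hx1'.le (by norm_num)), m4⟩)
  -- the bound
  have hxl0 : 0 ≤ x / (Real.log x) ^ U := by positivity
  have F3 : ((M.image i).card : ℝ) * Bd C1 A0 η x (En 60 x) (En A' x) ≤ C1 * (x / (Real.log x) ^ U) := by
    have k1 : ((M.image i).card : ℝ) * Bd C1 A0 η x (En 60 x) (En A' x) ≤
        En b x * Bd C1 A0 η x (En 60 x) (En A' x) :=
      mul_le_mul_of_nonneg_right hcard (Bd_nonneg hC1 hT.1 hx0.le hz1)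
    have k2 : En b x * Bd C1 A0 η x (En 60 x) (En A' x) = C1 * (x * En (-1) x) := by
      unfold Bd
      rw [Fag_En_pow, Fag_En_rpow]
      have k3 : x / En (A' * η) x = x * En (-(A' * η)) x := by
        rw [← Fag_En_inv]
        ring
      rw [k3]
      have k4 : En b x * (C1 * En (60 * A0) x * (x * En (-(A' * η)) x)) =
          C1 * (x * (En b x * En (60 * A0) x * En (-(A' * η)) x)) := by ring
      rw [k4, Fag_En_mul, Fag_En_mul, hA'η]
      congr 3
      ring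
    have k5 : En (-1) x ≤ 1 / (Real.log x) ^ U := by
      rw [one_div, ← Real.rpow_neg hL0.le, Real.rpow_def_of_pos hL0]
      unfold En
      apply Real.exp_le_exp.2
      have k6 := Fag_log hU hLge hL2
      rw [div_le_iff₀ (by linarith)]
      nlinarith
    rw [k2] at k1
    refine k1.trans (mul_le_mul_of_nonneg_left ?_ hC1)
    calc x * En (-1) x ≤ x * (1 / (Real.log x) ^ U) := mul_le_mul_of_nonneg_left k5 hx0.le
      _ = x / (Real.log x) ^ U := by ring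
  have F4 : ∑ d ∈ M, |resErr (y d) d (s d)| ≤ ∑ d ∈ M, (|df (y d) d (Sp (En A' x) d) (s d)| +
      |resErr (y d) (Sp (En A' x) d) (s d)| / ((d / Sp (En A' x) d).totient : ℝ)) := by
    refine sum_le_sum fun d hdM => ?_
    obtain ⟨n1, n2, n3, n4⟩ := hd d hdM
    rw [Fag_split (y d) d (Sp (En A' x) d) (s d) n1 n2]
    refine (abs_add_le _ _).trans ?_
    have e1 : |resErr (y d) (Sp (En A' x) d) (s d) / ((d / Sp (En A' x) d).totient : ℝ)| =
        |resErr (y d) (Sp (En A' x) d) (s d)| / ((d / Sp (En A' x) d).totient : ℝ) := by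
      rw [abs_div, abs_of_nonneg (by positivity : (0 : ℝ) ≤ ((d / Sp (En A' x) d).totient : ℝ))]
    rw [e1]
  rw [sum_add_distrib] at F4
  have F5 : ∑ d ∈ M, |df (y d) d (Sp (En A' x) d) (s d)| ≤ C1 * (x / (Real.log x) ^ U) := F1.trans F3
  have F6 : ∑ d ∈ M, |resErr (y d) (Sp (En A' x) d) (s d)| / ((d / Sp (En A' x) d).totient : ℝ) ≤
      C2 * (x / (Real.log x) ^ U) := F2
  have F7 : (C1 + C2) * (x / (Real.log x) ^ U) = C1 * (x / (Real.log x) ^ U) + C2 * (x / (Real.log x) ^ U) := by ring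
  rw [F7]
  linarith

end Pool.Agent.Lib.MX
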