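import Pool.Agent.Lib.MX.Stm

/-! MP_00e23e_nt, THEOREM MI, version 11, module Fdn (after Lib/MS/Fmi.lean): part B of the final theorem. -/

namespace Pool.Agent.Lib.MX

open Finset Pool.Agent.Lib.EH3 Pool.Agent.Lib.TB Pool.Agent.Results.MP_00e23e_nt Pool.Agent.Lib.MI

private lemma Fdn_count (y : ℝ) (hy : 0 ≤ y) (d : ℕ) (s : ℤ) : (resCount y d s : ℝ) ≤ y := by
  unfold resCount
  have h1 : ((Icc 1 ⌊y⌋₊).filter (fun p : ℕ => p.Prime ∧ (d : ℤ) ∣ (p : ℤ) - s)).card ≤ ⌊y⌋₊ := by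
    refine (card_filter_le _ _).trans ?_
    simp
  have h2 : (((Icc 1 ⌊y⌋₊).filter (fun p : ℕ => p.Prime ∧ (d : ℤ) ∣ (p : ℤ) - s)).card : ℝ) ≤ (⌊y⌋₊ : ℝ) := by
    exact_mod_cast h1
  exact h2.trans (Nat.floor_le hy)

private lemma Fdn_tot {u : ℕ} (hu : 1 ≤ u) : (1 : ℝ) ≤ (u.totient : ℝ) := by
  have : 1 ≤ u.totient := Nat.totient_pos.2 hu
  exact_mod_cast this

private lemma Fdn_div_le {a x : ℝ} {u : ℕ} (hu : 1 ≤ u) (ha : 0 ≤ a) (hx : a ≤ x) :
    a / (u.totient : ℝ) ≤ x :=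
  (div_le_self ha (Fdn_tot hu)).trans hx

private lemma Fdn_split (y : ℝ) (d t : ℕ) (s : ℤ) (hd : Squarefree d) (ht : t ∣ d) :
    resErr y d s = df y d t s + resErr y t s / ((d / t).totient : ℝ) := by
  have hd0 : d ≠ 0 := hd.ne_zero
  have ht0 : 0 < t := Nat.pos_of_dvd_of_pos ht (Nat.pos_of_ne_zero hd0)
  have hu : 1 ≤ d / t := Nat.div_pos (Nat.le_of_dvd (Nat.pos_of_ne_zero hd0) ht) ht0
  have hmul : t * (d / t) = d := Nat.mul_div_cancel' ht
  have hcop : t.Coprime (d / t) := by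
    rw [← hmul] at hd
    exact Nat.coprime_of_squarefree_mul hd
  have htot : (d.totient : ℝ) = (t.totient : ℝ) * ((d / t).totient : ℝ) := by
    conv_lhs => rw [← hmul]
    rw [Nat.totient_mul hcop]
    push_cast
    rfl
  have h1 := Fdn_tot hu
  have h2 := Fdn_tot ht0
  unfold resErr df
  rw [htot]
  have h1' : ((d / t).totient : ℝ) ≠ 0 := by positivity
  have h2' : (t.totient : ℝ) ≠ 0 := by positivity
  field_simp
  ring

private lemma Fdn_ll {x : ℝ} (hx : 3 ≤ x) : 1 ≤ Real.log x ∧ 0 < Real.log (Real.log x) := by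
  have hx0 : 0 < x := by linarith
  have h1 : 1 < Real.log x := by
    rw [Real.lt_log_iff_exp_lt hx0]
    have := Real.exp_one_lt_d9
    linarith
  exact ⟨h1.le, Real.log_pos h1⟩

private lemma Fdn_En_one {A x : ℝ} (hx : 3 ≤ x) (hA : 0 ≤ A) : 1 ≤ En A x := by
  obtain ⟨h1, h2⟩ := Fdn_ll hx
  unfold En
  exact Real.one_le_exp (by positivity)

private lemma Fdn_En_pow {x : ℝ} (n : ℕ) (hx : 3 ≤ x) : (En 60 x) ^ n ≤ En (60 * n + 1) x := by
  obtain ⟨h1, h2⟩ := Fdn_ll hx
  unfold En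
  rw [← Real.exp_nat_mul]
  apply Real.exp_le_exp.2
  rw [mul_div_assoc', div_le_div_iff_of_pos_right h2]
  nlinarith

theorem tFdn (h1 : BfiStmt) (h2 : AfiStmt) (h3 : FpsStmt) (h4 : WigStmt) (h5 : MI.FbvStmt) : FdnStmt := by
  intro δ τ κ σ ω hδ hτ0 hτ hκ hδκ hσ hω
  obtain ⟨ε, hε, hε1, hBl⟩ := h1 δ τ κ σ ω hδ hτ0 hτ hκ hδκ hσ hω
  have hα : 1 / 2 + δ ≤ 3 / 5 := by linarith
  have hκ1 : κ ≤ 1 / 10 := by linarith
  have hcore := h2 (1 / 2 + δ) τ κ σ ω ε hε hε1 hα hτ0 hτ hκ hκ1 hBl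
  obtain ⟨η, C1, x0, A0, hη, hη1, hC1, hx0, H1⟩ := h3 (1 / 2 + δ) τ κ σ ω hα hτ0 hτ hcore
  obtain ⟨x1, hx1, H3⟩ := h4
  refine ⟨η, 60 * A0 + 1, hη, by positivity, fun U hU => ?_⟩
  obtain ⟨C2, hC2, H2⟩ := h5 U hU
  set A : ℝ := 60 * A0 + 1 with hA
  have hA0 : 0 ≤ A := by positivity
  set x2 : ℝ := max (max x0 x1) 16 with hx2
  have hx2a : x0 ≤ x2 := (le_max_left _ _).trans (le_max_left _ _)
  have hx2c : x1 ≤ x2 := (le_max_right _ _).trans (le_max_left _ _)
  have hx2b : (16 : ℝ) ≤ x2 := le_max_right _ _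
  set C : ℝ := C1 + C2 + 3 * x2 ^ 2 with hC
  have hp1 : 0 ≤ 3 * x2 ^ 2 := by positivity
  refine ⟨C, fun x z s t i v y M hx hz hzx hy hM hnst => ?_⟩
  have hx0' : 0 < x := by linarith
  obtain ⟨hl, hll⟩ := Fdn_ll hx
  have hlU : 0 < (Real.log x) ^ U := Real.rpow_pos_of_pos (by linarith) U
  have hxl0 : 0 ≤ x / (Real.log x) ^ U := by positivity
  have hzη : 0 < z ^ η := Real.rpow_pos_of_pos (by linarith) η
  have hEn : 1 ≤ En A x := Fdn_En_one hx hA0
  have hJ0 : (0 : ℝ) ≤ ((M.image i).card : ℝ) := by positivity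
  have hW0 : 0 ≤ ((M.image i).card : ℝ) * x * En A x / z ^ η := by positivity
  -- the moduli
  have hd : ∀ d ∈ M, Squarefree d ∧ t d ∣ d ∧ 1 ≤ d ∧ (d : ℝ) ≤ x ∧ 1 ≤ d / t d := by
    intro d hd
    obtain ⟨⟨h1, h2, h3, -, -⟩, -⟩ := hM d hd
    have hd1 : 1 ≤ d := Nat.one_le_iff_ne_zero.2 h1.ne_zero
    refine ⟨h1, h2, hd1, h3.trans ?_, ?_⟩
    · calc x ^ (1 / 2 + δ) ≤ x ^ (1 : ℝ) := Real.rpow_le_rpow_of_exponent_le (by linarith) (by linarith)
        _ = x := Real.rpow_one x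
    · exact Nat.div_pos (Nat.le_of_dvd hd1 h2) (Nat.pos_of_dvd_of_pos h2 hd1)
  have hdf : ∀ d ∈ M, |df (y d) d (t d) (s d)| ≤ x := by
    intro d hdM
    obtain ⟨-, -, -, -, hu⟩ := hd d hdM
    have hy0 : 0 ≤ y d := by linarith [(hy d).1]
    have a1 := Fdn_count (y d) hy0 d (s d)
    have a2 := Fdn_div_le (a := (resCount (y d) (t d) (s d) : ℝ)) (x := x) hu (by positivity)
      ((Fdn_count (y d) hy0 (t d) (s d)).trans (hy d).2)
    have a3 : (0 : ℝ) ≤ (resCount (y d) (t d) (s d) : ℝ) / ((d / t d).totient : ℝ) := by positivity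
    have a4 : (0 : ℝ) ≤ (resCount (y d) d (s d) : ℝ) := by positivity
    unfold df
    rw [abs_le]
    constructor <;> linarith [(hy d).2]
  by_cases hxx : x2 ≤ x
  · have hTau := H3 x (hx2c.trans hxx)
    have F1 := H1 x (En 60 x) z s t i v y M (hx2a.trans hxx) hTau hz hzx hy hM hnst
    have F1' : ((M.image i).card : ℝ) * Bd C1 A0 η x (En 60 x) z ≤
        C1 * (((M.image i).card : ℝ) * x * En A x / z ^ η) := by
      unfold Bd
      have hpw := Fdn_En_pow (x := x) A0 hx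
      have e1 : C1 * (((M.image i).card : ℝ) * x * En A x / z ^ η) =
          (((M.image i).card : ℝ) * C1 * (x / z ^ η)) * En A x := by
        field_simp
      have e2 : ((M.image i).card : ℝ) * (C1 * (En 60 x) ^ A0 * (x / z ^ η)) =
          (((M.image i).card : ℝ) * C1 * (x / z ^ η)) * (En 60 x) ^ A0 := by ring
      rw [e1, e2]
      exact mul_le_mul_of_nonneg_left hpw (by positivity)
    have F2 := H2 x s t y M (hx2b.trans hxx) hy (fun d hdM => by
      obtain ⟨h1, h2, h3, h4, -⟩ := hd d hdM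
      obtain ⟨⟨-, -, -, h5, -⟩, h6⟩ := hM d hdM
      exact ⟨h3, h2, h4, h5.trans (Real.rpow_le_rpow_of_exponent_le (by linarith) hτ), h6⟩)
    constructor
    · have F3 : ∑ d ∈ M, |(resCount (y d) d (s d) : ℝ) -
          (resCount (y d) (t d) (s d) : ℝ) / ((d / t d).totient : ℝ)| ≤
          ((M.image i).card : ℝ) * Bd C1 A0 η x (En 60 x) z := F1
      exact (F3.trans F1').trans (mul_le_mul_of_nonneg_right (by linarith) hW0)
    · have F4 : ∑ d ∈ M, |resErr (y d) d (s d)| ≤ ∑ d ∈ M, (|df (y d) d (t d) (s d)| +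
          |resErr (y d) (t d) (s d)| / ((d / t d).totient : ℝ)) := by
        refine sum_le_sum fun d hdM => ?_
        obtain ⟨h1, h2, -, -, hu⟩ := hd d hdM
        rw [Fdn_split (y d) d (t d) (s d) h1 h2]
        refine (abs_add_le _ _).trans ?_
        have e1 : |resErr (y d) (t d) (s d) / ((d / t d).totient : ℝ)| =
            |resErr (y d) (t d) (s d)| / ((d / t d).totient : ℝ) := by
          rw [abs_div, abs_of_nonneg (by positivity : (0 : ℝ) ≤ ((d / t d).totient : ℝ))]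
        rw [e1]
      rw [sum_add_distrib] at F4
      have F5 : C1 * (((M.image i).card : ℝ) * x * En A x / z ^ η) ≤
          C * (((M.image i).card : ℝ) * x * En A x / z ^ η) :=
        mul_le_mul_of_nonneg_right (by linarith) hW0
      have F6 : C2 * (x / (Real.log x) ^ U) ≤ C * (x / (Real.log x) ^ U) :=
        mul_le_mul_of_nonneg_right (by linarith) hxl0
      linarith
  · push Not at hxx
    have hMc : (M.card : ℝ) ≤ x2 := by
      have hsub : M ⊆ Icc 1 ⌊x2⌋₊ := by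
        intro d hdM
        obtain ⟨-, -, h3, h4, -⟩ := hd d hdM
        rw [mem_Icc]
        exact ⟨h3, Nat.le_floor (h4.trans hxx.le)⟩
      have h5 : M.card ≤ ⌊x2⌋₊ := by
        have := card_le_card hsub
        simpa using this
      have h6 : (M.card : ℝ) ≤ (⌊x2⌋₊ : ℝ) := by exact_mod_cast h5
      exact h6.trans (Nat.floor_le (by linarith))
    have hbd : ∀ g : ℕ → ℝ, (∀ d ∈ M, g d ≤ 3 * x) →
        ∑ d ∈ M, g d ≤ C * (((M.image i).card : ℝ) * x * En A x / z ^ η) := by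
      intro g hg
      rcases M.eq_empty_or_nonempty with h0 | h0
      · rw [h0]
        simp
      · have hJ : (1 : ℝ) ≤ ((M.image i).card : ℝ) := by
          have : 1 ≤ (M.image i).card := Finset.card_pos.2 (h0.image i)
          exact_mod_cast this
        have hz1 : z ^ η ≤ x := by
          calc z ^ η ≤ z ^ (1 : ℝ) := Real.rpow_le_rpow_of_exponent_le hz (by linarith)
            _ = z := Real.rpow_one z
            _ ≤ x := hzx
        have h7 : 1 ≤ ((M.image i).card : ℝ) * x * En A x / z ^ η := by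
          rw [le_div_iff₀ hzη, one_mul]
          have h8 : x ≤ ((M.image i).card : ℝ) * x := by nlinarith
          have h9 : ((M.image i).card : ℝ) * x ≤ ((M.image i).card : ℝ) * x * En A x := by
            have : 0 ≤ ((M.image i).card : ℝ) * x := by positivity
            nlinarith
          linarith
        calc ∑ d ∈ M, g d ≤ ∑ _d ∈ M, 3 * x := sum_le_sum hg
          _ = M.card * (3 * x) := by rw [sum_const, nsmul_eq_mul]
          _ ≤ x2 * (3 * x2) := mul_le_mul hMc (by linarith) (by linarith) (by linarith)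
          _ = 3 * x2 ^ 2 := by ring
          _ ≤ C := by linarith
          _ = C * 1 := (mul_one C).symm
          _ ≤ C * (((M.image i).card : ℝ) * x * En A x / z ^ η) :=
            mul_le_mul_of_nonneg_left h7 (by linarith)
    constructor
    · exact hbd (fun d => |df (y d) d (t d) (s d)|) (fun d hdM => by
        have := hdf d hdM
        linarith)
    · have G1 := hbd (fun d => |resErr (y d) d (s d)|) (fun d hdM => by
        obtain ⟨-, -, h3, -, -⟩ := hd d hdM
        have hy0 : 0 ≤ y d := by linarith [(hy d).1]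
        have a1 := Fdn_count (y d) hy0 d (s d)
        have a2 := Pool.Agent.Lib.EH.li_le (hy d).1
        have a3 := Pool.Agent.Lib.EH.li_nonneg (hy d).1
        have a4 := Fdn_div_le (a := li (y d)) (x := 2 * x) h3 a3 (by linarith [(hy d).2])
        have a5 : 0 ≤ li (y d) / (d.totient : ℝ) := by positivity
        have a6 : (0 : ℝ) ≤ (resCount (y d) d (s d) : ℝ) := by positivity
        unfold resErr
        rw [abs_le]
        constructor <;> linarith [(hy d).2])
      have G2 : 0 ≤ C * (x / (Real.log x) ^ U) := mul_nonneg (by linarith) hxl0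
      linarith

end Pool.Agent.Lib.MX
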