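import Pool.Agent.Lib.MT.Stm
import Pool.Agent.Lib.MS.SpecA

/-!
MP_00e23e_nt, directory Lib/MX (architect helper34; THEOREM MI, version 11): as version 10 (Lib/MT, Lib/MS), with the lower bound
z for the primes of d/t as a parameter, 1 ≤ z ≤ x, in place of x^κ0, and with the bound T for the divisor function up to
x^30 as a parameter: all bounds C x^(1-η) are replaced by Bd C A η x T z = C T^A x/z^η. New at the end: with T = En 60 x,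
z = En A x, En b x = exp(b log x/loglog x), the theorem for all squarefree x^κ-smooth d ≤ x^(1/2+δ).
RULES. Module X: file Pool/Agent/Lib/MX/X.lean, first line `import Pool.Agent.Lib.MX.Stm`, then
`namespace Pool.Agent.Lib.MX` and `open Finset Pool.Agent.Lib.EH3 Pool.Agent.Lib.TB Pool.Agent.Results.MP_00e23e_nt Pool.Agent.Lib.MI`
(MX.BboStmt, ... win over those of MI; write MI.X, MK.X, ML.X, MN.X, MQ.X, MS.X, MT.X for the others: MT.Par, MT.sh, MT.La,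
MS.Pr, MS.Nst, MS.DspStmt, MQ.Dv, ...), private lemmas with names starting with X_, final theorem
`theorem tX (h1 : AStmt) ... : XStmt`; the statements listed under Uses are hypotheses, in this order. MODEL file: copy it and
change it. Never use congr!. Below 60 s.
-/

namespace Pool.Agent.Lib.MX

open Finset Pool.Agent.Lib.EH3 Pool.Agent.Lib.TB Pool.Agent.Results.MP_00e23e_nt Pool.Agent.Lib.MI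

/-- the bounds -/
noncomputable def Bd (C : ℝ) (A : ℕ) (η x T z : ℝ) : ℝ := C * T ^ A * (x / z ^ η)

lemma Bd_nonneg {C η x T z : ℝ} {A : ℕ} (hC : 0 ≤ C) (hT : 1 ≤ T) (hx : 0 ≤ x) (hz : 1 ≤ z) : 0 ≤ Bd C A η x T z := by
  unfold Bd
  have : 0 < z ^ η := Real.rpow_pos_of_pos (by linarith) _
  positivity

lemma Bd_mono {C C' η η' x T z : ℝ} {A A' : ℕ} (hC : 0 ≤ C) (hCC : C ≤ C') (hA : A ≤ A') (hη : η' ≤ η) (hT : 1 ≤ T)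
    (hx : 0 ≤ x) (hz : 1 ≤ z) : Bd C A η x T z ≤ Bd C' A' η' x T z := by
  unfold Bd
  have h1 : T ^ A ≤ T ^ A' := pow_le_pow_right₀ hT hA
  have h2 : 0 < z ^ η' := Real.rpow_pos_of_pos (by linarith) _
  have h3 : z ^ η' ≤ z ^ η := Real.rpow_le_rpow_of_exponent_le hz hη
  have h4 : x / z ^ η ≤ x / z ^ η' := div_le_div_of_nonneg_left hx h2 h3
  have h5 : C * T ^ A ≤ C' * T ^ A' := mul_le_mul hCC h1 (by positivity) (by linarith)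
  exact mul_le_mul h5 h4 (div_nonneg hx (Real.rpow_nonneg (by linarith) _))
    (mul_nonneg (by linarith) (by positivity))

/-- a power saving is a saving in z -/
lemma rp_le {x z μ : ℝ} (hz : 1 ≤ z) (hzx : z ≤ x) (hμ : 0 ≤ μ) : x ^ (1 - μ) ≤ x / z ^ μ := by
  have hx : 0 < x := by linarith
  have h1 : z ^ μ ≤ x ^ μ := Real.rpow_le_rpow (by linarith) hzx hμ
  have h2 : 0 < z ^ μ := Real.rpow_pos_of_pos (by linarith) _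
  rw [Real.rpow_sub hx, Real.rpow_one]
  exact div_le_div_of_nonneg_left hx.le h2 h1

lemma rn_le {x z μ : ℝ} (hz : 1 ≤ z) (hzx : z ≤ x) (hμ : 0 ≤ μ) : x ^ (-μ) ≤ 1 / z ^ μ := by
  have hx : 0 < x := by linarith
  have h1 : z ^ μ ≤ x ^ μ := Real.rpow_le_rpow (by linarith) hzx hμ
  have h2 : 0 < z ^ μ := Real.rpow_pos_of_pos (by linarith) _
  rw [Real.rpow_neg hx.le, ← one_div]
  exact div_le_div_of_nonneg_left zero_le_one h2 h1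

lemma log_le_T {x T : ℝ} (hx : 1 ≤ x) (hT : Tau (x ^ (30 : ℝ)) T) : 1 + Real.log x ≤ T := by
  have h := hT.2.1
  rw [Real.log_rpow (by linarith)] at h
  have := Real.log_nonneg hx
  linarith

lemma Tau_x {x T : ℝ} (hx : 1 ≤ x) (hT : Tau (x ^ (30 : ℝ)) T) : Tau x T :=
  ⟨hT.1, log_le_T hx hT, fun n hn hnx => hT.2.2 n hn (hnx.trans (by
    have := Real.rpow_le_rpow_of_exponent_le hx (show (1 : ℝ) ≤ 30 by norm_num)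
    rwa [Real.rpow_one] at this))⟩

/-- the moduli d, t ∣ d, all primes of d/t are > z -/
def Mz (α τ z x : ℝ) (t d : ℕ) : Prop := Squarefree d ∧ t ∣ d ∧ (d : ℝ) ≤ x ^ α ∧ (t : ℝ) ≤ x ^ τ ∧
  ∀ p : ℕ, p.Prime → p ∣ d / t → z < p

/-- Chapter B. The bilinear theorem for the moduli Mz, variables ≥ x^(1/3-ε), product ≥ x^(1-ε). -/
def BlStmt (α τ κ σ ω ε : ℝ) : Prop := ∃ (η C x0 : ℝ) (A0 : ℕ), 0 < η ∧ 0 ≤ C ∧ ∀ (x T z : ℝ) (a : ℕ → ℤ)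
    (M N : ℕ) (f g : ℕ → ℂ) (F : Finset ℕ) (t : ℕ → ℕ) (v : ℝ → ℕ → ℕ), x0 ≤ x → Tau (x ^ (30 : ℝ)) T → 1 ≤ z →
  z ≤ x → x ^ ((1 : ℝ) / 3 - ε) ≤ N →
  x ^ ((1 : ℝ) / 3 - ε) ≤ M → x ^ (1 - ε) ≤ (M : ℝ) * N → (M : ℝ) * N ≤ x → (∀ m, ‖f m‖ ≤ 1) → (∀ n, ‖g n‖ ≤ 1) →
  (∀ q ∈ F, Mz α τ z x (t q) q ∧ Int.gcd (a q) q = 1) → MS.Nst κ σ ω x a t v F →
  ∑ q ∈ F, ‖∑ m ∈ Ioc M (2 * M), ∑ n ∈ Ioc N (2 * N), f m * g n * Ek (a q) (t q) q (m * n)‖ ≤ Bd C A0 η x T z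

/-- Chapter A. The theorem for the von Mangoldt function, one class function and one Y ≤ x. -/
def CoreStmt (α τ κ σ ω : ℝ) : Prop := ∃ (η C x0 : ℝ) (A0 : ℕ), 0 < η ∧ 0 ≤ C ∧ ∀ (x T z : ℝ) (a : ℕ → ℤ)
    (Y : ℕ) (F : Finset ℕ) (t : ℕ → ℕ) (v : ℝ → ℕ → ℕ), x0 ≤ x → Tau (x ^ (30 : ℝ)) T → 1 ≤ z → z ≤ x → (Y : ℝ) ≤ x →
  (∀ q ∈ F, Mz α τ z x (t q) q ∧ Int.gcd (a q) q = 1) → MS.Nst κ σ ω x a t v F →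
  ∑ q ∈ F, ‖∑ n ∈ Icc 1 Y, (ArithmeticFunction.vonMangoldt n : ℂ) * Ek (a q) (t q) q n‖ ≤ Bd C A0 η x T z

/-- exp(b log x/loglog x) -/
noncomputable def En (b x : ℝ) : ℝ := Real.exp (b * Real.log x / Real.log (Real.log x))

/-- the w-smooth part of a squarefree number d -/
noncomputable def Sp (w : ℝ) (d : ℕ) : ℕ := ∏ p ∈ d.primeFactors.filter (fun p : ℕ => (p : ℝ) ≤ w), p

/-- for the common primes p of d and d' such that d and d' have the same primes < p: s d ≡ s d' modulo p -/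
def Ns (s : ℕ → ℤ) (d d' : ℕ) : Prop := ∀ p : ℕ, p.Prime → p ∣ d → p ∣ d' →
  (∀ q : ℕ, q.Prime → q < p → (q ∣ d ↔ q ∣ d')) → (p : ℤ) ∣ s d - s d'

/-- THEOREM MI (version 11), part A: all squarefree smooth moduli -/
def SmStmt : Prop := ∀ δ κ : ℝ, 0 ≤ δ → 0 < κ → 84 * δ + 60 * κ < 1 → ∀ b U : ℝ, 0 < b → 0 < U → ∃ C : ℝ,
  ∀ (x : ℝ) (s : ℕ → ℤ) (i : ℕ → ℕ) (y : ℕ → ℝ) (M : Finset ℕ), 3 ≤ x → ((M.image i).card : ℝ) ≤ En b x →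
  (∀ d, 2 ≤ y d ∧ y d ≤ x) →
  (∀ d ∈ M, Squarefree d ∧ (d : ℝ) ≤ x ^ (1 / 2 + δ) ∧ (∀ p : ℕ, p.Prime → p ∣ d → (p : ℝ) ≤ x ^ κ) ∧
    Int.gcd (s d) d = 1) →
  (∀ d ∈ M, ∀ d' ∈ M, i d = i d' → Ns s d d') →
  ∑ d ∈ M, |resErr (y d) d (s d)| ≤ C * (x / (Real.log x) ^ U)

/-- THEOREM MI (version 11), part B: moduli d = t (d/t) with all primes of d/t > z -/
def DnStmt : Prop := ∀ δ τ κ σ ω : ℝ, 0 ≤ δ → 0 ≤ τ → τ ≤ 1 / 3 → 0 < κ → 84 * δ + 60 * κ < 1 →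
  σ < 1 / 3 → 10 * δ + 5 * κ < ω → ∃ η A : ℝ, 0 < η ∧ 0 < A ∧ ∀ U : ℝ, 0 < U → ∃ C : ℝ,
  ∀ (x z : ℝ) (s : ℕ → ℤ) (t i : ℕ → ℕ) (v : ℝ → ℕ → ℕ) (y : ℕ → ℝ) (M : Finset ℕ), 3 ≤ x → 1 ≤ z → z ≤ x →
  (∀ d, 2 ≤ y d ∧ y d ≤ x) →
  (∀ d ∈ M, Mz (1 / 2 + δ) τ z x (t d) d ∧ Int.gcd (s d) d = 1) →
  (∀ Z : ℝ, x ^ σ ≤ Z → Z ≤ x ^ ((1 : ℝ) / 2) → (∀ d ∈ M, Z < d → MQ.Dv κ ω x Z t (v Z) d) ∧
    ∀ d ∈ M, ∀ d' ∈ M, Z < d → Z < d' → i d = i d' → t d = t d' → v Z d = v Z d' →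
      ((t d * v Z d : ℕ) : ℤ) ∣ s d - s d') →
  ∑ d ∈ M, |(resCount (y d) d (s d) : ℝ) - (resCount (y d) (t d) (s d) : ℝ) / ((d / t d).totient : ℝ)| ≤
      C * ((M.image i).card * x * En A x / z ^ η) ∧
    ∑ d ∈ M, |resErr (y d) d (s d)| ≤ C * ((M.image i).card * x * En A x / z ^ η) + C * (x / (Real.log x) ^ U)

/-- Module Bbo (theorem tBbo). Uses: MS.DspStmt, ML.Bt1Stmt, MS.BeoStmt. MODEL: Lib/MT/Bbo.lean.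
Proof. As there with the given T (no MI.BtaStmt) and z in place of x^κ0: the square of the sum is ≤ K T^A1 x^2 (x^(-4μ) + 1/z), μ small, ≤ 2 K T^A1 x^2/z^(μ') with μ' = min(4μ, 1) (rn_le); root: C T^A x/z^(μ'/2) (T^(A1/2) ≤ T^A1). No bound for T is needed. -/
def BboStmt : Prop := ∀ δ κ ε : ℝ, MT.Par δ κ ε → ∃ (η C x0 : ℝ) (A0 : ℕ), 0 < η ∧ 0 ≤ C ∧
  ∀ (x T z : ℝ) (A : ℕ → ℕ → ℤ) (b : ℕ → ℤ) (M N R S V : ℕ) (P : Finset (ℕ × ℕ)) (f g : ℕ → ℂ), x0 ≤ x →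
  Tau (x ^ (30 : ℝ)) T → 1 ≤ z → z ≤ x → Blk δ κ ε x M N R S →
  (N : ℝ) ≤ x ^ (1 / 2 - MT.sh δ κ ε) → x ^ (yy δ κ ε + 4 * ε) ≤ 2 * V → (V : ℝ) ≤ x ^ (yy δ κ ε + κ + 4 * ε) →
  MS.Pr A b R S z P → (∀ w ∈ P, (∃ v : ℕ, v ∣ w.2 ∧ V < v ∧ v ≤ 2 * V) ∧
    ∃ r0 : ℕ, r0 ∣ w.1 ∧ MT.La δ κ ε x V S < r0 ∧ (r0 : ℝ) ≤ MT.La δ κ ε x V S * x ^ κ) →
  (∀ m, ‖f m‖ ≤ 1) → (∀ n, ‖g n‖ ≤ 1) →
  ∑ w ∈ P, ‖∑ m ∈ Ioc M (2 * M), ∑ n ∈ Ioc N (2 * N), f m * g n * Dl (A w.1 w.2) w.1 w.2 (m * n)‖ ≤ Bd C A0 η x T z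

/-- Module Bbt (theorem tBbt). Uses: MS.DspStmt, ML.Bt2Stmt, MS.BetStmt. MODEL: Lib/MT/Bbt.lean.
Proof. As there with the given T (no MI.BtaStmt) and z in place of x^κ0; the end as in Bbo. -/
def BbtStmt : Prop := ∀ δ κ ε : ℝ, MT.Par δ κ ε → ∃ (η C x0 : ℝ) (A0 : ℕ), 0 < η ∧ 0 ≤ C ∧
  ∀ (x T z : ℝ) (A : ℕ → ℕ → ℤ) (b : ℕ → ℤ) (M N R S : ℕ) (P : Finset (ℕ × ℕ)) (f g : ℕ → ℂ), x0 ≤ x →
  Tau (x ^ (30 : ℝ)) T → 1 ≤ z → z ≤ x → Blk δ κ ε x M N R S → x ^ (1 / 2 - MT.sh δ κ ε) ≤ (N : ℝ) →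
  MS.Pr A b R S z P → (∀ m, ‖f m‖ ≤ 1) → (∀ n, ‖g n‖ ≤ 1) →
  ∑ w ∈ P, ‖∑ m ∈ Ioc M (2 * M), ∑ n ∈ Ioc N (2 * N), f m * g n * Dl (A w.1 w.2) w.1 w.2 (m * n)‖ ≤ Bd C A0 η x T z

/-- Module Bdr (theorem tBdr). Uses: BboStmt, BbtStmt. MODEL: Lib/MT/Bdr.lean.
Proof. As there; η = min η1 η2, A0 = max A1 A2 + 3 (or A1 + A2 + 3); the number of blocks is ≤ C (1 + log x)^3 ≤ C T^3 (log_le_T). -/
def BdrStmt : Prop := ∀ δ τ κ ω ε : ℝ, MT.Par δ κ ε → 10 * δ + 5 * κ + 20 * ε ≤ ω →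
  ∃ (η C x0 : ℝ) (A0 : ℕ), 0 < η ∧ 0 ≤ C ∧
  ∀ (x T z : ℝ) (a : ℕ → ℤ) (M N : ℕ) (f g : ℕ → ℂ) (G : Finset ℕ) (t u : ℕ → ℕ), x0 ≤ x →
  Tau (x ^ (30 : ℝ)) T → 1 ≤ z → z ≤ x → N ≤ M → x ^ ((1 : ℝ) / 3 - ε) ≤ N →
  x ^ (1 - ε) ≤ (M : ℝ) * N → (M : ℝ) * N ≤ x → (∀ m, ‖f m‖ ≤ 1) → (∀ n, ‖g n‖ ≤ 1) →
  (∀ q ∈ G, Mz (1 / 2 + δ) τ z x (t q) q ∧ Int.gcd (a q) q = 1 ∧ x ^ (1 / 2 - ε / 2) < (q : ℝ) ∧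
    MQ.Dv κ ω x (N * x ^ (-ε)) t u q) →
  (∀ q ∈ G, ∀ q' ∈ G, t q * u q = t q' * u q' → t q = t q' ∧ ((t q * u q : ℕ) : ℤ) ∣ a q - a q') →
  ∑ q ∈ G, ‖∑ m ∈ Ioc M (2 * M), ∑ n ∈ Ioc N (2 * N),
      f m * g n * Dl (a q) (t q * u q) (q / (t q * u q)) (m * n)‖ ≤ Bd C A0 η x T z

/-- Module Bds (theorem tBds). Uses: BdrStmt, MK.FspStmt. MODEL: Lib/MT/Bds.lean. (K = T, A0 = A1 + 1.) -/
def BdsStmt : Prop := ∀ δ τ κ ω ε : ℝ, MT.Par δ κ ε → 10 * δ + 5 * κ + 20 * ε ≤ ω →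
  ∃ (η C x0 : ℝ) (A0 : ℕ), 0 < η ∧ 0 ≤ C ∧
  ∀ (x T z : ℝ) (a : ℕ → ℤ) (M N : ℕ) (f g : ℕ → ℂ) (F : Finset ℕ) (t u : ℕ → ℕ), x0 ≤ x →
  Tau (x ^ (30 : ℝ)) T → 1 ≤ z → z ≤ x → N ≤ M → x ^ ((1 : ℝ) / 3 - ε) ≤ N →
  x ^ (1 - ε) ≤ (M : ℝ) * N → (M : ℝ) * N ≤ x → (∀ m, ‖f m‖ ≤ 1) → (∀ n, ‖g n‖ ≤ 1) →
  (∀ q ∈ F, Mz (1 / 2 + δ) τ z x (t q) q ∧ Int.gcd (a q) q = 1 ∧ x ^ (1 / 2 - ε / 2) < (q : ℝ) ∧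
    MQ.Dv κ ω x (N * x ^ (-ε)) t u q) →
  (∀ q ∈ F, ∀ q' ∈ F, t q = t q' → u q = u q' → ((t q * u q : ℕ) : ℤ) ∣ a q - a q') →
  ∑ q ∈ F, ‖∑ m ∈ Ioc M (2 * M), ∑ n ∈ Ioc N (2 * N),
      f m * g n * Dl (a q) (t q * u q) (q / (t q * u q)) (m * n)‖ ≤ Bd C A0 η x T z

/-- Module Bfi (theorem tBfi). Uses: BdsStmt, MI.BidStmt, MN.BrmStmt, ML.BlgStmt, MI.LrgStmt. MODEL: Lib/MT/Bfi.lean.
Proof. As there with the given T (no MI.BtaStmt), X = x^30, z in place of x^κ0 and Z = ⌊z⌋ (1 ≤ ⌊z⌋, z/2 ≤ ⌊z⌋, ⌊z⌋ < p if z < p) in the large sieve; all terms are ≤ C T^A x (1/z + x^(-μ)) ≤ 2 C T^A x/z^(min 1 μ) (rn_le). -/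
def BfiStmt : Prop := ∀ δ τ κ σ ω : ℝ, 0 ≤ δ → 0 ≤ τ → τ ≤ 1 / 3 → 0 < κ → 84 * δ + 60 * κ < 1 →
  σ < 1 / 3 → 10 * δ + 5 * κ < ω → ∃ ε : ℝ, 0 < ε ∧ ε < 1 / 100 ∧ BlStmt (1 / 2 + δ) τ κ σ ω ε

/-- Module Acb (theorem tAcb; BlStmt α τ κ σ ω ε is a hypothesis inside). Uses: nothing. MODEL: Lib/MS/Acb.lean. -/
def AcbStmt : Prop := ∀ α τ κ σ ω ε : ℝ, 0 < ε → ε < 1 / 100 → BlStmt α τ κ σ ω ε →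
  ∃ (η C x0 : ℝ) (A0 : ℕ), 0 < η ∧ 0 ≤ C ∧ 3 ≤ x0 ∧ ∀ (x T z : ℝ) (a : ℕ → ℤ) (Y K i j : ℕ) (f g : ℕ → ℂ) (F : Finset ℕ)
    (t : ℕ → ℕ) (v : ℝ → ℕ → ℕ),
  x0 ≤ x → Tau (x ^ (30 : ℝ)) T → 1 ≤ z → z ≤ x → (Y : ℝ) ≤ x → 4 ≤ K → (∀ m, ‖f m‖ ≤ 1) →
  (∀ n, ‖g n‖ ≤ 1) → (∀ m, f m ≠ 0 → x ^ ((1 : ℝ) / 3) < m ∧ (m : ℝ) ≤ x ^ ((2 : ℝ) / 3)) →
  (K : ℝ) * (Real.log 4 + (1 - ε / 2) * Real.log x) ≤ (i : ℝ) + j → (i : ℝ) + j + 2 ≤ K * Real.log Y →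
  (∀ q ∈ F, Mz α τ z x (t q) q ∧ Int.gcd (a q) q = 1) → MS.Nst κ σ ω x a t v F →
  ∑ q ∈ F, ‖∑ m ∈ Icc 1 Y, ∑ n ∈ Icc 1 Y, cl K i f m * cl K j g n * Ek (a q) (t q) q (m * n)‖ ≤ Bd C A0 η x T z

/-- Module Abi (theorem tAbi). Uses: MI.AclStmt, MK.AtrStmt, AcbStmt. MODEL: Lib/MS/Abi.lean.
Proof. As there with the given T (Tau x T: Tau_x; no MI.AtuStmt). η = min(η1/4, ε/8, 1/100), K = ⌈z^η⌉ + 3 (4 ≤ K, z^η ≤ K ≤ 5 z^η). Good cells: at most I^2 ≤ (6 z^η T)^2 of them (I ≤ K log x + 1, log x ≤ T - 1), each ≤ Bd C1 A1 η1 x T z: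
in total ≤ 36 C1 T^(A1+2) x z^(2η-η1) ≤ 36 C1 T^(A1+2) x/z^η. The rest: e^((G+1)/K) ≤ 8 x^(1-ε/2) ≤ 8 x/z^η (rp_le), Y/K ≤ x/z^η, 1, D ≤ x^(3/5) ≤ x/z^η: ≤ 44 T^3 x/z^η. -/
def AbiStmt : Prop := ∀ α τ κ σ ω ε : ℝ, α ≤ 3 / 5 → 0 < ε → ε < 1 / 100 → BlStmt α τ κ σ ω ε →
  ∃ (η C x0 : ℝ) (A0 : ℕ), 0 < η ∧ 0 ≤ C ∧ 3 ≤ x0 ∧ ∀ (x T z : ℝ) (a : ℕ → ℤ) (Y : ℕ) (f g : ℕ → ℂ) (F : Finset ℕ)
    (t : ℕ → ℕ) (v : ℝ → ℕ → ℕ),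
  x0 ≤ x → Tau (x ^ (30 : ℝ)) T → 1 ≤ z → z ≤ x → (Y : ℝ) ≤ x → (∀ m, ‖f m‖ ≤ 1) → (∀ n, ‖g n‖ ≤ 1) →
  (∀ m, f m ≠ 0 → x ^ ((1 : ℝ) / 3) < m ∧ (m : ℝ) ≤ x ^ ((2 : ℝ) / 3)) →
  (∀ q ∈ F, Mz α τ z x (t q) q ∧ Int.gcd (a q) q = 1) → MS.Nst κ σ ω x a t v F →
  ∑ q ∈ F, ‖∑ m ∈ Icc 1 Y, ∑ n ∈ Icc 1 (Y / m), f m * g n * Ek (a q) (t q) q (m * n)‖ ≤ Bd C A0 η x T z

/-- Module Afi (theorem tAfi). Uses: MI.AvaStmt, CO.VgbStmt, MI.AtyStmt, AbiStmt. MODEL: Lib/MS/Afi.lean.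
Proof. As there with the given T (Tau_x, log_le_T; no MI.AtuStmt): S1, S2, S3 for b ≤ z: 11 T^2 x^(14/15) ≤ 11 T^2 x/z^(1/20) (rp_le); the other parts ≤ T^2 Bd C1 A1 η1. η = min(η1, 1/20), A0 = A1 + 2. -/
def AfiStmt : Prop := ∀ α τ κ σ ω ε : ℝ, 0 < ε → ε < 1 / 100 → α ≤ 3 / 5 → 0 ≤ τ → τ ≤ 1 / 3 → 0 < κ →
  κ ≤ 1 / 10 → BlStmt α τ κ σ ω ε → CoreStmt α τ κ σ ω

/-- Module Fth (theorem tFth). Uses: MI.FtpStmt, MI.FtnStmt, MK.FpwStmt. MODEL: Lib/MS/Fth.lean.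
Proof. As there with the given T (Tau (x^30) T, no MI.AtuStmt): all parts except the one of CoreStmt are ≤ C T^A x^(9/10) ≤ C T^A x/z^(1/10) (rp_le). η = min(η1, 1/10). -/
def FthStmt : Prop := ∀ α τ κ σ ω : ℝ, α ≤ 3 / 5 → 0 ≤ τ → τ ≤ 1 / 3 → CoreStmt α τ κ σ ω →
  ∃ (η C x0 : ℝ) (A0 : ℕ), 0 < η ∧ 0 ≤ C ∧ 3 ≤ x0 ∧ ∀ (x T z : ℝ) (a : ℕ → ℤ) (Y : ℕ) (F : Finset ℕ) (t : ℕ → ℕ)
    (v : ℝ → ℕ → ℕ), x0 ≤ x → Tau (x ^ (30 : ℝ)) T → 1 ≤ z → z ≤ x →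
  (Y : ℝ) ≤ x → (∀ q ∈ F, Mz α τ z x (t q) q ∧ Int.gcd (a q) q = 1) → MS.Nst κ σ ω x a t v F →
  ∑ q ∈ F, ‖∑ p ∈ (Icc 1 Y).filter Nat.Prime, ((Real.log p : ℝ) : ℂ) * Ek (a q) (t q) q p‖ ≤ Bd C A0 η x T z

/-- Module Fpi (theorem tFpi). Uses: FthStmt, MI.FabStmt. MODEL: Lib/MS/Fpi.lean. (T given; T x^(3/5) ≤ T x/z^(1/10).) -/
def FpiStmt : Prop := ∀ α τ κ σ ω : ℝ, α ≤ 3 / 5 → 0 ≤ τ → τ ≤ 1 / 3 → CoreStmt α τ κ σ ω →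
  ∃ (η C x0 : ℝ) (A0 : ℕ), 0 < η ∧ 0 ≤ C ∧ 3 ≤ x0 ∧ ∀ (x T z : ℝ) (a : ℕ → ℤ) (Y : ℕ) (F : Finset ℕ) (t : ℕ → ℕ)
    (v : ℝ → ℕ → ℕ), x0 ≤ x → Tau (x ^ (30 : ℝ)) T → 1 ≤ z → z ≤ x →
  (Y : ℝ) ≤ x → (∀ q ∈ F, Mz α τ z x (t q) q ∧ Int.gcd (a q) q = 1) → MS.Nst κ σ ω x a t v F →
  ∑ q ∈ F, |df Y q (t q) (a q)| ≤ Bd C A0 η x T z

/-- Module Fps (theorem tFps). Uses: FpiStmt, MI.FgrStmt, MI.FtnStmt. MODEL: Lib/MS/Fps.lean.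
Proof. As there with J = card (M.image i) in place of x^η (M empty: trivial; otherwise J ≥ 1), η = min(η1/2, 1/10), G = ⌈z^η⌉ (z^η ≤ G, G + 1 ≤ 3 z^η): the first part is ≤ (G + 1) J Bd C1 A1 η1 ≤ 3 C1 J T^A1 x/z^η (2η ≤ η1); the second ≤ 6 (log x)^2 ((x/G)(1 + log x) + 2 x^(1/3)) ≤ 18 T^3 x/z^η (rp_le). -/
def FpsStmt : Prop := ∀ α τ κ σ ω : ℝ, α ≤ 3 / 5 → 0 ≤ τ → τ ≤ 1 / 3 → CoreStmt α τ κ σ ω →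
  ∃ (η C x0 : ℝ) (A0 : ℕ), 0 < η ∧ η ≤ 1 / 10 ∧ 0 ≤ C ∧ 3 ≤ x0 ∧
  ∀ (x T z : ℝ) (s : ℕ → ℤ) (t i : ℕ → ℕ) (v : ℝ → ℕ → ℕ) (y : ℕ → ℝ) (M : Finset ℕ), x0 ≤ x →
  Tau (x ^ (30 : ℝ)) T → 1 ≤ z → z ≤ x → (∀ d, 2 ≤ y d ∧ y d ≤ x) →
  (∀ d ∈ M, Mz α τ z x (t d) d ∧ Int.gcd (s d) d = 1) →
  (∀ Z : ℝ, x ^ σ ≤ Z → Z ≤ x ^ ((1 : ℝ) / 2) → (∀ d ∈ M, Z < d → MQ.Dv κ ω x Z t (v Z) d) ∧
    ∀ d ∈ M, ∀ d' ∈ M, Z < d → Z < d' → i d = i d' → t d = t d' → v Z d = v Z d' →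
      ((t d * v Z d : ℕ) : ℤ) ∣ s d - s d') →
  ∑ d ∈ M, |df (y d) d (t d) (s d)| ≤ (M.image i).card * Bd C A0 η x T z

/-- Module Wig (theorem tWig; the divisor function). Uses: nothing.
Proof. Let L = log x, l = log L, x large (l ≥ 1). (a) 1 ≤ En 60 x. (b) 1 + log (x^30) = 1 + 30 L ≤ exp(60 L/l) for x large (60 L/l ≥ 2 l ≥ log(1 + 30 L)). (c) Let 1 ≤ n ≤ x^30. n.divisors.card = ∏_{p ∣ n} (a_p + 1) (Nat.Coprime.card_divisors_mul, ArithmeticFunction / Nat.card_divisors: n.divisors.card = ∏ x ∈ n.primeFactors, (n.factorization x + 1)).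
With w = L^(1/2): for p ≤ w: a_p + 1 ≤ 1 + log n/log 2 ≤ 1 + 50 L, at most w such primes: product ≤ (1 + 50 L)^w = exp(w log(1 + 50 L)) ≤ exp(L/l) for x large (L^(1/2) log(1 + 50 L) log L ≤ L). For p > w: a_p + 1 ≤ 2^(a_p) = (p^(a_p))^(log 2/log p) ≤ (p^(a_p))^(2 log 2/l) (log p ≥ l/2);
product ≤ n^(2 log 2/l) ≤ exp(60 log 2 L/l) ≤ exp(42 L/l). Total ≤ exp(43 L/l) ≤ En 60 x. -/
def WigStmt : Prop := ∃ x0 : ℝ, 3 ≤ x0 ∧ ∀ x : ℝ, x0 ≤ x → Tau (x ^ (30 : ℝ)) (En 60 x)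

/-- Module Mer (theorem tMer; Mertens type upper bounds). Uses: nothing.
Proof. For j ≥ 1 the primes p in (2^j, 2^(j+1)] have ∑ log p ≤ log (primorial (2^(j+1))) ≤ 2^(j+1) log 4 (primorial_le_four_pow; or Chebyshev.theta_le...), and p - 1 ≥ 2^j: ∑ log p/(p-1) ≤ 2 log 4 ≤ 3; ∑ 1/(p-1) ≤ 3/(j log 2) ≤ 5/j. p = 2 adds log 2, 1. The j with 2^j ≤ w: at most 1 + log w/log 2;
sums ≤ 1 + 3 (1 + 2 log w) ≤ C log w and ≤ 1 + 5 (1 + log (1 + log w/log 2)) ≤ C (1 + log (log w)) (w ≥ 3). -/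
def MerStmt : Prop := ∃ C : ℝ, 0 ≤ C ∧ ∀ w : ℝ, 3 ≤ w →
  ∑ p ∈ (Icc 1 ⌊w⌋₊).filter Nat.Prime, 1 / ((p : ℝ) - 1) ≤ C * (1 + Real.log (Real.log w)) ∧
    ∑ p ∈ (Icc 1 ⌊w⌋₊).filter Nat.Prime, Real.log p / ((p : ℝ) - 1) ≤ C * Real.log w

/-- Module Ran (theorem tRan; Rankin's method). Uses: MerStmt.
Proof. C0 from MerStmt, L = log x, l = log L, w = En A' x, log w = A' L/l, x large (w ≥ 3, log w ≤ L). c = (10/3) A' (U + C0), ν = c/log w. For n ∈ F: 1 ≤ (n/x^(3/10))^ν, so ∑ 1/φ(n) ≤ x^(-3ν/10) ∑ n^ν/φ(n) ≤ x^(-3ν/10) ∏_{p ≤ w} (1 + p^ν/(p-1)) (n squarefree with primes ≤ w: n = ∏_{p ∈ S} p for the set S = n.primeFactors,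
∑ over subsets of the product = ∏ (1 + ..): Finset.prod_one_add / prod_add; φ(n) = ∏ (p-1)). p^ν = exp(c log p/log w) ≤ 1 + (e^c - 1) log p/log w (convexity of exp on [0, c], log p ≤ log w), so ∑_{p ≤ w} p^ν/(p-1) ≤ C0 (1 + log log w) + (e^c - 1) C0 ≤ C0 e^c + C0 l. So the sum is ≤ exp(-(3/10) (c/log w) L + C0 e^c + C0 l)
= exp(C0 e^c) L^(C0 - 3c/(10 A')) = exp(C0 e^c) L^(-U). -/
def RanStmt : Prop := ∀ A' U : ℝ, 0 < A' → 0 < U → ∃ C x0 : ℝ, 0 ≤ C ∧ 3 ≤ x0 ∧ ∀ (x : ℝ) (F : Finset ℕ), x0 ≤ x →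
  (∀ n ∈ F, Squarefree n ∧ x ^ ((3 : ℝ) / 10) < n ∧ ∀ p : ℕ, p.Prime → p ∣ n → (p : ℝ) ≤ En A' x) →
  ∑ n ∈ F, 1 / (n.totient : ℝ) ≤ C / (Real.log x) ^ U

/-- Module Exc (theorem tExc; the exceptional moduli). Uses: RanStmt, MI.FtnStmt.
Proof. w = En A' x, t d = Sp w d; C1, x1 from RanStmt with U + 2. resCount y d s ≤ y/d + 1 ≤ 2x/d ≤ 2x/φ(d) (the integers n ≤ y with d ∣ n - s; d ≤ x), li y ≤ 2y (EH.li_le), so |resErr (y d) d (s d)| ≤ 4x/φ(d) = 4x/(φ(t) φ(d/t)) (d squarefree, t ∣ d).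
MI.FtnStmt (second part) with Z = x, g(n) = 1/φ(n) if n is squarefree, n > x^(3/10) and all primes of n are ≤ w, else 0: ∑ ≤ 4x 6 (log x)^2 ∑_{n ≤ x} g(n) ≤ 24 C1 x (log x)^2/(log x)^(U+2). -/
def ExcStmt : Prop := ∀ A' U : ℝ, 0 < A' → 0 < U → ∃ C x0 : ℝ, 0 ≤ C ∧ 3 ≤ x0 ∧
  ∀ (x : ℝ) (s : ℕ → ℤ) (y : ℕ → ℝ) (M : Finset ℕ), x0 ≤ x → (∀ d, 2 ≤ y d ∧ y d ≤ x) →
  (∀ d ∈ M, Squarefree d ∧ (d : ℝ) ≤ x ∧ x ^ ((3 : ℝ) / 10) < Sp (En A' x) d) →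
  ∑ d ∈ M, |resErr (y d) d (s d)| ≤ C * (x / (Real.log x) ^ U)

/-- Module Grd (theorem tGrd; initial products of smooth numbers). Uses: nothing.
Proof. First part. For real w' put r(w') = Sp w' d; r(w) ≤ Z < d = r(d). Take the largest natural number k ≤ d with (k : ℝ) ≤ w or Sp k d ≤ Z, or: let k be the least natural number with Z < Sp k d (k = d works); then w < k (Sp is monotone in the first argument), k ≥ 1, w' = max w (k - 1): Sp w' d ≤ Z (Sp (k-1) d ≤ Z by minimality), Sp k d > Sp (k-1) d, so k is a prime dividing d and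
Sp k d = k Sp (k-1) d, k ≤ x^κ: Z < Sp w' d x^κ. (w' < k gives Sp w' d = Sp (k-1) d if w' ≥ k - 1.) v = Sp w' d/Sp w d divides d/Sp w d (d squarefree). Dn: every number n ≥ 1 all of whose primes are ≤ x^κ has for 1 ≤ W ≤ n a divisor e ≤ W < e x^κ (MI.BgrStmt-type argument, Lib/MI/Bgr.lean tBgr with t = 1 for W < n; e = n for W = n).
Second part. For a prime p ∣ Sp w d = Sp w' d': p ≤ w, p ∣ d, p ≤ w', p ∣ d'; a prime q < p divides d iff it divides Sp w d = Sp w' d' iff it divides d'. So p ∣ s d - s d'; Sp w d is squarefree, a product of such primes. -/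
def GrdStmt : Prop := (∀ (x κ ω w Z : ℝ) (d : ℕ), 1 < x → 0 < κ → Squarefree d →
    (∀ p : ℕ, p.Prime → p ∣ d → (p : ℝ) ≤ x ^ κ) → (Sp w d : ℝ) ≤ Z → Z < d →
    ∃ (v : ℕ) (w' : ℝ), Sp w d * v = Sp w' d ∧ v ∣ d / Sp w d ∧ (Sp w d : ℝ) * v ≤ Z ∧
      Z < (Sp w d : ℝ) * v * x ^ κ ∧ MQ.Dn (x ^ κ) (x ^ ω) (Sp w d * v) ∧
      MQ.Dn (x ^ κ) (x ^ ω) (d / (Sp w d * v))) ∧
  ∀ (s : ℕ → ℤ) (d d' : ℕ) (w w' : ℝ), Squarefree d → Squarefree d' → Ns s d d' → Sp w d = Sp w' d' →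
    ((Sp w d : ℕ) : ℤ) ∣ s d - s d'

/-- Module Fag (theorem tFag; large x, the moduli with Sp (En A' x) d ≤ x^(3/10)). Uses: FpsStmt, WigStmt, GrdStmt, MI.FbvStmt. (CoreStmt is a hypothesis inside.)
Proof. α = 1/2 + δ ≤ 3/5, τ = σ = 3/10, ω = 1; η, C1, A0 from FpsStmt; A' = (b + 60 A0 + 1)/η. x large: z = En A' x satisfies 1 ≤ z ≤ x (log log x ≥ A'), T = En 60 x (WigStmt). t d = Sp z d ∣ d, all primes of d/t d are > z, t d ≤ x^(3/10). v Z d from GrdStmt by choice (if x^(3/10) ≤ Z < d, d ∈ M; else 1): MQ.Dv κ 1 x Z t (v Z) d,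
and for d, d' ∈ M with i d = i d', t d = t d', v Z d = v Z d': Sp w1 d = t d * v Z d = t d' * v Z d' = Sp w2 d', so t d * v Z d ∣ s d - s d' (GrdStmt, second part). FpsStmt: ∑ |df| ≤ J C1 T^A0 x/z^η ≤ C1 x En (b + 60 A0 - A' η) x = C1 x En (-1) x ≤ C1 x/(log x)^U for x large (log x/loglog x ≥ U loglog x).
|resErr (y d) d (s d)| ≤ |df| + |resErr (y d) (t d) (s d)|/φ(d/t d) as in Lib/MS/Fmi.lean (Fmi_split), the sum of the second terms by MI.FbvStmt. -/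
def FagStmt : Prop := ∀ δ κ : ℝ, 0 ≤ δ → 0 < κ → 84 * δ + 60 * κ < 1 →
  CoreStmt (1 / 2 + δ) (3 / 10) κ (3 / 10) 1 → ∀ b U : ℝ, 0 < b → 0 < U → ∃ A' C x0 : ℝ, 0 < A' ∧ 0 ≤ C ∧ 3 ≤ x0 ∧
  ∀ (x : ℝ) (s : ℕ → ℤ) (i : ℕ → ℕ) (y : ℕ → ℝ) (M : Finset ℕ), x0 ≤ x → ((M.image i).card : ℝ) ≤ En b x →
  (∀ d, 2 ≤ y d ∧ y d ≤ x) →
  (∀ d ∈ M, Squarefree d ∧ (d : ℝ) ≤ x ^ (1 / 2 + δ) ∧ (∀ p : ℕ, p.Prime → p ∣ d → (p : ℝ) ≤ x ^ κ) ∧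
    Int.gcd (s d) d = 1 ∧ (Sp (En A' x) d : ℝ) ≤ x ^ ((3 : ℝ) / 10)) →
  (∀ d ∈ M, ∀ d' ∈ M, i d = i d' → Ns s d d') →
  ∑ d ∈ M, |resErr (y d) d (s d)| ≤ C * (x / (Real.log x) ^ U)

/-- Module Fal (theorem tFal). Uses: BfiStmt, AfiStmt, FagStmt, ExcStmt. FINAL STATEMENT SmStmt.
Proof. CoreStmt (1/2+δ) (3/10) κ (3/10) 1 from BfiStmt (10δ + 5κ < 1) and AfiStmt. A', C1, x1 from FagStmt, C2, x2 from ExcStmt with A', U. For x ≥ x1, x2: split M by Sp (En A' x) d ≤ x^(3/10) or not (the image under i of a subset has at most as many elements). For 3 ≤ x < x3 = max x1 x2: trivial bound as in Lib/MS/Fmi.lean (card M ≤ x3, |resErr| ≤ 3x). -/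
def FalStmt : Prop := SmStmt

/-- Module Fdn (theorem tFdn). Uses: BfiStmt, AfiStmt, FpsStmt, WigStmt, MI.FbvStmt. FINAL STATEMENT DnStmt. MODEL: Lib/MS/Fmi.lean.
Proof. CoreStmt (1/2+δ) τ κ σ ω from BfiStmt, AfiStmt (κ ≤ 1/10, 1/2 + δ ≤ 3/5). η, C1, A0, x1 from FpsStmt, x2 from WigStmt, A = 60 A0 + 1. For x ≥ max x1 x2 16: T = En 60 x, T^A0 = En (60 A0) x ≤ En A x; the rest as in the MODEL (resErr = df + resErr (t)/φ). For 3 ≤ x < x3: trivial bound 3 x3^2 (M empty: 0; otherwise card (M.image i) ≥ 1, En A x ≥ 1 (log (log x) > 0), x/z^η ≥ 1 (η ≤ 1/10, z ≤ x)). -/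
def FdnStmt : Prop := DnStmt

end Pool.Agent.Lib.MX
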