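import Pool.Agent.Lib.MX.Stm

/-!
MP_00e23e_nt, directory Lib/MX (architect helper34; THEOREM MI, version 11), part A in a stronger form: moduli d = m n, m ≤ x^τ
arbitrary, n x^κ-smooth, 10 δ + 5 κ + τ < 1/3; classes: only for the numbers m r, r an initial product of n, in (x^(3/10), x^(1/2)].
RULES. Module X: file Pool/Agent/Lib/MX/X.lean, first line `import Pool.Agent.Lib.MX.StmE`, otherwise as in MX/Stm.lean.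
-/

namespace Pool.Agent.Lib.MX

open Finset Pool.Agent.Lib.EH3 Pool.Agent.Lib.TB Pool.Agent.Results.MP_00e23e_nt Pool.Agent.Lib.MI

/-- r is a product of the smallest primes of the squarefree number n -/
def Ini (r n : ℕ) : Prop := r ∣ n ∧ ∀ p q : ℕ, p.Prime → q.Prime → p ∣ r → q ∣ n / r → p < q

/-- the classes s d and s d' agree modulo m r for the common initial products r of d/m and d'/m with m r in (x^(3/10), x^(1/2)] -/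
def Nm (x : ℝ) (s : ℕ → ℤ) (m : ℕ → ℕ) (d d' : ℕ) : Prop := m d = m d' → ∀ r : ℕ, Ini r (d / m d) → Ini r (d' / m d') →
  x ^ ((3 : ℝ) / 10) < (m d : ℝ) * r → (m d : ℝ) * r ≤ x ^ ((1 : ℝ) / 2) → ((m d * r : ℕ) : ℤ) ∣ s d - s d'

/-- the moduli d = m (d/m) -/
def Mm (α τ κ x : ℝ) (m d : ℕ) : Prop := Squarefree d ∧ m ∣ d ∧ (d : ℝ) ≤ x ^ α ∧ (m : ℝ) ≤ x ^ τ ∧
  ∀ p : ℕ, p.Prime → p ∣ d / m → (p : ℝ) ≤ x ^ κ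

/-- THEOREM MI (version 11), part A -/
def SeStmt : Prop := ∀ δ τ κ : ℝ, 0 ≤ δ → 0 ≤ τ → 0 < κ → 84 * δ + 60 * κ < 1 → 10 * δ + 5 * κ + τ < 1 / 3 →
  ∀ b U : ℝ, 0 < b → 0 < U → ∃ C : ℝ,
  ∀ (x : ℝ) (s : ℕ → ℤ) (m i : ℕ → ℕ) (y : ℕ → ℝ) (M : Finset ℕ), 3 ≤ x → ((M.image i).card : ℝ) ≤ En b x →
  (∀ d, 2 ≤ y d ∧ y d ≤ x) → (∀ d ∈ M, Mm (1 / 2 + δ) τ κ x (m d) d ∧ Int.gcd (s d) d = 1) →
  (∀ d ∈ M, ∀ d' ∈ M, i d = i d' → Nm x s m d d') →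
  ∑ d ∈ M, |resErr (y d) d (s d)| ≤ C * (x / (Real.log x) ^ U)

/-- Module Rae (theorem tRae). Uses: MerStmt. MODEL: Lib/MX/Ran.lean (e in place of 3/10; c = A' (U + C0)/e). -/
def RaeStmt : Prop := ∀ e A' U : ℝ, 0 < e → 0 < A' → 0 < U → ∃ C x0 : ℝ, 0 ≤ C ∧ 3 ≤ x0 ∧
  ∀ (x : ℝ) (F : Finset ℕ), x0 ≤ x →
  (∀ n ∈ F, Squarefree n ∧ x ^ e < n ∧ ∀ p : ℕ, p.Prime → p ∣ n → (p : ℝ) ≤ En A' x) →
  ∑ n ∈ F, 1 / (n.totient : ℝ) ≤ C / (Real.log x) ^ U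

/-- Module Exe (theorem tExe). Uses: RaeStmt, MI.FtnStmt. MODEL: Lib/MX/Exc.lean (e in place of 3/10). -/
def ExeStmt : Prop := ∀ e A' U : ℝ, 0 < e → 0 < A' → 0 < U → ∃ C x0 : ℝ, 0 ≤ C ∧ 3 ≤ x0 ∧
  ∀ (x : ℝ) (s : ℕ → ℤ) (y : ℕ → ℝ) (M : Finset ℕ), x0 ≤ x → (∀ d, 2 ≤ y d ∧ y d ≤ x) →
  (∀ d ∈ M, Squarefree d ∧ (d : ℝ) ≤ x ∧ x ^ e < Sp (En A' x) d) →
  ∑ d ∈ M, |resErr (y d) d (s d)| ≤ C * (x / (Real.log x) ^ U)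

/-- Module Gre (theorem tGre). Uses: nothing. MODEL: Lib/MX/Grd.lean (first part).
Proof. As in Grd for n in place of d and Z/m in place of Z: v, w' with Sp w n * v = Sp w' n, Sp w' n ≤ Z/m < Sp w' n x^κ (m ≥ 1). Dn for m Sp w' n: let 1 ≤ W ≤ x^ω; m x^ω ≤ Z < m Sp w' n x^κ, so x^ω < Sp w' n x^κ. If W ≤ Sp w' n: a divisor of Sp w' n as in Grd; otherwise e = Sp w' n.
m n/(m Sp w' n) = n/Sp w' n is x^κ-smooth: as in Grd. Ini (Sp w' n) n: the primes of Sp w' n are ≤ w', those of n/Sp w' n are > w' (n squarefree). -/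
def GreStmt : Prop := ∀ (x κ ω w Z : ℝ) (m n : ℕ), 1 < x → 0 < κ → Squarefree (m * n) →
  (∀ p : ℕ, p.Prime → p ∣ n → (p : ℝ) ≤ x ^ κ) → (m : ℝ) * Sp w n ≤ Z → Z < (m : ℝ) * n → (m : ℝ) * x ^ ω ≤ Z →
  ∃ v r : ℕ, Ini r n ∧ m * Sp w n * v = m * r ∧ v ∣ m * n / (m * Sp w n) ∧ ((m * Sp w n : ℕ) : ℝ) * v ≤ Z ∧
    Z < ((m * Sp w n : ℕ) : ℝ) * v * x ^ κ ∧ MQ.Dn (x ^ κ) (x ^ ω) (m * Sp w n * v) ∧
    MQ.Dn (x ^ κ) (x ^ ω) (m * n / (m * Sp w n * v))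

/-- Module Fae (theorem tFae). Uses: FpsStmt, WigStmt, GreStmt, MI.FbvStmt, MK.FspStmt. MODEL: Lib/MX/Fag.lean (CoreStmt is a hypothesis inside).
Proof. As there: FpsStmt with α = 1/2 + δ, τ := σ, κ, σ, ω (σ ≤ 1/3), T = En 60 x, z = En A' x, A' = (b + 60 (A0 + 1) + 1)/η, t d = m d * Sp z (d/m d): t d ∣ d, all primes of d/t d = (d/m d)/Sp z (d/m d) are > z, t d ≤ x^τ x^(σ-τ) = x^σ. v Z d, r Z d by choice from GreStmt (m := m d, n := d/m d, m n = d) for d ∈ M, x^σ ≤ Z < d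
(m d x^ω ≤ x^(τ+ω) ≤ x^σ ≤ Z); 1 otherwise. New: t d = t d' does not give m d = m d'. Use MK.FspStmt (Lib/MK/SpecB.lean) with M, s := fun d => (m d : ℤ), t, K = T, B = J Bd C1 A0 η x T z (J = card (M.image i)), g d = |df (y d) d (t d) (s d)|: m d ∣ t d, so m d takes at most τ(n) ≤ T values on {d ∈ M : t d = n}
(empty, or n ∣ d for a d ∈ M, so 1 ≤ n ≤ x). For G ⊆ M with m d = a (t d) for d ∈ G: FpsStmt for G (card (G.image i) ≤ J): for d, d' ∈ G with i d = i d', t d = t d', v Z d = v Z d': m d = m d', m d * r Z d = t d * v Z d = m d' * r Z d', so r Z d = r Z d' (m d ≥ 1), and Nm gives t d * v Z d = m d * r Z d ∣ s d - s d'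
(Z < m r x^κ, Z ≥ x^σ ≥ x^(3/10+κ), so x^(3/10) < m r ≤ Z ≤ x^(1/2)). So ∑_M |df| ≤ T J Bd C1 A0 η x T z ≤ C1 x En (-1) x. -/
def FaeStmt : Prop := ∀ δ τ κ σ ω : ℝ, 0 ≤ δ → 0 ≤ τ → 0 < κ → 84 * δ + 60 * κ < 1 → 3 / 10 + κ ≤ σ → σ ≤ 1 / 3 →
  0 < ω → τ + ω ≤ σ →
  CoreStmt (1 / 2 + δ) σ κ σ ω → ∀ b U : ℝ, 0 < b → 0 < U → ∃ A' C x0 : ℝ, 0 < A' ∧ 0 ≤ C ∧ 3 ≤ x0 ∧
  ∀ (x : ℝ) (s : ℕ → ℤ) (m i : ℕ → ℕ) (y : ℕ → ℝ) (M : Finset ℕ), x0 ≤ x → ((M.image i).card : ℝ) ≤ En b x →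
  (∀ d, 2 ≤ y d ∧ y d ≤ x) →
  (∀ d ∈ M, Mm (1 / 2 + δ) τ κ x (m d) d ∧ Int.gcd (s d) d = 1 ∧
    (Sp (En A' x) (d / m d) : ℝ) ≤ x ^ (σ - τ)) →
  (∀ d ∈ M, ∀ d' ∈ M, i d = i d' → Nm x s m d d') →
  ∑ d ∈ M, |resErr (y d) d (s d)| ≤ C * (x / (Real.log x) ^ U)

/-- Module Fle (theorem tFle). Uses: BfiStmt, AfiStmt, FaeStmt, ExeStmt. FINAL STATEMENT SeStmt. MODEL: Lib/MX/Fal.lean.
Proof. σ = max (3/10 + κ) ((1/3 + τ + 10δ + 5κ)/2) < 1/3 (κ < 1/60), ω = σ - τ > 10δ + 5κ. CoreStmt (1/2+δ) σ κ σ ω from BfiStmt, AfiStmt. A', C1, x1 from FaeStmt, C2, x2 from ExeStmt with e = σ - τ, A', U. Split M by Sp (En A' x) (d / m d) ≤ x^(σ-τ) or not; in the second case Sp (En A' x) (d/m d) ≤ Sp (En A' x) d (it divides it), so ExeStmt applies. Small x: as in the MODEL. -/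
def FleStmt : Prop := SeStmt

end Pool.Agent.Lib.MX
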