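import Pool.Agent.Lib.MX.StmE

/-!
MP_00e23e_nt, directory Lib/MX (architect helper34; THEOREM MI, version 12), part A with a bounded number of scales: moduli
d = m n, m ≤ x^τ arbitrary, n x^κ'-smooth, κ' < κ; the classes are nested only for the numbers m r_j, r_j the largest initial
product of n with m r_j ≤ x^(σ + j (κ - κ')), j = 0, 1, ..., σ + j (κ - κ') ≤ 1/2.
RULES. Module X: file Pool/Agent/Lib/MX/X.lean, first line `import Pool.Agent.Lib.MX.StmF`, otherwise as in MX/Stm.lean.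
-/

namespace Pool.Agent.Lib.MX

open Finset Pool.Agent.Lib.EH3 Pool.Agent.Lib.TB Pool.Agent.Results.MP_00e23e_nt Pool.Agent.Lib.MI

/-- r is the largest initial product of n with m r ≤ Z -/
def Lin (m : ℕ) (Z : ℝ) (r n : ℕ) : Prop :=
  Ini r n ∧ (m : ℝ) * r ≤ Z ∧ ∀ r' : ℕ, Ini r' n → (m : ℝ) * r' ≤ Z → r' ≤ r

/-- the classes s d and s d' agree modulo m r if r is the largest initial product with m r ≤ x^(σ + j l) for d/m and d'/m -/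
def Nj (x σ l : ℝ) (s : ℕ → ℤ) (m : ℕ → ℕ) (d d' : ℕ) : Prop := m d = m d' → ∀ j : ℕ, σ + j * l ≤ 1 / 2 →
  ∀ r : ℕ, Lin (m d) (x ^ (σ + j * l)) r (d / m d) → Lin (m d') (x ^ (σ + j * l)) r (d' / m d') →
    ((m d * r : ℕ) : ℤ) ∣ s d - s d'

/-- THEOREM MI (version 12), part A -/
def SfStmt : Prop := ∀ δ τ κ κ' σ : ℝ, 0 ≤ δ → 0 ≤ τ → 0 < κ' → κ' < κ → 84 * δ + 60 * κ < 1 →
  10 * δ + 5 * κ + τ < σ → σ < 1 / 3 → ∀ b U : ℝ, 0 < b → 0 < U → ∃ C : ℝ,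
  ∀ (x : ℝ) (s : ℕ → ℤ) (m i : ℕ → ℕ) (y : ℕ → ℝ) (M : Finset ℕ), 3 ≤ x → ((M.image i).card : ℝ) ≤ En b x →
  (∀ d, 2 ≤ y d ∧ y d ≤ x) → (∀ d ∈ M, Mm (1 / 2 + δ) τ κ' x (m d) d ∧ Int.gcd (s d) d = 1) →
  (∀ d ∈ M, ∀ d' ∈ M, i d = i d' → Nj x σ (κ - κ') s m d d') →
  ∑ d ∈ M, |resErr (y d) d (s d)| ≤ C * (x / (Real.log x) ^ U)

/-- Module Grf (theorem tGrf). Uses: nothing. MODEL: Lib/MX/Gre.lean.
Proof. The initial products of a squarefree n are the numbers Sp k n, k natural (Ini r n: r = Sp k n for k = the largest prime of r, k = 0 for r = 1), they form a chain for divisibility. r = the largest one with m r ≤ Z (there are finitely many divisors of n; Sp w n is one with m Sp w n ≤ Z): Lin m Z r n; Sp w n ≤ r, so Sp w n ∣ r; v = r/Sp w n.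
r ≠ n since m n > Z' ≥ Z; let p be the smallest prime of n/r: r p is an initial product > r, so m r p > Z, p ≤ x^κ': Z < m r x^κ', Z' < Z x^(κ-κ') < m r x^κ. m r ≤ Z ≤ Z'. Dn for m r: let 1 ≤ W ≤ x^ω; m x^ω ≤ Z < m r x^κ', so x^ω < r x^κ' ≤ r x^κ. If W ≤ r: a divisor of r (r is x^κ-smooth) as in the MODEL; otherwise e = r.
m n/(m r) = n/r is x^κ-smooth: as in the MODEL. -/
def GrfStmt : Prop := ∀ (x κ κ' ω w Z Z' : ℝ) (m n : ℕ), 1 < x → 0 < κ' → κ' ≤ κ → Squarefree (m * n) →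
  (∀ p : ℕ, p.Prime → p ∣ n → (p : ℝ) ≤ x ^ κ') → (m : ℝ) * Sp w n ≤ Z → Z ≤ Z' → Z' < (m : ℝ) * n →
  Z' < Z * x ^ (κ - κ') → (m : ℝ) * x ^ ω ≤ Z →
  ∃ v r : ℕ, Lin m Z r n ∧ m * Sp w n * v = m * r ∧ v ∣ m * n / (m * Sp w n) ∧ ((m * Sp w n : ℕ) : ℝ) * v ≤ Z' ∧
    Z' < ((m * Sp w n : ℕ) : ℝ) * v * x ^ κ ∧ MQ.Dn (x ^ κ) (x ^ ω) (m * Sp w n * v) ∧
    MQ.Dn (x ^ κ) (x ^ ω) (m * n / (m * Sp w n * v))

/-- Module Faf (theorem tFaf). Uses: FpsStmt, WigStmt, GrfStmt, MI.FbvStmt, MK.FspStmt. MODEL: Lib/MX/Fae.lean (CoreStmt is a hypothesis inside).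
Proof. As there. New: for real Z ≥ x^σ let j(Z) = ⌊(log Z/log x - σ)/(κ - κ')⌋₊ and Z1(Z) = x^(σ + j(Z) (κ-κ')): x^σ ≤ Z1 ≤ Z < Z1 x^(κ-κ'), and σ + j(Z) (κ-κ') ≤ 1/2 if Z ≤ x^(1/2). v Z d, r Z d by choice from GrfStmt with Z := Z1(Z), Z' := Z (m := m d, n := d/m d, w = En A' x) for d ∈ M, x^σ ≤ Z < d
(m d x^ω ≤ x^(τ+ω) ≤ x^σ ≤ Z1; m d * Sp z (d/m d) ≤ x^σ ≤ Z1). For d, d' ∈ G (MK.FspStmt) with i d = i d', t d = t d', v Z d = v Z d': m d = m d', r Z d = r Z d' as there, and Nj with j = j(Z), r = r Z d gives t d * v Z d = m d * r Z d ∣ s d - s d'. -/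
def FafStmt : Prop := ∀ δ τ κ κ' σ ω : ℝ, 0 ≤ δ → 0 ≤ τ → 0 < κ' → κ' < κ → 84 * δ + 60 * κ < 1 → σ ≤ 1 / 3 →
  0 < ω → τ + ω ≤ σ →
  CoreStmt (1 / 2 + δ) σ κ σ ω → ∀ b U : ℝ, 0 < b → 0 < U → ∃ A' C x0 : ℝ, 0 < A' ∧ 0 ≤ C ∧ 3 ≤ x0 ∧
  ∀ (x : ℝ) (s : ℕ → ℤ) (m i : ℕ → ℕ) (y : ℕ → ℝ) (M : Finset ℕ), x0 ≤ x → ((M.image i).card : ℝ) ≤ En b x →
  (∀ d, 2 ≤ y d ∧ y d ≤ x) →
  (∀ d ∈ M, Mm (1 / 2 + δ) τ κ' x (m d) d ∧ Int.gcd (s d) d = 1 ∧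
    (Sp (En A' x) (d / m d) : ℝ) ≤ x ^ (σ - τ)) →
  (∀ d ∈ M, ∀ d' ∈ M, i d = i d' → Nj x σ (κ - κ') s m d d') →
  ∑ d ∈ M, |resErr (y d) d (s d)| ≤ C * (x / (Real.log x) ^ U)

/-- Module Flf (theorem tFlf). Uses: BfiStmt, AfiStmt, FafStmt, ExeStmt. FINAL STATEMENT SfStmt. MODEL: Lib/MX/Fle.lean (ω = σ - τ, σ given). -/
def FlfStmt : Prop := SfStmt

end Pool.Agent.Lib.MX
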